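import Pool.Agent.Lib.MTX.ModelA

/-!
# MTU.Cert (MP_e46137_lc): nondeterministic machines which certify unreachability
-/

namespace Cert

/-- A nondeterministic machine for digraphs on `Fin n` with the finite set `W` of states
(nonuniform).  In step `t` it may go from the state `w` to the state `w'` if `step t w w' G`.  This is
an arbitrary condition on the arcs of `G` incident to one vertex, the vertex `v t w w'`. -/
structure Mach (n : ℕ) (W : Type) where
  start : W
  acc : W → Prop
  v : ℕ → W → W → Fin n
  step : ℕ → W → W → (Fin n → Fin n → Bool) → Prop
  loc : ∀ t w w' (G G' : Fin n → Fin n → Bool),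
    (∀ u, G (v t w w') u = G' (v t w w') u ∧ G u (v t w w') = G' u (v t w w')) →
    step t w w' G → step t w w' G'

/-- the machine has no clock: the possible steps do not depend on the time -/
def Mach.Clockless {n : ℕ} {W : Type} (M : Mach n W) : Prop := ∀ t, M.step t = M.step 0

/-- the states `R 0, …, R T` are a computation on the digraph `G` -/
def Mach.Comp {n : ℕ} {W : Type} (M : Mach n W) (T : ℕ) (G : Fin n → Fin n → Bool)
    (R : ℕ → W) : Prop :=
  R 0 = M.start ∧ ∀ t < T, M.step t (R t) (R (t + 1)) G

/-- some computation of `T` steps on `G` ends in an accepting state -/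
def Mach.Accepts {n : ℕ} {W : Type} (M : Mach n W) (T : ℕ) (G : Fin n → Fin n → Bool) : Prop :=
  ∃ R, M.Comp T G R ∧ M.acc (R T)

/-- Some accepting computation of `T` steps on `G` relies on the presence of at most `m` arcs of `G`:
there is a set `K` of at most `m` arcs of `G` such that it is a computation on every digraph obtained
from `G` by removing arcs which are not in `K`.  (If the machine reads one arc variable in each step,
then the arcs read and found present are such a set `K`.  For `m = 0`: the computation remains
possible if any arcs are removed, it relies only on the absence of arcs.) -/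
def Mach.AcceptsUsing {n : ℕ} {W : Type} (M : Mach n W) (T m : ℕ) (G : Fin n → Fin n → Bool) :
    Prop :=
  ∃ (R : ℕ → W) (K : Finset (Fin n × Fin n)), K.card ≤ m ∧ (∀ e ∈ K, G e.1 e.2 = true) ∧
    M.acc (R T) ∧ ∀ G' : Fin n → Fin n → Bool, (∀ e ∈ K, G' e.1 e.2 = true) →
      (∀ u v, G' u v ≤ G u v) → M.Comp T G' R

open Classical in
/-- the probability that a probabilistic nondeterministic machine (the machine `M ω` is used with
probability `p ω`) has an accepting computation on `G` which relies only on the absence of arcs -/
noncomputable def accProb {n : ℕ} {W : Type} {Ω : Type} [Fintype Ω] (p : Ω → ℝ)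
    (M : Ω → Mach n W) (T : ℕ) (G : Fin n → Fin n → Bool) : ℝ :=
  ∑ ω ∈ Finset.univ.filter (fun ω => (M ω).AcceptsUsing T 0 G), p ω

/-- The probabilistic machine, relying only on the absence of edges, certifies with gap `δ` on
undirected graphs that `t` is not reachable from `s`: the acceptance probability on each graph in
which `t` is not reachable from `s` exceeds that on each graph with a walk of at most `d` edges from
`s` to `t` by at least `δ`. -/
def Certifies {n : ℕ} {W : Type} {Ω : Type} [Fintype Ω] (p : Ω → ℝ) (M : Ω → Mach n W)
    (T d : ℕ) (s t : Fin n) (δ : ℝ) : Prop :=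
  ∀ G G' : Fin n → Fin n → Bool, (∀ a b, G a b = G b a) → (∀ a b, G' a b = G' b a) →
    (∃ l ≤ d, SharpTS.HasWalk G l s t) → ¬ SharpTS.Reach G' s t →
    accProb p M T G + δ ≤ accProb p M T G'

open Classical in
/-- the probability of `A` for a uniformly random undirected path with `d` edges from `s` to `t` -/
noncomputable def pathProb {n : ℕ} (d : ℕ) (s t : Fin n)
    (A : (Fin n → Fin n → Bool) → Prop) : ℝ :=
  (((SharpTS.seqs n (d - 1) s t).filter (fun P => A (SharpTS.pathGraph s t P))).card : ℝ) /
    (SharpTS.seqs n (d - 1) s t).card

open Classical in
/-- the probability of `A` for the graph consisting of two cliques, one on `C` and one on the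
complement of `C`, for a uniformly random set `C` which contains `s` but not `t` -/
noncomputable def cutProb {n : ℕ} (s t : Fin n) (A : (Fin n → Fin n → Bool) → Prop) : ℝ :=
  (((SharpTS.cuts n s t).filter (fun C => A (SharpTS.cutGraph C))).card : ℝ) /
    (SharpTS.cuts n s t).card

end Cert
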