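import Pool.Agent.Lib.MTU.Sim

/-!
# MTU.Clock (MP_e46137_lc): machines with a clock
-/

namespace MTU

open Classical Finset

namespace ClockAux

variable {n : ℕ} {W : Type}

/-- the machine with a clock which counts to `T` -/
def clock (M : Cert.Mach n W) (T : ℕ) : Cert.Mach n (Fin (T + 1) × W) where
  start := (0, M.start)
  acc := fun x => (x.1 : ℕ) = T ∧ M.acc x.2
  v := fun _ x y => M.v x.1 x.2 y.2
  step := fun _ x y G => (y.1 : ℕ) = x.1 + 1 ∧ M.step x.1 x.2 y.2 G
  loc := fun _ x y G G' hG hs => ⟨hs.1, M.loc _ _ _ G G' hG hs.2⟩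

theorem clock_clockless (M : Cert.Mach n W) (T : ℕ) : (clock M T).Clockless := fun _ => rfl

theorem clock_comp {M : Cert.Mach n W} {T T' : ℕ} {G : Fin n → Fin n → Bool}
    {R : ℕ → Fin (T + 1) × W} (h : (clock M T).Comp T' G R) :
    ∀ i ≤ T', ((R i).1 : ℕ) = i := by
  intro i
  induction i with
  | zero =>
    intro _
    rw [h.1]
    rfl
  | succ i ih =>
    intro hi
    have h1 := (h.2 i (by omega)).1
    rw [ih (by omega)] at h1
    exact h1

theorem comp_of_clock {M : Cert.Mach n W} {T T' : ℕ} {G : Fin n → Fin n → Bool}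
    {R : ℕ → Fin (T + 1) × W} (h : (clock M T).Comp T' G R) :
    M.Comp T' G (fun i => (R i).2) := by
  refine ⟨?_, fun i hi => ?_⟩
  · show (R 0).2 = M.start
    rw [h.1]
    rfl
  · show M.step i (R i).2 (R (i + 1)).2 G
    have h1 := (h.2 i hi).2
    rwa [clock_comp h i (by omega)] at h1

theorem clock_of_comp {M : Cert.Mach n W} {T : ℕ} {G : Fin n → Fin n → Bool}
    {R : ℕ → W} (h : M.Comp T G R) :
    (clock M T).Comp T G (fun i => (⟨min i T, by omega⟩, R i)) := by
  refine ⟨?_, fun i hi => ⟨?_, ?_⟩⟩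
  · show ((⟨min 0 T, by omega⟩ : Fin (T + 1)), R 0) = (0, M.start)
    rw [h.1]
    refine Prod.ext (Fin.ext ?_) rfl
    show min 0 T = 0
    exact Nat.zero_min T
  · show min (i + 1) T = min i T + 1
    omega
  · show M.step (min i T) (R i) (R (i + 1)) G
    rw [min_eq_left hi.le]
    exact h.2 i hi

theorem clock_using (M : Cert.Mach n W) (T m : ℕ) (G : Fin n → Fin n → Bool) :
    (∃ T', (clock M T).AcceptsUsing T' m G) ↔ M.AcceptsUsing T m G := by
  constructor
  · rintro ⟨T', R, K, h1, h2, ⟨h3, h3'⟩, h4⟩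
    have h5 := clock_comp (h4 G h2 fun _ _ => le_rfl) T' le_rfl
    have h6 : T' = T := by omega
    subst h6
    exact ⟨fun i => (R i).2, K, h1, h2, h3', fun G' h7 h8 => comp_of_clock (h4 G' h7 h8)⟩
  · rintro ⟨R, K, h1, h2, h3, h4⟩
    refine ⟨T, fun i => (⟨min i T, by omega⟩, R i), K, h1, h2, ⟨?_, h3⟩,
      fun G' h7 h8 => clock_of_comp (h4 G' h7 h8)⟩
    show min T T = T
    exact min_self T

theorem clock_accepts (M : Cert.Mach n W) (T : ℕ) (G : Fin n → Fin n → Bool) :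
    (∃ T', (clock M T).Accepts T' G) ↔ M.Accepts T G := by
  constructor
  · rintro ⟨T', R, h4, ⟨h3, h3'⟩⟩
    have h5 := clock_comp h4 T' le_rfl
    have h6 : T' = T := by omega
    subst h6
    exact ⟨fun i => (R i).2, comp_of_clock h4, h3'⟩
  · rintro ⟨R, h4, h3⟩
    refine ⟨T, fun i => (⟨min i T, by omega⟩, R i), clock_of_comp h4, ⟨?_, h3⟩⟩
    show min T T = T
    exact min_self T

theorem clock_card [Fintype W] (T : ℕ) :
    Fintype.card (Fin (T + 1) × W) = (T + 1) * Fintype.card W := by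
  rw [Fintype.card_prod, Fintype.card_fin]

/-- the machine which guesses a cut and checks it -/
def guess {n : ℕ} (s t : Fin n) : Cert.Mach n (Finset (Fin n)) where
  start := ∅
  acc := fun _ => True
  v := fun i _ _ => if h : i - 1 < n then ⟨i - 1, h⟩ else s
  step := fun i C C' G => (i = 0 ∧ s ∈ C' ∧ t ∉ C') ∨
    (i ≠ 0 ∧ C' = C ∧ ((if h : i - 1 < n then (⟨i - 1, h⟩ : Fin n) else s) ∈ C →
      ∀ u, G (if h : i - 1 < n then ⟨i - 1, h⟩ else s) u = true → u ∈ C))
  loc := by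
    intro i C C' G G' hG hs
    rcases hs with h | ⟨h1, h2, h3⟩
    · exact Or.inl h
    · refine Or.inr ⟨h1, h2, fun h4 u hu => h3 h4 u ?_⟩
      rw [(hG u).1]
      exact hu

theorem guess_accepts {n : ℕ} {s t : Fin n} {G : Fin n → Fin n → Bool}
    (h : (guess s t).Accepts (n + 1) G) : ¬ SharpTS.Reach G s t := by
  obtain ⟨R, ⟨h0, h1⟩, -⟩ := h
  -- the guessed cut
  have hcut : s ∈ R 1 ∧ t ∉ R 1 := by
    rcases h1 0 (by omega) with ⟨-, h2⟩ | ⟨h2, -⟩
    · exact h2
    · exact absurd rfl h2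
  have hconst : ∀ i ≤ n, R (i + 1) = R 1 := by
    intro i
    induction i with
    | zero => exact fun _ => rfl
    | succ i ih =>
      intro hi
      rcases h1 (i + 1) (by omega) with ⟨h2, -⟩ | ⟨-, h2, -⟩
      · omega
      · rw [h2, ih (by omega)]
  have hclosed : ∀ v ∈ R 1, ∀ u, G v u = true → u ∈ R 1 := by
    intro v hv u hu
    rcases h1 (v + 1) (by omega) with ⟨h2, -⟩ | ⟨-, -, h3⟩
    · omega
    · have e1 : ((v : ℕ) + 1 - 1) < n := by omega
      rw [dif_pos e1, hconst v (by omega)] at h3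
      have e2 : (⟨(v : ℕ) + 1 - 1, e1⟩ : Fin n) = v := Fin.ext (by simp)
      rw [e2] at h3
      exact h3 hv u hu
  intro hr
  have h2 : ∀ v, SharpTS.Reach G s v → v ∈ R 1 := by
    intro v hv
    unfold SharpTS.Reach at hv
    induction hv with
    | refl => exact hcut.1
    | tail _ hbc ih => exact hclosed _ ih _ hbc
  exact hcut.2 (h2 t hr)

theorem guess_using {n : ℕ} {s t : Fin n} {G : Fin n → Fin n → Bool}
    (h : ¬ SharpTS.Reach G s t) : (guess s t).AcceptsUsing (n + 1) 0 G := by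
  obtain ⟨C, hC⟩ : ∃ C : Finset (Fin n), C = univ.filter (fun v => SharpTS.Reach G s v) :=
    ⟨_, rfl⟩
  have hmem : ∀ v, v ∈ C ↔ SharpTS.Reach G s v := by
    intro v
    rw [hC, mem_filter]
    exact ⟨fun h => h.2, fun h => ⟨mem_univ _, h⟩⟩
  refine ⟨fun i => if i = 0 then ∅ else C, ∅, Nat.zero_le _, fun e he => absurd he (notMem_empty _),
    trivial, fun G' _ hG' => ⟨?_, fun i _ => ?_⟩⟩
  · show (if (0 : ℕ) = 0 then ∅ else C) = ∅
    rw [if_pos rfl]
  · show (i = 0 ∧ s ∈ (if i + 1 = 0 then ∅ else C) ∧ t ∉ (if i + 1 = 0 then ∅ else C)) ∨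
      (i ≠ 0 ∧ (if i + 1 = 0 then ∅ else C) = (if i = 0 then ∅ else C) ∧
        ((if h : i - 1 < n then (⟨i - 1, h⟩ : Fin n) else s) ∈ (if i = 0 then ∅ else C) →
          ∀ u, G' (if h : i - 1 < n then ⟨i - 1, h⟩ else s) u = true →
            u ∈ (if i = 0 then ∅ else C)))
    rw [if_neg (Nat.succ_ne_zero i)]
    by_cases hi : i = 0
    · left
      refine ⟨hi, (hmem s).2 ?_, fun h2 => h ((hmem t).1 h2)⟩
      exact Relation.ReflTransGen.refl
    · right
      rw [if_neg hi]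
      refine ⟨hi, rfl, fun h2 u hu => (hmem u).2 (((hmem _).1 h2).tail ?_)⟩
      have h3 := hG' (if h : i - 1 < n then (⟨i - 1, h⟩ : Fin n) else s) u
      rw [hu] at h3
      exact le_antisymm (Bool.le_true _) h3

end ClockAux

end MTU
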