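import Pool.Agent.Lib.MTX.CountA

/-!
# MTU.Count (MP_e46137_lc): the paths through some vertices with unblocked arcs
-/

namespace MTU

open Classical Finset MTX

variable {r N : ℕ}

/-- the paths in `𝒜` through the assigned vertices for which none of the arcs `x, …, x + 2 ^ h - 1`
is blocked -/
noncomputable def EN (𝒜 : Finset (Pth r N)) (Z : Pth r N → Set ℕ) (ρ : PA r N) (x h : ℕ) :
    Finset (Pth r N) :=
  𝒜.filter (fun P => P ∈ Om ρ ∧ ∀ q, x ≤ q → q < x + 2 ^ h → q ∉ Z P)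

/-- One vertex set `A` with `a` elements; `Hyp` is the bound for `a` more assigned positions. -/
theorem one_set {h a : ℕ} {C κ : ℝ} (hC : 0 ≤ C) (hκ : 0 < κ) (hκh : κ * 2 ^ h ≤ 1)
    (𝒜 : Finset (Pth r N)) (Z : Pth r N → Set ℕ) (ρ : PA r N) (x : ℕ)
    (hx : x + 2 ^ h ≤ r + 1) (hfree : Free ρ x h)
    (Hyp : ∀ h' ≤ h, ∀ (ρ' : PA r N) (x' : ℕ), asz ρ' = asz ρ + a → x' + 2 ^ h' ≤ r + 1 →
      Free ρ' x' h' →
      ((EN 𝒜 Z ρ' x' h').card : ℝ) ≤ C * 2 ^ asz ρ' * Fk κ h' * ((Om ρ').card : ℝ))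
    {A : Finset (Fin N)} (hA : A.Nonempty) (hAa : A.card = a)
    (hdis : ∀ j v, ρ j = some v → v ∉ A)
    {E₀ : Finset (Pth r N)} (hE₀ : E₀ ⊆ EN 𝒜 Z ρ x h)
    (hcov : ∀ P ∈ E₀, ∀ v ∈ A, ∃ j, P j = v) :
    (E₀.card : ℝ) * ((N - r : ℕ) : ℝ) ^ a ≤
      C * 2 ^ (asz ρ + a) * Fk κ h * (2 / κ + r) ^ a * ((Om ρ).card : ℝ) := by
  set I : Finset (Fin r) := univ.filter (fun j : Fin r => x ≤ (j : ℕ) ∧ (j : ℕ) + 1 < x + 2 ^ h)
    with hI
  have hmemI : ∀ j : Fin r, j ∈ I ↔ x ≤ (j : ℕ) ∧ (j : ℕ) + 1 < x + 2 ^ h := by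
    intro j
    rw [hI, mem_filter]
    exact ⟨fun h => h.2, fun h => ⟨mem_univ _, h⟩⟩
  have hIcard : I.card ≤ 2 ^ h := by
    have h1 : I.card ≤ (Finset.Ico x (x + 2 ^ h)).card := by
      refine Finset.card_le_card_of_injOn (fun j : Fin r => (j : ℕ)) ?_ ?_
      · intro j hj
        have h2 := (hmemI j).1 hj
        simp only [coe_Ico, Set.mem_Ico]
        omega
      · intro a _ b _ hab
        exact Fin.ext hab
    rwa [Nat.card_Ico, Nat.add_sub_cancel_left] at h1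
  have hFk : 0 < Fk κ h := Fk_pos hκ h
  have hk2 : 0 < κ * 2 ^ h := by positivity
  set y : ℝ := 2 / (κ * 2 ^ h) with hy
  have hy0 : 0 ≤ y := by positivity
  let wt : Fin N → Fin r → ℝ := fun _ j => if j ∈ I then y else 1
  have hwt : ∀ v j, 0 ≤ wt v j := by
    intro v j
    simp only [wt]
    split_ifs
    · exact hy0
    · exact zero_le_one
  have key := reveal (ρ := ρ) (A := A) hA (E := E₀)
    (fun P hP => (mem_filter.1 (hE₀ hP)).2.1) hdis hcov wt hwt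
    (Γ := C * 2 ^ (asz ρ + a) * Fk κ h) (by positivity) (by
      intro pos hinj hnone
      set b := (A.filter (fun v => pos v ∈ I)).card with hb
      have hprod : ∏ v ∈ A, wt v (pos v) = y ^ b := by
        simp only [wt]
        rw [prod_ite, prod_const_one, mul_one, prod_const]
      rw [hprod]
      set C' : Finset ℕ := (A.filter (fun v => pos v ∈ I)).image (fun v => (pos v : ℕ)) with hC'
      have hC'card : C'.card = b := by
        rw [hC', card_image_of_injOn]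
        intro u hu v hv huv
        exact hinj (mem_filter.1 hu).1 (mem_filter.1 hv).1 (Fin.ext huv)
      obtain ⟨x', hx1, hx2, hx3⟩ := exists_piece x h C'
      rw [hC'card] at hx2 hx3
      set h' := h - Nat.size b with hh'
      set ρ' := ext ρ A pos with hρ'
      have hasz : asz ρ' = asz ρ + a := by
        rw [hρ', asz_ext ρ hinj hnone, hAa]
      have hfree' : Free ρ' x' h' := by
        intro j hj1 hj2
        have h1 : ∀ v ∈ A, pos v ≠ j := by
          intro v hv hvj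
          refine hx3 (pos v : ℕ) ?_ ⟨by rw [hvj]; exact hj1, by rw [hvj]; omega⟩
          rw [hC', mem_image]
          refine ⟨v, mem_filter.2 ⟨hv, (hmemI _).2 ?_⟩, rfl⟩
          rw [hvj]
          omega
        rw [hρ', ext_of_notMem ρ h1]
        exact hfree j (by omega) (by omega)
      have h4 := Hyp h' (by omega) ρ' x' hasz (by omega) hfree'
      have h5 : (E₀.filter (fun P => ∀ v ∈ A, P (pos v) = v)).card ≤
          (EN 𝒜 Z ρ' x' h').card := by
        apply card_le_card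
        intro P hP
        obtain ⟨hP1, hP2⟩ := mem_filter.1 hP
        obtain ⟨g1, g2, g3⟩ := mem_filter.1 (hE₀ hP1)
        refine mem_filter.2 ⟨g1, ?_, fun q hq1 hq2 => g3 q (by omega) (by omega)⟩
        rw [hρ', mem_om_ext ρ hinj hnone]
        exact ⟨g2, hP2⟩
      have h6 : ((E₀.filter (fun P => ∀ v ∈ A, P (pos v) = v)).card : ℝ) ≤
          C * 2 ^ asz ρ' * Fk κ h' * ((Om ρ').card : ℝ) := le_trans (by exact_mod_cast h5) h4
      refine h6.trans (mul_le_mul_of_nonneg_right ?_ (by positivity))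
      have h8 : Fk κ h' ≤ Fk κ h * y ^ b := by
        rcases Nat.eq_zero_or_pos b with hb0 | hb1
        · rw [hb0] at hh' ⊢
          rw [hh', Nat.size_zero, Nat.sub_zero, pow_zero, mul_one]
        · have h7 := Fk_sub hκ hκh hb1
          rw [hy, div_pow, ← mul_div_assoc, le_div_iff₀ (by positivity)]
          refine h7.trans ?_
          apply mul_le_mul_of_nonneg_left _ hFk.le
          exact pow_le_pow_right₀ (by norm_num) (by omega)
      rw [hasz]
      calc C * 2 ^ (asz ρ + a) * Fk κ h' ≤ C * 2 ^ (asz ρ + a) * (Fk κ h * y ^ b) :=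
            mul_le_mul_of_nonneg_left h8 (by positivity)
        _ = C * 2 ^ (asz ρ + a) * Fk κ h * y ^ b := by ring)
  rw [hAa] at key
  refine key.trans (mul_le_mul_of_nonneg_right (mul_le_mul_of_nonneg_left ?_ (by positivity))
    (by positivity))
  have h9 : ∀ v ∈ A, ∑ j, wt v j ≤ 2 / κ + r := by
    intro v _
    calc ∑ j, wt v j ≤ ∑ j : Fin r, ((if j ∈ I then y else 0) + 1) := by
          refine sum_le_sum fun j _ => ?_
          simp only [wt]
          split_ifs <;> linarith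
      _ = (I.card : ℝ) * y + r := by
          rw [sum_add_distrib, sum_ite_mem, univ_inter, sum_const, nsmul_eq_mul, sum_const,
            card_univ, Fintype.card_fin, nsmul_eq_mul, mul_one]
      _ ≤ 2 / κ + r := by
          have h10 : (I.card : ℝ) ≤ 2 ^ h := by exact_mod_cast hIcard
          have h11 : (I.card : ℝ) * y ≤ 2 ^ h * y := mul_le_mul_of_nonneg_right h10 hy0
          have h12 : (2 : ℝ) ^ h * y = 2 / κ := by
            rw [hy]
            field_simp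
          linarith
  calc ∏ v ∈ A, ∑ j, wt v j ≤ ∏ _v ∈ A, (2 / κ + (r : ℝ)) :=
        prod_le_prod (fun v _ => sum_nonneg fun j _ => hwt v j) h9
    _ = (2 / κ + (r : ℝ)) ^ a := by rw [prod_const, hAa]

/-- `∑_{1 ≤ a ≤ R} q ^ a ≤ (4 / 3) q` for `q ≤ 1 / 4` -/
theorem sum_pow_le {q : ℝ} (hq0 : 0 ≤ q) (hq : q ≤ 1 / 4) (R : ℕ) :
    ∑ a ∈ Icc 1 R, q ^ a ≤ 4 / 3 * q := by
  have h1 : ∀ R : ℕ, ∑ a ∈ Icc 1 R, q ^ a ≤ 4 / 3 * q - 4 / 3 * q ^ (R + 1) := by
    intro R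
    induction R with
    | zero => simp
    | succ R ih =>
      rw [Finset.sum_Icc_succ_top (by omega)]
      have h2 : q ^ (R + 1 + 1) = q ^ (R + 1) * q := pow_succ _ _
      have h3 : 0 ≤ q ^ (R + 1) := by positivity
      rw [h2]
      nlinarith
  have h2 := h1 R
  have h3 : 0 ≤ q ^ (R + 1) := by positivity
  linarith

/-- Sum of `one_set` over the sets `A ∈ Cov`, `1 ≤ card A ≤ w₁`, at most `B ^ a` of them with
`a` vertices, with `κ = 4 B Q / (N - r)`. -/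
theorem second_card {h w₁ B Q : ℕ} {C : ℝ} (hC : 0 ≤ C) (hB : 1 ≤ B) (hQ : 6 ≤ Q)
    (hrN : r < N) (hμ : 4 * B * Q * r ≤ N - r) (hκ : 4 * B * Q * 2 ^ h ≤ N - r)
    (𝒜 : Finset (Pth r N)) (Z : Pth r N → Set ℕ) (ρ : PA r N) (x : ℕ)
    (hx : x + 2 ^ h ≤ r + 1) (hfree : Free ρ x h)
    (Hyp : ∀ h' ≤ h, ∀ (ρ' : PA r N) (x' : ℕ), asz ρ < asz ρ' → x' + 2 ^ h' ≤ r + 1 →
      Free ρ' x' h' →
      ((EN 𝒜 Z ρ' x' h').card : ℝ) ≤
        C * 2 ^ asz ρ' * Fk (4 * B * Q / ((N - r : ℕ) : ℝ)) h' * ((Om ρ').card : ℝ))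
    (Cov : Finset (Finset (Fin N)))
    (hcov : ∀ a, 1 ≤ a → a ≤ w₁ → (Cov.filter (fun A => A.card = a)).card ≤ B ^ a)
    (hdis : ∀ A ∈ Cov, ∀ j v, ρ j = some v → v ∉ A)
    {E₀ : Finset (Pth r N)} (hE₀ : E₀ ⊆ EN 𝒜 Z ρ x h)
    (hmix : ∀ P ∈ E₀, ∃ A ∈ Cov, 1 ≤ A.card ∧ A.card ≤ w₁ ∧ ∀ v ∈ A, ∃ j, P j = v) :
    (E₀.card : ℝ) ≤
      2 / Q * (C * 2 ^ asz ρ * Fk (4 * B * Q / ((N - r : ℕ) : ℝ)) h * ((Om ρ).card : ℝ)) := by
  have hn : (0 : ℝ) < ((N - r : ℕ) : ℝ) := by exact_mod_cast (by omega : 0 < N - r)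
  have hB0 : (0 : ℝ) < B := by exact_mod_cast hB
  have hQ6 : (6 : ℝ) ≤ Q := by exact_mod_cast hQ
  have hQ0 : (0 : ℝ) < Q := by linarith
  have hμ' : (4 : ℝ) * B * Q * r ≤ ((N - r : ℕ) : ℝ) := by exact_mod_cast hμ
  have hκ' : (4 : ℝ) * B * Q * 2 ^ h ≤ ((N - r : ℕ) : ℝ) := by exact_mod_cast hκ
  set n : ℝ := ((N - r : ℕ) : ℝ) with hndef
  set κ : ℝ := 4 * B * Q / n with hκdef
  have hκ0 : 0 < κ := by positivity
  have hκh : κ * 2 ^ h ≤ 1 := by
    calc κ * 2 ^ h = 4 * B * Q * 2 ^ h / n := by rw [hκdef]; ring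
      _ ≤ 1 := by rw [div_le_one hn]; exact hκ'
  set G : ℝ := C * 2 ^ asz ρ * Fk κ h * ((Om ρ).card : ℝ) with hG
  have hFk : 0 < Fk κ h := Fk_pos hκ0 h
  have hG0 : 0 ≤ G := by positivity
  have h2κ : 2 / κ = n / (2 * B * Q) := by
    rw [hκdef]
    field_simp
    ring
  let EA : Finset (Fin N) → Finset (Pth r N) := fun A => E₀.filter (fun P =>
    ∀ v ∈ A, ∃ j, P j = v)
  set g : ℝ := 2 * B * ((2 / κ + r) / n) with hg
  have hg0 : 0 ≤ g := by positivity
  have hgQ : g ≤ 3 / (2 * Q) := by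
    have h1 : g = 1 / Q + 2 * B * r / n := by
      rw [hg, h2κ]
      field_simp
    have h2 : (2 : ℝ) * B * r / n ≤ 1 / (2 * Q) := by
      rw [div_le_div_iff₀ hn (by positivity)]
      linarith
    have h3 : (3 : ℝ) / (2 * Q) = 1 / Q + 1 / (2 * Q) := by
      field_simp
      ring
    rw [h1, h3]
    linarith
  have hg4 : g ≤ 1 / 4 := by
    refine hgQ.trans ?_
    rw [div_le_div_iff₀ (by positivity) (by norm_num)]
    linarith
  let ψ : ℕ → ℝ := fun a => G * (2 * ((2 / κ + r) / n)) ^ a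
  have hψ0 : ∀ a, 0 ≤ ψ a := fun a => by
    simp only [ψ]
    positivity
  set Cov' := Cov.filter (fun A => 1 ≤ A.card ∧ A.card ≤ w₁) with hCov'
  have hcover : E₀ ⊆ Cov'.biUnion EA := by
    intro P hP
    obtain ⟨A, hA, hA1, hAw, hcv⟩ := hmix P hP
    rw [mem_biUnion]
    exact ⟨A, mem_filter.2 ⟨hA, hA1, hAw⟩, mem_filter.2 ⟨hP, hcv⟩⟩
  have hone : ∀ A ∈ Cov', ((EA A).card : ℝ) ≤ ψ A.card := by
    intro A hA
    rw [hCov', mem_filter] at hA
    have h1 := one_set (A := A) (a := A.card) (E₀ := EA A) hC hκ0 hκh 𝒜 Z ρ x hx hfree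
      (fun h' hh' ρ' x' e1 e2 e3 => Hyp h' hh' ρ' x' (by omega) e2 e3)
      (card_pos.1 hA.2.1) rfl (hdis A hA.1) ((filter_subset _ _).trans hE₀)
      (fun P hP => (mem_filter.1 hP).2)
    rw [← hndef] at h1
    have h2 : ψ A.card * n ^ A.card =
        C * 2 ^ (asz ρ + A.card) * Fk κ h * (2 / κ + r) ^ A.card * ((Om ρ).card : ℝ) := by
      simp only [ψ]
      rw [hG, mul_pow, div_pow, pow_add]
      field_simp
    rw [← h2] at h1
    exact le_of_mul_le_mul_right h1 (by positivity)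
  have hsum : ∑ A ∈ Cov', ψ A.card ≤ ∑ a ∈ Icc 1 w₁, ((B ^ a : ℕ) : ℝ) * ψ a := by
    have hmaps : ∀ A ∈ Cov', A.card ∈ Icc 1 w₁ := fun A hA => by
      rw [hCov', mem_filter] at hA
      exact mem_Icc.2 hA.2
    rw [← sum_fiberwise_of_maps_to hmaps]
    refine sum_le_sum fun a ha => ?_
    rw [mem_Icc] at ha
    have h1 : ∑ A ∈ Cov'.filter (fun A => A.card = a), ψ A.card =
        ((Cov'.filter (fun A => A.card = a)).card : ℝ) * ψ a := by
      rw [← nsmul_eq_mul, ← sum_const]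
      refine sum_congr rfl fun A hA => ?_
      rw [(mem_filter.1 hA).2]
    rw [h1]
    refine mul_le_mul_of_nonneg_right ?_ (hψ0 a)
    have h2 : Cov'.filter (fun A => A.card = a) ⊆ Cov.filter (fun A => A.card = a) :=
      filter_subset_filter _ (filter_subset _ _)
    exact_mod_cast (card_le_card h2).trans (hcov a ha.1 ha.2)
  have hterm : ∀ a ∈ Icc 1 w₁, ((B ^ a : ℕ) : ℝ) * ψ a = G * g ^ a := by
    intro a _
    simp only [ψ]
    push_cast
    rw [hg]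
    have : (2 * (B : ℝ) * ((2 / κ + r) / n)) = B * (2 * ((2 / κ + r) / n)) := by ring
    rw [this, mul_pow (B : ℝ)]
    ring
  calc (E₀.card : ℝ) ≤ (((Cov'.biUnion EA).card : ℕ) : ℝ) := by
        exact_mod_cast card_le_card hcover
    _ ≤ ((∑ A ∈ Cov', (EA A).card : ℕ) : ℝ) := by exact_mod_cast card_biUnion_le
    _ = ∑ A ∈ Cov', ((EA A).card : ℝ) := by push_cast; rfl
    _ ≤ ∑ A ∈ Cov', ψ A.card := sum_le_sum hone
    _ ≤ ∑ a ∈ Icc 1 w₁, ((B ^ a : ℕ) : ℝ) * ψ a := hsum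
    _ = G * ∑ a ∈ Icc 1 w₁, g ^ a := by
        rw [mul_sum]
        exact sum_congr rfl hterm
    _ ≤ G * (4 / 3 * g) := mul_le_mul_of_nonneg_left (sum_pow_le hg0 hg4 w₁) hG0
    _ ≤ G * (4 / 3 * (3 / (2 * Q))) := by gcongr
    _ = 2 / Q * G := by
        field_simp
        ring

end MTU
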