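import Pool.Agent.Lib.MTU.Pair
import Pool.Agent.Lib.MTU.Count
import Pool.Agent.Lib.MTX.CoreA

/-!
# MTU.Core (MP_e46137_lc): the recursion over time windows
-/

namespace MTU

open Classical Finset MTX

variable {r N : ℕ}

/-- the arcs `q` for which a small member is inside the path coloured at `q` -/
def blk (w₁ : ℕ) (F : Finset (PC N)) (P : Pth r N) : Set ℕ :=
  {q | ∃ U ∈ F, size U ≤ w₁ ∧ Sub U (UP P q)}

/-- the paths on which the state `a` is reached at time `t₁` and no state of a member of `X` is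
reached at time `t₂` -/
noncomputable def Nd {W : Type} (reach : ℕ → W → Pth r N → Prop) (R : Col N → ℕ → W)
    (X : Finset (Col N)) (a : W) (t₁ t₂ : ℕ) : Finset (Pth r N) :=
  univ.filter (fun P => reach t₁ a P ∧ ∀ χ ∈ X, ¬ reach t₂ (R χ t₂) P)

theorem EN_sub_Om (𝒜 : Finset (Pth r N)) (Z : Pth r N → Set ℕ) (ρ : PA r N) (x h : ℕ) :
    EN 𝒜 Z ρ x h ⊆ Om ρ := fun _ hP => (mem_filter.1 hP).2.1

theorem Fk_anti {κ : ℝ} (hκ : 0 < κ) {k : ℕ} (hκk : κ * 2 ^ k ≤ 1) {h : ℕ} (hh : h ≤ k) :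
    Fk κ k ≤ Fk κ h := by
  have step : ∀ m, h ≤ m → m ≤ k → Fk κ m ≤ Fk κ h := by
    intro m hm
    induction m, hm using Nat.le_induction with
    | base => intro _; exact le_rfl
    | succ m hm ih =>
      intro hk
      refine le_trans ?_ (ih (by omega))
      cases m with
      | zero => rw [FkLAux.Fk_one, FkLAux.Fk_zero]
      | succ m =>
        rw [FkLAux.Fk_succ]
        have h1 : κ * 2 ^ (m + 2) ≤ 1 := by
          refine le_trans ?_ hκk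
          apply mul_le_mul_of_nonneg_left _ hκ.le
          exact pow_le_pow_right₀ (by norm_num) hk
        have h2 := Fk_pos hκ (m + 1)
        nlinarith
  exact step k hh le_rfl

/-- One step: all arcs except two are blocked. -/
theorem leaf {w w₁ θ h : ℕ} {κ : ℝ} (hκ : 0 < κ) (hw : w₁ ≤ w) (hw3 : 3 ≤ w₁) {X : Finset (Col N)}
    {F : Finset (PC N)} {Err : Finset (Col N)} (hp : Pair w θ X F Err) (𝒜 : Finset (Pth r N))
    (hbase : ∀ P ∈ 𝒜, ∃ q₀, ∀ q ≤ r, q ≠ q₀ → q ≠ q₀ + 1 →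
      ∃ U, Sub U (UP P q) ∧ size U ≤ 3 ∧ ∀ χ ∈ X, ¬ Agree U χ)
    (ρ : PA r N) (x : ℕ) (hx : x + 2 ^ h ≤ r + 1) :
    ((EN 𝒜 (blk w₁ F) ρ x h).card : ℝ) ≤ Fk κ h * ((Om ρ).card : ℝ) := by
  have h1 : ((EN 𝒜 (blk w₁ F) ρ x h).card : ℝ) ≤ ((Om ρ).card : ℝ) := by
    exact_mod_cast card_le_card (EN_sub_Om _ _ _ _ _)
  rcases Nat.lt_or_ge h 2 with hh | hh
  · have h2 : Fk κ h = 1 := by
      rcases (by omega : h = 0 ∨ h = 1) with rfl | rfl
      · exact FkLAux.Fk_zero κ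
      · exact FkLAux.Fk_one κ
    rw [h2, one_mul]
    exact h1
  · have h4 : 4 ≤ 2 ^ h := by
      calc 4 = 2 ^ 2 := by norm_num
        _ ≤ 2 ^ h := Nat.pow_le_pow_right (by norm_num) hh
    have h0 : EN 𝒜 (blk w₁ F) ρ x h = ∅ := by
      rw [eq_empty_iff_forall_notMem]
      intro P hP
      obtain ⟨hPA, -, hq⟩ := mem_filter.1 hP
      obtain ⟨q₀, hq₀⟩ := hbase P hPA
      obtain ⟨q, hq1, hq2, hq3, hq4⟩ : ∃ q, x ≤ q ∧ q < x + 2 ^ h ∧ q ≠ q₀ ∧ q ≠ q₀ + 1 := by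
        by_cases hc : x = q₀ ∨ x = q₀ + 1
        · exact ⟨x + 2, by omega, by omega, by omega, by omega⟩
        · exact ⟨x, le_rfl, by omega, by omega, by omega⟩
      obtain ⟨U, hU1, hU2, hU3⟩ := hq₀ q (by omega) hq3 hq4
      refine hq q hq1 hq2 ⟨U, hp.cl U (by omega) ?_, by omega, hU1⟩
      have h5 : X.filter (fun χ => χ ∉ Err ∧ Agree U χ) = ∅ := by
        rw [filter_eq_empty_iff]
        rintro χ hχ ⟨-, h6⟩
        exact hU3 χ hχ h6
      rw [h5, card_empty]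
      exact Nat.zero_le _
    rw [h0, card_empty, Nat.cast_zero]
    have h6 := Fk_pos hκ h
    positivity

/-- One step of the recursion: the middle time `c`. -/
theorem step {W : Type} [Fintype W] {w w₁ k h B Q L θ θ' : ℕ} {C C' : ℝ} (hC : 0 ≤ C)
    (hCC : 2 * C' + 2 / Q * C ≤ C)
    (hw : 2 * w₁ ≤ w) (hL : 1 ≤ L) (hB1 : 1 ≤ B) (hB : B = 8 * w * L) (hQ : 6 ≤ Q)
    (hθ0 : 2 ^ N ≤ θ' * 2 ^ L) (hθ : Fintype.card W * ((2 * N + 1) ^ w * θ') ≤ θ)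
    (hrN : r < N) (hμ : 4 * B * Q * r ≤ N - r) (hκ : 4 * B * Q * 2 ^ k ≤ N - r) (hhk : h ≤ k)
    (R : Col N → ℕ → W) (reach : ℕ → W → Pth r N → Prop)
    {t₁ c t₂ : ℕ} {a : W} {X : Finset (Col N)} {F : Finset (PC N)} {Err : Finset (Col N)}
    (hp : Pair w θ X F Err) (ρ : PA r N) (hρ : asz ρ < w₁) (x : ℕ)
    (hx : x + 2 ^ h ≤ r + 1) (hfree : Free ρ x h)
    (H1 : ∀ u F' Err', Pair w θ' (X.filter (fun χ => R χ c = u)) F' Err' →
      ((EN (Nd reach R (X.filter (fun χ => R χ c = u)) a t₁ c) (blk w₁ F') ρ x h).card : ℝ) ≤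
        C' * 2 ^ asz ρ * Fk (4 * B * Q / ((N - r : ℕ) : ℝ)) h * ((Om ρ).card : ℝ))
    (H2 : ∀ u F' Err', Pair w θ' (X.filter (fun χ => R χ c = u)) F' Err' →
      ((EN (Nd reach R (X.filter (fun χ => R χ c = u)) u c t₂) (blk w₁ F') ρ x h).card : ℝ) ≤
        C' * 2 ^ asz ρ * Fk (4 * B * Q / ((N - r : ℕ) : ℝ)) h * ((Om ρ).card : ℝ))
    (Hyp : ∀ h' ≤ h, ∀ (ρ' : PA r N) (x' : ℕ), asz ρ < asz ρ' → x' + 2 ^ h' ≤ r + 1 →
      Free ρ' x' h' →
      ((EN (Nd reach R X a t₁ t₂) (blk w₁ F) ρ' x' h').card : ℝ) ≤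
        C * 2 ^ asz ρ' * Fk (4 * B * Q / ((N - r : ℕ) : ℝ)) h' * ((Om ρ').card : ℝ)) :
    ((EN (Nd reach R X a t₁ t₂) (blk w₁ F) ρ x h).card : ℝ) ≤
      C * 2 ^ asz ρ * Fk (4 * B * Q / ((N - r : ℕ) : ℝ)) h * ((Om ρ).card : ℝ) := by
  have hn : (0 : ℝ) < ((N - r : ℕ) : ℝ) := by exact_mod_cast (by omega : 0 < N - r)
  have hB0 : (0 : ℝ) < B := by exact_mod_cast hB1
  have hQ0 : (0 : ℝ) < Q := by
    have : (6 : ℝ) ≤ Q := by exact_mod_cast hQ
    linarith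
  set κ : ℝ := 4 * B * Q / ((N - r : ℕ) : ℝ) with hκdef
  have hκ0 : 0 < κ := by positivity
  have hFk := Fk_pos hκ0 h
  have hG0 : 0 ≤ 2 ^ asz ρ * Fk κ h * ((Om ρ).card : ℝ) := by positivity
  obtain ⟨E, hE⟩ : ∃ E, E = EN (Nd reach R X a t₁ t₂) (blk w₁ F) ρ x h := ⟨_, rfl⟩
  rw [← hE]
  rcases E.eq_empty_or_nonempty with h0 | ⟨P₀, hP₀⟩
  · rw [h0, card_empty, Nat.cast_zero]
    positivity
  -- the coloured assigned vertices are not a member of the family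
  have hsz : size (colr ρ x) ≤ asz ρ := size_colr_le ρ x
  have hDF : colr ρ x ∉ F := by
    intro hD
    rw [hE] at hP₀
    obtain ⟨-, hOm, hq⟩ := mem_filter.1 hP₀
    have h2 : 0 < 2 ^ h := by positivity
    exact hq x le_rfl (by omega) ⟨colr ρ x, hD, by omega, colr_sub hOm x⟩
  obtain ⟨u, hu⟩ := exists_state hp hθ (fun χ => R χ c) (D := colr ρ x) (by omega) hDF
  obtain ⟨F', Err', hp'⟩ := exists_pair w θ' (X.filter (fun χ => R χ c = u))
  have hDF' := hu F' Err' hp'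
  have hcl := hp'.closed
  obtain ⟨E₀, hE₀⟩ : ∃ E₀, E₀ = E.filter
    (fun P => ∃ q, x ≤ q ∧ q < x + 2 ^ h ∧ q ∈ blk w₁ F' P) := ⟨_, rfl⟩
  -- the three kinds of paths
  have hsub : E ⊆ EN (Nd reach R (X.filter (fun χ => R χ c = u)) a t₁ c) (blk w₁ F') ρ x h ∪
      (EN (Nd reach R (X.filter (fun χ => R χ c = u)) u c t₂) (blk w₁ F') ρ x h ∪ E₀) := by
    intro P hP
    rw [mem_union, mem_union]
    by_cases hb : ∃ q, x ≤ q ∧ q < x + 2 ^ h ∧ q ∈ blk w₁ F' P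
    · right; right
      rw [hE₀]
      exact mem_filter.2 ⟨hP, hb⟩
    · have hP' := hP
      rw [hE] at hP'
      obtain ⟨hN, hOm, -⟩ := mem_filter.1 hP'
      obtain ⟨-, hN1, hN2⟩ := mem_filter.1 hN
      have hb' : ∀ q, x ≤ q → q < x + 2 ^ h → q ∉ blk w₁ F' P :=
        fun q h1 h2 h3 => hb ⟨q, h1, h2, h3⟩
      by_cases hr : reach c u P
      · right; left
        refine mem_filter.2 ⟨mem_filter.2 ⟨mem_univ _, hr, fun χ hχ => ?_⟩, hOm, hb'⟩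
        exact hN2 χ (mem_filter.1 hχ).1
      · left
        refine mem_filter.2 ⟨mem_filter.2 ⟨mem_univ _, hN1, fun χ hχ => ?_⟩, hOm, hb'⟩
        rw [(mem_filter.1 hχ).2]
        exact hr
  -- the minimal extensions
  have hcolr : ∀ q, x ≤ q → q < x + 2 ^ h → colr ρ x = colr ρ q := by
    intro q hq1 hq2
    refine colr_congr ρ fun j hj => ⟨fun h1 => by omega, fun h1 => ?_⟩
    by_contra h2
    exact hj (hfree j (by omega) (by omega))
  obtain ⟨Cov, hCov⟩ : ∃ Cov, Cov = (univ.filter (fun A : PC N => 1 ≤ size A ∧ size A ≤ w₁ ∧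
    MinExt F' (colr ρ x) A)).image supp := ⟨_, rfl⟩
  have h3 := second_card (C := C) (w₁ := w₁) (h := h) (B := B) (Q := Q) hC hB1 hQ hrN hμ
    (by
      refine le_trans ?_ hκ
      exact Nat.mul_le_mul_left _ (Nat.pow_le_pow_right (by norm_num) hhk))
    (Nd reach R X a t₁ t₂) (blk w₁ F) ρ x hx hfree Hyp Cov
    (by
      intro b hb1 hb2
      have h1 : Cov.filter (fun A => A.card = b) ⊆
          (univ.filter (fun A : PC N => MinExt F' (colr ρ x) A ∧ size A = b)).image supp := by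
        intro A' hA'
        obtain ⟨h4, h5⟩ := mem_filter.1 hA'
        rw [hCov] at h4
        obtain ⟨A, hA, rfl⟩ := mem_image.1 h4
        obtain ⟨-, -, -, hmin⟩ := mem_filter.1 hA
        exact mem_image.2 ⟨A, mem_filter.2 ⟨mem_univ _, hmin, h5⟩, rfl⟩
      refine (card_le_card h1).trans (card_image_le.trans ?_)
      have h4 := ext_card hcl hL hθ0 (le_refl (4 * w * L)) hDF' hb1 (by omega)
      have h5 : 2 * (4 * w * L) = B := by rw [hB]; ring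
      rwa [h5] at h4)
    (by
      intro A' hA' j v hj hv
      rw [hCov] at hA'
      obtain ⟨A, hA, rfl⟩ := mem_image.1 hA'
      obtain ⟨-, -, -, hmin⟩ := mem_filter.1 hA
      rcases hmin.1 v with h4 | h4
      · exact colr_ne_none hj x h4
      · exact (mem_filter.1 hv).2 h4)
    (E₀ := E₀) (by rw [hE₀, ← hE]; exact filter_subset _ _)
    (by
      intro P hP
      rw [hE₀] at hP
      obtain ⟨hPE, q, hq1, hq2, V, hV, hVw, hVP⟩ := mem_filter.1 hP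
      rw [hE] at hPE
      obtain ⟨-, hOm, -⟩ := mem_filter.1 hPE
      have hDq : Sub (colr ρ x) (UP P q) := by
        rw [hcolr q hq1 hq2]
        exact colr_sub hOm q
      have hj : join (colr ρ x) V ∈ F' := by
        refine hcl.up hV (sub_join_right hDq hVP) ?_
        have := size_join_le (colr ρ x) V
        omega
      obtain ⟨A, hA1, hA2, hA3⟩ := exists_minExt hDF' hj
      refine ⟨supp A, ?_, hA3, (size_mono hA2).trans hVw, ?_⟩
      · rw [hCov]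
        exact mem_image.2 ⟨A, mem_filter.2 ⟨mem_univ _, hA3, (size_mono hA2).trans hVw, hA1⟩, rfl⟩
      · intro v hv
        obtain ⟨b, hb⟩ := Option.ne_none_iff_exists'.1 (mem_filter.1 hv).2
        obtain ⟨j, hj, -⟩ := (sub_UP_iff P q A).1 (sub_trans hA2 hVP) v b hb
        exact ⟨j, hj⟩)
  have h1 := H1 u F' Err' hp'
  have h2 := H2 u F' Err' hp'
  have h4 : (E.card : ℝ) ≤
      ((EN (Nd reach R (X.filter (fun χ => R χ c = u)) a t₁ c) (blk w₁ F') ρ x h).card : ℝ) +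
      (((EN (Nd reach R (X.filter (fun χ => R χ c = u)) u c t₂) (blk w₁ F') ρ x h).card : ℝ) +
        (E₀.card : ℝ)) := by
    have h5 := (card_le_card hsub).trans ((card_union_le _ _).trans
      (Nat.add_le_add_left (card_union_le _ _) _))
    exact_mod_cast h5
  have h6 : (2 * C' + 2 / Q * C) * (2 ^ asz ρ * Fk κ h * ((Om ρ).card : ℝ)) ≤
      C * (2 ^ asz ρ * Fk κ h * ((Om ρ).card : ℝ)) := mul_le_mul_of_nonneg_right hCC hG0
  nlinarith

/-- **The recursion.** -/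
theorem claim {W : Type} [Fintype W] {w w₁ k B Q L T : ℕ} (θ : ℕ → ℕ)
    (hw : 2 * w₁ ≤ w) (hw3 : 3 ≤ w₁) (hL : 1 ≤ L) (hB : B = 8 * w * L) (hQ : 6 ≤ Q)
    (hθ0 : ∀ j, 2 ^ N ≤ θ j * 2 ^ L)
    (hθ : ∀ j, Fintype.card W * ((2 * N + 1) ^ w * θ j) ≤ θ (j + 1))
    (hrN : r < N) (hμ : 4 * B * Q * r ≤ N - r) (hκ : 4 * B * Q * 2 ^ k ≤ N - r)
    (hF1 : 1 ≤ 2 ^ w₁ * Fk (4 * B * Q / ((N - r : ℕ) : ℝ)) k)
    (Acc : Finset (Col N)) (R : Col N → ℕ → W) (reach : ℕ → W → Pth r N → Prop)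
    (hbase : ∀ t < T, ∀ a P, reach t a P → ∃ q₀, ∀ q ≤ r, q ≠ q₀ → q ≠ q₀ + 1 →
      ∃ U, Sub U (UP P q) ∧ size U ≤ 3 ∧
        ∀ χ ∈ Acc, R χ t = a → ¬ reach (t + 1) (R χ (t + 1)) P → ¬ Agree U χ) :
    ∀ j t₁ t₂, t₁ < t₂ → t₂ ≤ T → t₂ ≤ t₁ + 2 ^ j → ∀ (a : W) (X : Finset (Col N)), X ⊆ Acc →
      (∀ χ ∈ X, R χ t₁ = a) → ∀ F Err, Pair w (θ j) X F Err → ∀ (ρ : PA r N) (x h : ℕ), h ≤ k →
      x + 2 ^ h ≤ r + 1 → Free ρ x h →
      ((EN (Nd reach R X a t₁ t₂) (blk w₁ F) ρ x h).card : ℝ) ≤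
        (2 / (1 - 2 / (Q : ℝ))) ^ j * 2 ^ asz ρ * Fk (4 * B * Q / ((N - r : ℕ) : ℝ)) h *
          ((Om ρ).card : ℝ) := by
  have hB1 : 1 ≤ B := by
    rw [hB]
    have : 0 < 8 * w * L := by
      have : 0 < w := by omega
      positivity
    omega
  have hn : (0 : ℝ) < ((N - r : ℕ) : ℝ) := by exact_mod_cast (by omega : 0 < N - r)
  have hB0 : (0 : ℝ) < B := by exact_mod_cast hB1
  have hQ6 : (6 : ℝ) ≤ Q := by exact_mod_cast hQ
  have hQ0 : (0 : ℝ) < Q := by linarith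
  have hQ1 : (2 : ℝ) / Q ≤ 1 / 3 := by
    rw [div_le_div_iff₀ hQ0 (by norm_num)]
    linarith
  have hQ2 : (0 : ℝ) < 2 / Q := by positivity
  obtain ⟨β, hβ⟩ : ∃ β : ℝ, β = 2 / (1 - 2 / (Q : ℝ)) := ⟨_, rfl⟩
  rw [← hβ]
  have hβ1 : 1 ≤ β := by
    rw [hβ, le_div_iff₀ (by linarith)]
    linarith
  have hβ2 : β * (1 - 2 / Q) = 2 := by
    rw [hβ, div_mul_cancel₀]
    linarith
  obtain ⟨κ, hκdef⟩ : ∃ κ : ℝ, κ = 4 * B * Q / ((N - r : ℕ) : ℝ) := ⟨_, rfl⟩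
  rw [← hκdef] at hF1 ⊢
  have hκ0 : 0 < κ := by rw [hκdef]; positivity
  have hκk : κ * 2 ^ k ≤ 1 := by
    have hκ' : (4 : ℝ) * B * Q * 2 ^ k ≤ ((N - r : ℕ) : ℝ) := by exact_mod_cast hκ
    calc κ * 2 ^ k = 4 * B * Q * 2 ^ k / ((N - r : ℕ) : ℝ) := by rw [hκdef]; ring
      _ ≤ 1 := by rw [div_le_one hn]; exact hκ'
  -- the windows of length one
  have hleaf : ∀ j t₁ t₂, t₂ = t₁ + 1 → t₂ ≤ T → ∀ (a : W) (X : Finset (Col N)), X ⊆ Acc →
      (∀ χ ∈ X, R χ t₁ = a) → ∀ F Err, Pair w (θ j) X F Err → ∀ (ρ : PA r N) (x h : ℕ), h ≤ k →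
      x + 2 ^ h ≤ r + 1 →
      ((EN (Nd reach R X a t₁ t₂) (blk w₁ F) ρ x h).card : ℝ) ≤
        β ^ j * 2 ^ asz ρ * Fk κ h * ((Om ρ).card : ℝ) := by
    intro j t₁ t₂ ht hT a X hX ha F Err hp ρ x h hh hx
    subst ht
    have h1 := leaf hκ0 (h := h) (by omega) hw3 hp (Nd reach R X a t₁ (t₁ + 1)) (by
      intro P hP
      obtain ⟨-, hP1, hP2⟩ := mem_filter.1 hP
      obtain ⟨q₀, hq₀⟩ := hbase t₁ (by omega) a P hP1
      refine ⟨q₀, fun q h1 h2 h3 => ?_⟩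
      obtain ⟨U, hU1, hU2, hU3⟩ := hq₀ q h1 h2 h3
      exact ⟨U, hU1, hU2, fun χ hχ => hU3 χ (hX hχ) (ha χ hχ) (hP2 χ hχ)⟩) ρ x hx
    refine h1.trans ?_
    have h2 := Fk_pos hκ0 h
    have h3 : (1 : ℝ) ≤ β ^ j * 2 ^ asz ρ := by
      have e1 : (1 : ℝ) ≤ β ^ j := one_le_pow₀ hβ1
      have e2 : (1 : ℝ) ≤ 2 ^ asz ρ := one_le_pow₀ (by norm_num)
      nlinarith
    have h4 : 0 ≤ Fk κ h * ((Om ρ).card : ℝ) := by positivity
    nlinarith
  intro j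
  induction j with
  | zero =>
    intro t₁ t₂ h1 h2 h3 a X hX ha F Err hp ρ x h hh hx _
    rw [pow_zero] at h3
    exact hleaf 0 t₁ t₂ (by omega) h2 a X hX ha F Err hp ρ x h hh hx
  | succ j ih =>
    intro t₁ t₂ h1 h2 h3 a X hX ha F Err hp
    by_cases ht : t₂ = t₁ + 1
    · intro ρ x h hh hx _
      exact hleaf (j + 1) t₁ t₂ ht h2 a X hX ha F Err hp ρ x h hh hx
    obtain ⟨c, hc1, hc2, hc3, hc4⟩ : ∃ c, t₁ < c ∧ c < t₂ ∧ c ≤ t₁ + 2 ^ j ∧ t₂ ≤ c + 2 ^ j := by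
      refine ⟨t₁ + (t₂ - t₁) / 2, by omega, by omega, ?_, ?_⟩
      · have : 2 ^ (j + 1) = 2 * 2 ^ j := by ring
        omega
      · have : 2 ^ (j + 1) = 2 * 2 ^ j := by ring
        omega
    have main : ∀ m (ρ : PA r N), w₁ ≤ asz ρ + m → ∀ x h, h ≤ k → x + 2 ^ h ≤ r + 1 →
        Free ρ x h →
        ((EN (Nd reach R X a t₁ t₂) (blk w₁ F) ρ x h).card : ℝ) ≤
          β ^ (j + 1) * 2 ^ asz ρ * Fk κ h * ((Om ρ).card : ℝ) := by
      intro m
      induction m with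
      | zero =>
        intro ρ hρ x h hh hx _
        have e1 : ((EN (Nd reach R X a t₁ t₂) (blk w₁ F) ρ x h).card : ℝ) ≤
            ((Om ρ).card : ℝ) := by
          exact_mod_cast card_le_card (EN_sub_Om _ _ _ _ _)
        refine e1.trans ?_
        have e2 : (1 : ℝ) ≤ 2 ^ asz ρ * Fk κ h := by
          refine hF1.trans ?_
          have e3 := Fk_anti hκ0 hκk hh
          have e4 := Fk_pos hκ0 k
          have e5 : (2 : ℝ) ^ w₁ ≤ 2 ^ asz ρ := pow_le_pow_right₀ (by norm_num) (by omega)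
          exact mul_le_mul e5 e3 e4.le (by positivity)
        have e6 : (1 : ℝ) ≤ β ^ (j + 1) := one_le_pow₀ hβ1
        have e7 : (1 : ℝ) ≤ β ^ (j + 1) * (2 ^ asz ρ * Fk κ h) := by nlinarith
        have e8 : (0 : ℝ) ≤ ((Om ρ).card : ℝ) := Nat.cast_nonneg _
        nlinarith
      | succ m ihm =>
        intro ρ hρ x h hh hx hfree
        by_cases hm : w₁ ≤ asz ρ + m
        · exact ihm ρ hm x h hh hx hfree
        have hstep := step (W := W) (w := w) (w₁ := w₁) (k := k) (h := h) (B := B) (Q := Q)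
          (L := L) (θ := θ (j + 1)) (θ' := θ j) (C := β ^ (j + 1)) (C' := β ^ j)
          (by positivity)
          (by
            have e1 : 0 < β ^ j := by positivity
            rw [pow_succ]
            nlinarith) hw hL hB1 hB hQ (hθ0 j) (hθ j) hrN hμ hκ hh R reach
          (t₁ := t₁) (c := c) (t₂ := t₂) (a := a) hp ρ (by omega) x hx hfree
        rw [← hκdef] at hstep
        refine hstep ?_ ?_ ?_
        · intro u F' Err' hp'
          exact ih t₁ c hc1 (by omega) hc3 a _ ((filter_subset _ _).trans hX)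
            (fun χ hχ => ha χ (mem_filter.1 hχ).1) F' Err' hp' ρ x h hh hx hfree
        · intro u F' Err' hp'
          exact ih c t₂ hc2 h2 hc4 u _ ((filter_subset _ _).trans hX)
            (fun χ hχ => (mem_filter.1 hχ).2) F' Err' hp' ρ x h hh hx hfree
        · intro h' hh' ρ' x' hρ' hx' hfree'
          exact ihm ρ' (by omega) x' h' (by omega) hx' hfree'
    intro ρ x h hh hx hfree
    exact main w₁ ρ (by omega) x h hh hx hfree

end MTU
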