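import Pool.Agent.Lib.MTU.Root
import Pool.Agent.Lib.MTU.Model
import Pool.Agent.Lib.MTX.EmbedP
import Pool.Agent.Lib.MTC.EmbedA

/-!
# MTU.Embed (MP_e46137_lc): random paths and random cuts in `Fin n`
-/

namespace MTU

open Classical Finset MTX

namespace EmbedAux

variable {n r : ℕ}

theorem path_eq (y : Fin (n - 2) → Fin n) (s t : Fin n) (P : Pth r (n - 2)) :
    SharpTS.pathGraph s t (fun j => y (P j)) = pathG y s t P := by
  have h : ∀ i, SharpTS.pathVertex s t (fun j => y (P j)) i = vx y s t P i := by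
    intro i
    cases i with
    | zero => rfl
    | succ i => rfl
  funext a b
  unfold SharpTS.pathGraph pathG
  simp only [h]

/-- the side of `s` -/
noncomputable def cutOf (y : Fin (n - 2) → Fin n) (s : Fin n) (χ : Col (n - 2)) :
    Finset (Fin n) := univ.filter (fun v => side y s χ v = true)

theorem mem_cutOf (y : Fin (n - 2) → Fin n) (s : Fin n) (χ : Col (n - 2)) (v : Fin n) :
    v ∈ cutOf y s χ ↔ side y s χ v = true := by
  unfold cutOf
  rw [mem_filter]
  exact ⟨fun h => h.2, fun h => ⟨mem_univ _, h⟩⟩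

theorem cut_eq (y : Fin (n - 2) → Fin n) (s : Fin n) (χ : Col (n - 2)) :
    SharpTS.cutGraph (cutOf y s χ) = cutG y s χ := by
  funext a b
  unfold SharpTS.cutGraph cutG
  rw [decide_eq_decide, mem_cutOf, mem_cutOf, ← Bool.eq_iff_iff]

theorem card_paths {y : Fin (n - 2) → Fin n} (hy : Function.Injective y) {s t : Fin n}
    (hs : ∀ x, y x ≠ s) (ht : ∀ x, y x ≠ t) (hsur : ∀ v, v ≠ s → v ≠ t → ∃ x, y x = v)
    (p : (Fin r → Fin n) → Prop) :
    ((SharpTS.seqs n r s t).filter p).card =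
      (univ.filter (fun P : Pth r (n - 2) => p (fun j => y (P j)))).card := by
  symm
  refine Finset.card_bij (fun P _ => fun j => y (P j)) ?_ ?_ ?_
  · intro P hP
    rw [mem_filter] at hP ⊢
    unfold SharpTS.seqs
    rw [mem_filter]
    exact ⟨⟨mem_univ _, fun i j h => P.injective (hy h), fun i => ⟨hs _, ht _⟩⟩, hP.2⟩
  · intro P _ P' _ h
    exact DFunLike.ext _ _ fun j => hy (congrFun h j)
  · intro Q hQ
    rw [mem_filter] at hQ
    unfold SharpTS.seqs at hQ
    rw [mem_filter] at hQ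
    obtain ⟨⟨-, hinj, hav⟩, hp⟩ := hQ
    choose x hx using fun j => hsur (Q j) (hav j).1 (hav j).2
    have e : (fun j => y (x j)) = Q := funext hx
    have hxi : Function.Injective x := by
      intro i j h
      apply hinj
      rw [← hx i, ← hx j, h]
    refine ⟨⟨x, hxi⟩, ?_, e⟩
    rw [mem_filter]
    refine ⟨mem_univ _, ?_⟩
    show p (fun j => y (x j))
    rw [e]
    exact hp

theorem card_cuts {y : Fin (n - 2) → Fin n} (hy : Function.Injective y) {s t : Fin n}
    (hst : s ≠ t) (hs : ∀ x, y x ≠ s) (ht : ∀ x, y x ≠ t)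
    (hsur : ∀ v, v ≠ s → v ≠ t → ∃ x, y x = v) (p : Finset (Fin n) → Prop) :
    ((SharpTS.cuts n s t).filter p).card =
      (univ.filter (fun χ : Col (n - 2) => p (cutOf y s χ))).card := by
  symm
  have hcs : ∀ χ : Col (n - 2), side y s χ s = true := fun χ => by
    unfold side
    exact decide_eq_true (Or.inl rfl)
  have hct : ∀ χ : Col (n - 2), side y s χ t = false := fun χ => by
    unfold side
    refine decide_eq_false ?_
    rintro (h | ⟨u, hu, -⟩)
    · exact hst h.symm
    · exact ht u hu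
  refine Finset.card_bij (fun χ _ => cutOf y s χ) ?_ ?_ ?_
  · intro χ hχ
    rw [mem_filter] at hχ ⊢
    unfold SharpTS.cuts
    rw [mem_filter, mem_cutOf, mem_cutOf, hcs, hct]
    exact ⟨⟨mem_univ _, rfl, Bool.false_ne_true⟩, hχ.2⟩
  · intro χ _ χ' _ h
    funext x
    have h1 : y x ∈ cutOf y s χ ↔ y x ∈ cutOf y s χ' := by rw [h]
    rw [mem_cutOf, mem_cutOf, EmbedAux.side_y hy hs, EmbedAux.side_y hy hs] at h1
    rw [Bool.eq_iff_iff]
    exact h1
  · intro C hC
    rw [mem_filter] at hC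
    unfold SharpTS.cuts at hC
    rw [mem_filter] at hC
    obtain ⟨⟨-, hsC, htC⟩, hp⟩ := hC
    have e : cutOf y s (fun x => decide (y x ∈ C)) = C := by
      ext v
      rw [mem_cutOf]
      by_cases h1 : v = s
      · subst h1
        exact ⟨fun _ => hsC, fun _ => hcs _⟩
      · by_cases h2 : v = t
        · subst h2
          rw [hct]
          exact ⟨fun h => absurd h Bool.false_ne_true, fun h => absurd h htC⟩
        · obtain ⟨x, rfl⟩ := hsur v h1 h2
          rw [EmbedAux.side_y hy hs]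
          simp
    refine ⟨fun x => decide (y x ∈ C), ?_, e⟩
    rw [mem_filter]
    exact ⟨mem_univ _, by rw [e]; exact hp⟩

/-- the colours of the vertices number `i - 1, i, i + 1` in `UP P q` -/
noncomputable def three {N : ℕ} (P : Pth r N) (q i : ℕ) : PC N := fun v =>
  if ∃ j : Fin r, P j = v ∧ ((j : ℕ) = i ∨ (j : ℕ) + 1 = i ∨ (j : ℕ) + 2 = i) then UP P q v
  else none

theorem three_sub {N : ℕ} (P : Pth r N) (q i : ℕ) : Sub (three P q i) (UP P q) := by
  intro v x h
  unfold three at h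
  split_ifs at h with h1
  exact h

theorem three_size {N : ℕ} (P : Pth r N) (q i : ℕ) : size (three P q i) ≤ 3 := by
  have h1 : (univ.filter fun v => three P q i v ≠ none) ⊆
      (univ.filter fun j : Fin r => (j : ℕ) = i ∨ (j : ℕ) + 1 = i ∨ (j : ℕ) + 2 = i).image P := by
    intro v hv
    have h2 := (mem_filter.1 hv).2
    unfold three at h2
    split_ifs at h2 with h3
    · obtain ⟨j, h4, h5⟩ := h3
      exact mem_image.2 ⟨j, mem_filter.2 ⟨mem_univ _, h5⟩, h4⟩
    · exact absurd rfl h2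
  have h2 : (univ.filter fun j : Fin r =>
      (j : ℕ) = i ∨ (j : ℕ) + 1 = i ∨ (j : ℕ) + 2 = i).card ≤ 3 := by
    have h3 : ((univ.filter fun j : Fin r =>
        (j : ℕ) = i ∨ (j : ℕ) + 1 = i ∨ (j : ℕ) + 2 = i).image Fin.val) ⊆
        {i, i - 1, i - 2} := by
      intro x hx
      obtain ⟨j, hj, rfl⟩ := mem_image.1 hx
      have h4 := (mem_filter.1 hj).2
      rw [mem_insert, mem_insert, mem_singleton]
      omega
    have h5 := card_le_card h3
    rw [card_image_of_injective _ Fin.val_injective] at h5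
    exact h5.trans card_le_three
  exact ((card_le_card h1).trans card_image_le).trans h2

theorem agree_two {N : ℕ} {P : Pth r N} {q i q' : ℕ} (h : q' = i ∨ q' + 1 = i) {χ : Col N}
    (hχ : Agree (three P q i) χ) : Agree (EmbedAux.two P q q') χ := by
  intro v c hv
  refine hχ v c ?_
  unfold EmbedAux.two at hv
  unfold three
  split_ifs at hv with h1
  obtain ⟨j, hj, hj2⟩ := h1
  rw [if_pos ⟨j, hj, by omega⟩]
  exact hv

/-- the arcs of `K` in both directions -/
noncomputable def bg (K : Finset (Fin n × Fin n)) (a b : Fin n) : Bool :=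
  decide ((a, b) ∈ K ∨ (b, a) ∈ K)

/-- the path together with the arcs of `K` -/
noncomputable def uniG {N : ℕ} (K : Finset (Fin n × Fin n)) (y : Fin N → Fin n) (s t : Fin n)
    (P : Pth r N) (a b : Fin n) : Bool := pathG y s t P a b || bg K a b

theorem bg_symm (K : Finset (Fin n × Fin n)) (a b : Fin n) : bg K a b = bg K b a := by
  unfold bg
  rw [decide_eq_decide]
  exact or_comm

theorem uniG_symm {N : ℕ} (K : Finset (Fin n × Fin n)) (y : Fin N → Fin n) (s t : Fin n)
    (P : Pth r N) (a b : Fin n) : uniG K y s t P a b = uniG K y s t P b a := by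
  unfold uniG
  rw [pathG_symm y s t P a b, bg_symm K a b]

theorem uniG_empty {N : ℕ} (y : Fin N → Fin n) (s t : Fin n) (P : Pth r N) :
    uniG ∅ y s t P = pathG y s t P := by
  funext a b
  unfold uniG bg
  simp

/-- the state `a` is reached at time `τ` by a computation on the path and `K` which relies only on
the presence of `K` -/
def Rch {W : Type} {N : ℕ} (M : Unreach.Mach n W) (K : Finset (Fin n × Fin n))
    (y : Fin N → Fin n) (s t : Fin n) (τ : ℕ) (a : W) (P : Pth r N) : Prop :=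
  ∃ R : ℕ → W, R τ = a ∧ ∀ G : Fin n → Fin n → Bool, (∀ e ∈ K, G e.1 e.2 = true) →
    (∀ u v, G u v ≤ uniG K y s t P u v) → M.Comp τ G R

theorem rch_zero {W : Type} {N : ℕ} (M : Unreach.Mach n W) (K : Finset (Fin n × Fin n))
    (y : Fin N → Fin n) (s t : Fin n) (P : Pth r N) : Rch M K y s t 0 M.start P :=
  ⟨fun _ => M.start, rfl, fun _ _ _ => ⟨rfl, fun τ hτ => absurd hτ (Nat.not_lt_zero τ)⟩⟩

/-- One step of the machine: if a step which is possible on the graph of the colouring is not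
possible on the path, then an edge of the path at the read vertex is not monochromatic. -/
theorem base {W : Type} {N : ℕ} (M : Unreach.Mach n W) (K : Finset (Fin n × Fin n))
    {y : Fin N → Fin n} (hy : Function.Injective y) {s t : Fin n} (hst : s ≠ t)
    (hs : ∀ x, y x ≠ s) (ht : ∀ x, y x ≠ t) (X : Finset (Col N)) (R : Col N → ℕ → W) {T : ℕ}
    (hK : ∀ χ ∈ X, ∀ e ∈ K, cutG y s χ e.1 e.2 = true)
    (hR : ∀ χ ∈ X, ∀ G : Fin n → Fin n → Bool, (∀ e ∈ K, G e.1 e.2 = true) →
      (∀ u v, G u v ≤ cutG y s χ u v) → M.Comp T G (R χ)) :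
    ∀ τ < T, ∀ a (P : Pth r N), Rch M K y s t τ a P →
      ∃ q₀, ∀ q ≤ r, q ≠ q₀ → q ≠ q₀ + 1 → ∃ U, Sub U (UP P q) ∧ size U ≤ 3 ∧
        ∀ χ ∈ X, R χ τ = a → ¬ Rch M K y s t (τ + 1) (R χ (τ + 1)) P → ¬ Agree U χ := by
  intro τ hτ a P hreach
  -- it is enough that the edges of the path at the read vertex are monochromatic
  have main : ∀ χ ∈ X, R χ τ = a → (∀ u, pathG y s t P (M.v τ a) u = true →
      cutG y s χ (M.v τ a) u = true) → Rch M K y s t (τ + 1) (R χ (τ + 1)) P := by
    intro χ hχ hRa hmono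
    obtain ⟨R', hR'a, hR'⟩ := hreach
    refine ⟨fun i => if i ≤ τ then R' i else R χ (τ + 1), if_neg (by omega), ?_⟩
    intro G hKG hG
    obtain ⟨h0, h1⟩ := hR' G hKG hG
    refine ⟨?_, fun i hi => ?_⟩
    · show (if 0 ≤ τ then R' 0 else R χ (τ + 1)) = M.start
      rw [if_pos (Nat.zero_le τ)]
      exact h0
    · show M.step i (if i ≤ τ then R' i else R χ (τ + 1))
        (if i + 1 ≤ τ then R' (i + 1) else R χ (τ + 1)) G
      rw [if_pos (by omega : i ≤ τ)]
      by_cases hiτ : i + 1 ≤ τ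
      · rw [if_pos hiτ]
        exact h1 i (by omega)
      · have h2 : i = τ := by omega
        subst h2
        rw [if_neg hiτ, hR'a]
        -- the common part of `G` and the graph of the colouring
        obtain ⟨-, h3⟩ := hR χ hχ (fun u v => G u v && cutG y s χ u v)
          (fun e he => by
            show (G e.1 e.2 && cutG y s χ e.1 e.2) = true
            rw [hKG e he, hK χ hχ e he]
            rfl)
          (fun u v => by
            show (G u v && cutG y s χ u v) ≤ cutG y s χ u v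
            cases G u v <;> cases cutG y s χ u v <;> decide)
        have h4 := h3 i hτ
        rw [hRa] at h4
        have key : ∀ u, G (M.v i a) u = true → cutG y s χ (M.v i a) u = true := by
          intro u hu
          have h5 := hG (M.v i a) u
          rw [hu] at h5
          have h6 : uniG K y s t P (M.v i a) u = true := le_antisymm (Bool.le_true _) h5
          unfold uniG at h6
          rw [Bool.or_eq_true] at h6
          rcases h6 with h6 | h6
          · exact hmono u h6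
          · unfold bg at h6
            rcases of_decide_eq_true h6 with h7 | h7
            · exact hK χ hχ _ h7
            · rw [cutG_symm]
              exact hK χ hχ _ h7
        have key2 : ∀ u, G u (M.v i a) = true → cutG y s χ u (M.v i a) = true := by
          intro u hu
          have h5 := hG u (M.v i a)
          rw [hu] at h5
          have h6 : uniG K y s t P u (M.v i a) = true := le_antisymm (Bool.le_true _) h5
          rw [cutG_symm]
          rw [uniG_symm] at h6
          unfold uniG at h6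
          rw [Bool.or_eq_true] at h6
          rcases h6 with h6 | h6
          · exact hmono u h6
          · unfold bg at h6
            rcases of_decide_eq_true h6 with h7 | h7
            · exact hK χ hχ _ h7
            · rw [cutG_symm]
              exact hK χ hχ _ h7
        refine M.loc i a _ _ G ?_ h4
        intro u
        constructor
        · show (G (M.v i a) u && cutG y s χ (M.v i a) u) = G (M.v i a) u
          rcases hb : G (M.v i a) u with _ | _
          · rfl
          · rw [key u hb]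
            rfl
        · show (G u (M.v i a) && cutG y s χ u (M.v i a)) = G u (M.v i a)
          rcases hb : G u (M.v i a) with _ | _
          · rfl
          · rw [key2 u hb]
            rfl
  by_cases hv : ∃ i ≤ r + 1, vx y s t P i = M.v τ a
  · obtain ⟨i, hi, hvi⟩ := hv
    refine ⟨i - 1, fun q hq h1 h2 => ⟨three P q i, three_sub P q i, three_size P q i, ?_⟩⟩
    intro χ hχ hRa hno hag
    refine hno (main χ hχ hRa fun u hu => ?_)
    unfold pathG at hu
    obtain ⟨q', hq', hc⟩ := of_decide_eq_true hu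
    unfold cutG
    apply decide_eq_true
    have hii : q' = i ∨ q' + 1 = i := by
      rcases hc with ⟨h3, -⟩ | ⟨-, h3⟩
      · left
        exact EmbedAux.vx_inj hy hst hs ht (by omega) hi (h3.symm.trans hvi.symm)
      · right
        exact EmbedAux.vx_inj hy hst hs ht (by omega) hi (h3.symm.trans hvi.symm)
    have h4 := agree_two hii hag
    have h5 := EmbedAux.side_vx hy hst hs ht (i := q') (q := q) (q' := q') (by omega) hq
      (Or.inl rfl) h4
    have h6 := EmbedAux.side_vx hy hst hs ht (i := q' + 1) (q := q) (q' := q') (by omega) hq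
      (Or.inr rfl) h4
    have h7 : decide (q' ≤ q) = decide (q' + 1 ≤ q) := by
      rw [decide_eq_decide]
      omega
    rcases hc with ⟨h3, h8⟩ | ⟨h3, h8⟩
    · rw [h3, h8, h5, h6, h7]
    · rw [h3, h8, h5, h6, h7]
  · refine ⟨0, fun q hq h1 h2 => ⟨emp N, fun v c hc => absurd hc (by simp [emp]),
      by rw [size_emp]; omega, ?_⟩⟩
    intro χ hχ hRa hno _
    refine hno (main χ hχ hRa fun u hu => ?_)
    exfalso
    unfold pathG at hu
    obtain ⟨q', hq', ⟨h3, -⟩ | ⟨-, h3⟩⟩ := of_decide_eq_true hu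
    · exact hv ⟨q', by omega, h3.symm⟩
    · exact hv ⟨q' + 1, by omega, h3.symm⟩

end EmbedAux

open EmbedAux

/-- **The advantage of a nondeterministic machine which relies only on the absence of edges.** -/
theorem explicitU {n : ℕ} {W : Type} [Fintype W] {w w₁ k Q L T J r : ℕ} (M : Unreach.Mach n W)
    {s t : Fin n} (hst : s ≠ t) (θ : ℕ → ℕ) (hr : 1 ≤ r)
    (hw : 2 * w₁ ≤ w) (hw3 : 3 ≤ w₁) (hL : 1 ≤ L) (hQ : 8 ≤ Q)
    (hθ0 : ∀ j, 2 ^ (n - 2) ≤ θ j * 2 ^ L)
    (hθ : ∀ j, Fintype.card W * ((2 * (n - 2) + 1) ^ w * θ j) ≤ θ (j + 1))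
    (hrN : r < n - 2) (hμ : 4 * (8 * w * L) * Q * r ≤ n - 2 - r)
    (hκ : 4 * (8 * w * L) * Q * 2 ^ k ≤ n - 2 - r)
    (hF1 : 1 ≤ 2 ^ w₁ * Fk (4 * ((8 * w * L : ℕ) : ℝ) * Q / ((n - 2 - r : ℕ) : ℝ)) k)
    (hT : 1 ≤ T) (hTJ : T ≤ 2 ^ J) (hk : 2 ^ k ≤ r + 1) :
    Unreach.accCut M T 0 s t - Unreach.accPath M T (r + 1) s t ≤
      (2 / (1 - 2 / (Q : ℝ))) ^ J *
        Fk (4 * ((8 * w * L : ℕ) : ℝ) * Q / ((n - 2 - r : ℕ) : ℝ)) k +
      ((2 * (n - 2) + 1) ^ w * θ J : ℕ) / 2 ^ (n - 2) := by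
  obtain ⟨y, hy, hs, ht, hsur⟩ := MTC.EmbedAAux.exists_y hst
  obtain ⟨Acc, hAcc⟩ : ∃ Acc, Acc = univ.filter
    (fun χ : Col (n - 2) => M.AcceptsUsing T 0 (cutG y s χ)) := ⟨_, rfl⟩
  have hrun : ∀ χ : Col (n - 2), ∃ R : ℕ → W, χ ∈ Acc → M.acc (R T) ∧
      ∀ G : Fin n → Fin n → Bool, (∀ u v, G u v ≤ cutG y s χ u v) → M.Comp T G R := by
    intro χ
    by_cases h : χ ∈ Acc
    · have h1 := h
      rw [hAcc] at h1
      obtain ⟨-, R, K, hK, -, hacc, hR⟩ := mem_filter.1 h1
      have hK0 : K = ∅ := card_eq_zero.1 (Nat.le_zero.1 hK)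
      subst hK0
      exact ⟨R, fun _ => ⟨hacc, fun G hG => hR G (fun e he => absurd he (notMem_empty _)) hG⟩⟩
    · exact ⟨fun _ => M.start, fun h1 => absurd h1 h⟩
  choose R hR using hrun
  have hroot := root (r := r) (N := n - 2) (W := W) (k := k) (T := T) (J := J) θ hr hw hw3 hL hQ
    hθ0 hθ hrN hμ hκ hF1 Acc R (Rch M ∅ y s t)
    (base M ∅ hy hst hs ht Acc R (fun χ _ e he => absurd he (notMem_empty _))
      (fun χ hχ G _ hG => (hR χ hχ).2 G hG)) hT hTJ hk M.start
    (fun χ hχ => ((hR χ hχ).2 _ (fun _ _ => le_rfl)).1) (rch_zero M ∅ y s t)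
  -- the four numbers
  have e1 : ((SharpTS.seqs n (r + 1 - 1) s t).filter
      (fun P => M.AcceptsUsing T 0 (SharpTS.pathGraph s t P))).card =
      (univ.filter (fun P : Pth r (n - 2) => M.AcceptsUsing T 0 (pathG y s t P))).card := by
    rw [Nat.add_sub_cancel, card_paths hy hs ht hsur]
    refine congrArg card (Finset.ext fun P => ?_)
    simp only [mem_filter, path_eq]
  have e2 : (SharpTS.seqs n (r + 1 - 1) s t).card = Fintype.card (Pth r (n - 2)) := by
    rw [Nat.add_sub_cancel]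
    have h := card_paths (r := r) hy hs ht hsur (fun _ => True)
    simp only [filter_true, card_univ] at h
    exact h
  have e3 : ((SharpTS.cuts n s t).filter
      (fun C => M.AcceptsUsing T 0 (SharpTS.cutGraph C))).card = Acc.card := by
    rw [card_cuts hy hst hs ht hsur, hAcc]
    refine congrArg card (Finset.ext fun χ => ?_)
    simp only [mem_filter, cut_eq]
  have e4 : (SharpTS.cuts n s t).card = 2 ^ (n - 2) := by
    have h := card_cuts hy hst hs ht hsur (fun _ => True)
    simp only [filter_true, card_univ] at h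
    rw [h]
    simp
  have hpos : (0 : ℝ) < (Fintype.card (Pth r (n - 2)) : ℝ) := by
    have h1 : Fintype.card (Fin r) ≤ Fintype.card (Fin (n - 2)) := by
      rw [Fintype.card_fin, Fintype.card_fin]
      omega
    obtain ⟨f⟩ := Function.Embedding.nonempty_of_card_le h1
    exact_mod_cast Fintype.card_pos_iff.2 ⟨f⟩
  -- rejected paths
  have h5 : Fintype.card (Pth r (n - 2)) ≤
      (univ.filter (fun P : Pth r (n - 2) => M.AcceptsUsing T 0 (pathG y s t P))).card +
      (univ.filter (fun P : Pth r (n - 2) =>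
        ∀ χ ∈ Acc, ¬ Rch M ∅ y s t T (R χ T) P)).card := by
    rw [← card_univ]
    refine le_trans (card_le_card ?_) (card_union_le _ _)
    intro P _
    rw [mem_union, mem_filter, mem_filter]
    by_cases h6 : M.AcceptsUsing T 0 (pathG y s t P)
    · exact Or.inl ⟨mem_univ _, h6⟩
    · refine Or.inr ⟨mem_univ _, ?_⟩
      rintro χ hχ ⟨R', hR'T, hR'⟩
      refine h6 ⟨R', ∅, le_rfl, fun e he => absurd he (notMem_empty _), ?_, ?_⟩
      · rw [hR'T]
        exact (hR χ hχ).1
      · intro G _ hG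
        refine hR' G (fun e he => absurd he (notMem_empty _)) ?_
        rw [uniG_empty]
        exact hG
  unfold Unreach.accCut Unreach.accPath
  have e1' : (((SharpTS.seqs n (r + 1 - 1) s t).filter
      (fun P => M.AcceptsUsing T 0 (SharpTS.pathGraph s t P))).card : ℝ) =
      ((univ.filter (fun P : Pth r (n - 2) => M.AcceptsUsing T 0 (pathG y s t P))).card : ℝ) := by
    exact_mod_cast e1
  have e2' : ((SharpTS.seqs n (r + 1 - 1) s t).card : ℝ) =
      (Fintype.card (Pth r (n - 2)) : ℝ) := by exact_mod_cast e2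
  have e3' : (((SharpTS.cuts n s t).filter
      (fun C => M.AcceptsUsing T 0 (SharpTS.cutGraph C))).card : ℝ) =
      (Acc.card : ℝ) := by exact_mod_cast e3
  have e4' : ((SharpTS.cuts n s t).card : ℝ) = 2 ^ (n - 2) := by exact_mod_cast e4
  rw [e1', e2', e3', e4']
  have h6 : (Fintype.card (Pth r (n - 2)) : ℝ) ≤
      ((univ.filter (fun P : Pth r (n - 2) => M.AcceptsUsing T 0 (pathG y s t P))).card : ℝ) +
      ((univ.filter (fun P : Pth r (n - 2) =>
        ∀ χ ∈ Acc, ¬ Rch M ∅ y s t T (R χ T) P)).card : ℝ) := by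
    exact_mod_cast h5
  have h7 : 1 - ((univ.filter (fun P : Pth r (n - 2) =>
        M.AcceptsUsing T 0 (pathG y s t P))).card : ℝ) /
          (Fintype.card (Pth r (n - 2)) : ℝ) ≤
      (2 / (1 - 2 / (Q : ℝ))) ^ J *
        Fk (4 * ((8 * w * L : ℕ) : ℝ) * Q / ((n - 2 - r : ℕ) : ℝ)) k +
        (1 - (Acc.card : ℝ) / 2 ^ (n - 2) +
          ((2 * (n - 2) + 1) ^ w * θ J : ℕ) / 2 ^ (n - 2)) := by
    rw [sub_le_iff_le_add, ← sub_le_iff_le_add', le_div_iff₀ hpos]
    linarith
  linarith

namespace EmbedAux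

/-- sets of at most `k` elements -/
theorem card_small_sets {α : Type} [Fintype α] (k : ℕ) :
    ((univ : Finset (Finset α)).filter (fun K => K.card ≤ k)).card ≤
      (Fintype.card α + 1) ^ k := by
  induction k with
  | zero =>
    rw [pow_zero, card_le_one]
    intro a ha b hb
    have h1 : a = ∅ := card_eq_zero.1 (Nat.le_zero.1 (mem_filter.1 ha).2)
    have h2 : b = ∅ := card_eq_zero.1 (Nat.le_zero.1 (mem_filter.1 hb).2)
    rw [h1, h2]
  | succ k ih =>
    have hsub : ((univ : Finset (Finset α)).filter (fun K => K.card ≤ k + 1)) ⊆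
        (((univ : Finset (Option α)) ×ˢ
          ((univ : Finset (Finset α)).filter (fun K => K.card ≤ k))).image
            (fun x => match x.1 with
              | none => x.2
              | some a => insert a x.2)) := by
      intro K hK
      have h1 := (mem_filter.1 hK).2
      rw [mem_image]
      rcases K.eq_empty_or_nonempty with rfl | ⟨a, ha⟩
      · exact ⟨(none, ∅), mem_product.2 ⟨mem_univ _, mem_filter.2 ⟨mem_univ _, by simp⟩⟩, rfl⟩
      · refine ⟨(some a, K.erase a), mem_product.2 ⟨mem_univ _, mem_filter.2 ⟨mem_univ _, ?_⟩⟩, ?_⟩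
        · rw [card_erase_of_mem ha]
          omega
        · exact insert_erase ha
    refine (card_le_card hsub).trans (card_image_le.trans ?_)
    rw [card_product, card_univ, Fintype.card_option, pow_succ, mul_comm]
    exact Nat.mul_le_mul_right _ ih

end EmbedAux

/-- **Machines which may rely on the presence of `m` edges.** -/
theorem explicitK {n : ℕ} {W : Type} [Fintype W] {w w₁ k Q L T J r m : ℕ} (M : Unreach.Mach n W)
    {s t : Fin n} (hst : s ≠ t) (θ : ℕ → ℕ) (hr : 1 ≤ r)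
    (hw : 2 * w₁ ≤ w) (hw3 : 3 ≤ w₁) (hL : 1 ≤ L) (hQ : 8 ≤ Q)
    (hθ0 : ∀ j, 2 ^ (n - 2) ≤ θ j * 2 ^ L)
    (hθ : ∀ j, Fintype.card W * ((2 * (n - 2) + 1) ^ w * θ j) ≤ θ (j + 1))
    (hrN : r < n - 2) (hμ : 4 * (8 * w * L) * Q * r ≤ n - 2 - r)
    (hκ : 4 * (8 * w * L) * Q * 2 ^ k ≤ n - 2 - r)
    (hF1 : 1 ≤ 2 ^ w₁ * Fk (4 * ((8 * w * L : ℕ) : ℝ) * Q / ((n - 2 - r : ℕ) : ℝ)) k)
    (hT : 1 ≤ T) (hTJ : T ≤ 2 ^ J) (hk : 2 ^ k ≤ r + 1)
    (hno : ∀ G : Fin n → Fin n → Bool, (∀ a b, G a b = G b a) →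
      (∃ l ≤ r + 1, SharpTS.HasWalk G l s t) → ¬ M.AcceptsUsing T m G)
    (hacc : (((n * n + 1) ^ m * ((2 * (n - 2) + 1) ^ w * θ J) : ℕ) : ℝ) <
      Unreach.accCut M T m s t * 2 ^ (n - 2)) :
    (30 : ℝ) / 31 ≤ (2 / (1 - 2 / (Q : ℝ))) ^ J *
        Fk (4 * ((8 * w * L : ℕ) : ℝ) * Q / ((n - 2 - r : ℕ) : ℝ)) k := by
  obtain ⟨y, hy, hs, ht, hsur⟩ := MTC.EmbedAAux.exists_y hst
  obtain ⟨Acc, hAcc⟩ : ∃ Acc, Acc = univ.filter
    (fun χ : Col (n - 2) => M.AcceptsUsing T m (cutG y s χ)) := ⟨_, rfl⟩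
  have hrun : ∀ χ : Col (n - 2), ∃ (R : ℕ → W) (K : Finset (Fin n × Fin n)), χ ∈ Acc →
      K.card ≤ m ∧ (∀ e ∈ K, cutG y s χ e.1 e.2 = true) ∧ M.acc (R T) ∧
      ∀ G : Fin n → Fin n → Bool, (∀ e ∈ K, G e.1 e.2 = true) →
        (∀ u v, G u v ≤ cutG y s χ u v) → M.Comp T G R := by
    intro χ
    by_cases h : χ ∈ Acc
    · have h1 := h
      rw [hAcc] at h1
      obtain ⟨-, R, K, h2⟩ := mem_filter.1 h1
      exact ⟨R, K, fun _ => h2⟩
    · exact ⟨fun _ => M.start, ∅, fun h1 => absurd h1 h⟩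
  choose R K hRK using hrun
  have e3 : ((SharpTS.cuts n s t).filter
      (fun C => M.AcceptsUsing T m (SharpTS.cutGraph C))).card = Acc.card := by
    rw [card_cuts hy hst hs ht hsur, hAcc]
    refine congrArg card (Finset.ext fun χ => ?_)
    simp only [mem_filter, cut_eq]
  have e4 : (SharpTS.cuts n s t).card = 2 ^ (n - 2) := by
    have h := card_cuts hy hst hs ht hsur (fun _ => True)
    simp only [filter_true, card_univ] at h
    rw [h]
    simp
  have hAcc2 : (n * n + 1) ^ m * ((2 * (n - 2) + 1) ^ w * θ J) < Acc.card := by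
    have e3' : (((SharpTS.cuts n s t).filter
        (fun C => M.AcceptsUsing T m (SharpTS.cutGraph C))).card : ℝ) =
        (Acc.card : ℝ) := by exact_mod_cast e3
    have e4' : ((SharpTS.cuts n s t).card : ℝ) = 2 ^ (n - 2) := by exact_mod_cast e4
    unfold Unreach.accCut at hacc
    rw [e3', e4', div_mul_cancel₀ _ (by positivity)] at hacc
    exact_mod_cast hacc
  -- the most popular set
  obtain ⟨K₀, hK₀⟩ : ∃ K₀, (2 * (n - 2) + 1) ^ w * θ J < (Acc.filter (fun χ => K χ = K₀)).card := by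
    by_contra hcon
    push Not at hcon
    have h1 : Acc ⊆ ((univ : Finset (Finset (Fin n × Fin n))).filter
        (fun K => K.card ≤ m)).biUnion (fun K₀ => Acc.filter (fun χ => K χ = K₀)) := by
      intro χ hχ
      exact mem_biUnion.2 ⟨K χ, mem_filter.2 ⟨mem_univ _, (hRK χ hχ).1⟩,
        mem_filter.2 ⟨hχ, rfl⟩⟩
    have h2 := (card_le_card h1).trans card_biUnion_le
    have h3 := sum_le_card_nsmul ((univ : Finset (Finset (Fin n × Fin n))).filter
        (fun K => K.card ≤ m)) (fun K₀ => (Acc.filter (fun χ => K χ = K₀)).card) _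
        (fun K₀ _ => hcon K₀)
    have h4 := card_small_sets (α := Fin n × Fin n) m
    rw [Fintype.card_prod, Fintype.card_fin] at h4
    rw [smul_eq_mul] at h3
    have h5 := h2.trans (h3.trans (Nat.mul_le_mul_right _ h4))
    omega
  obtain ⟨X, hX⟩ : ∃ X, X = Acc.filter (fun χ => K χ = K₀) := ⟨_, rfl⟩
  rw [← hX] at hK₀
  have hXm : ∀ χ ∈ X, χ ∈ Acc ∧ K χ = K₀ := fun χ hχ => by
    rw [hX] at hχ
    exact mem_filter.1 hχ
  have hXK : ∀ χ ∈ X, K₀.card ≤ m ∧ (∀ e ∈ K₀, cutG y s χ e.1 e.2 = true) ∧ M.acc (R χ T) ∧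
      ∀ G : Fin n → Fin n → Bool, (∀ e ∈ K₀, G e.1 e.2 = true) →
        (∀ u v, G u v ≤ cutG y s χ u v) → M.Comp T G (R χ) := by
    intro χ hχ
    obtain ⟨h1, h2⟩ := hXm χ hχ
    have h3 := hRK χ h1
    rw [h2] at h3
    exact h3
  refine root2 (r := r) (N := n - 2) (W := W) (k := k) (T := T) (J := J) θ hr hw hw3 hL hQ
    hθ0 hθ hrN hμ hκ hF1 X R (Rch M K₀ y s t)
    (base M K₀ hy hst hs ht X R (fun χ hχ => (hXK χ hχ).2.1)
      (fun χ hχ => (hXK χ hχ).2.2.2)) hT hTJ hk M.start
    (fun χ hχ => ((hXK χ hχ).2.2.2 _ (hXK χ hχ).2.1 (fun _ _ => le_rfl)).1)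
    (rch_zero M K₀ y s t) ?_ hK₀
  rintro P χ hχ ⟨R', hR'T, hR'⟩
  refine hno (uniG K₀ y s t P) (uniG_symm K₀ y s t P) ⟨r + 1, le_rfl, ?_⟩
    ⟨R', K₀, (hXK χ hχ).1, ?_, ?_, fun G h1 h2 => hR' G h1 h2⟩
  · -- the walk along the path
    have h1 := pathG_walk y s t P
    have key : ∀ (l : ℕ) (v : Fin n), SharpTS.HasWalk (pathG y s t P) l s v →
        SharpTS.HasWalk (uniG K₀ y s t P) l s v := by
      intro l
      induction l with
      | zero => intro v hv; exact hv
      | succ l ih =>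
        rintro v ⟨u, hu, huv⟩
        refine ⟨u, ih u hu, ?_⟩
        unfold uniG
        rw [huv]
        rfl
    exact key _ _ h1
  · intro e he
    unfold uniG bg
    rw [decide_eq_true (Or.inl he : (e.1, e.2) ∈ K₀ ∨ (e.2, e.1) ∈ K₀), Bool.or_true]
  · rw [hR'T]
    exact (hXK χ hχ).2.2.1

end MTU
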