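import Pool.Agent.Lib.MTU.Embed

/-!
# MTU.Expl (MP_e46137_lc): choice of the parameters

`l = Nat.log 2 n + 1`, `w₁ = l ^ 2`, `w = 2 l ^ 2`, `Q = 4 (l ^ 2 + 2)`, `b = S + (l + 1) w` bits per
level, `L = (l + 1) w + l ^ 2 b + l ^ 2 + 2 + 2 l m + S + m`, `θ j = 2 ^ (n - 2 - L + j b)`.
-/

namespace MTU

open Classical Finset MTX

namespace ExplAux

theorem accPath_nonneg {n : ℕ} {W : Type} (M : Unreach.Mach n W) (T d : ℕ) (s t : Fin n) :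
    0 ≤ Unreach.accPath M T d s t := by
  unfold Unreach.accPath
  positivity

theorem accCut_le_one {n : ℕ} {W : Type} (M : Unreach.Mach n W) (T k : ℕ) (s t : Fin n) :
    Unreach.accCut M T k s t ≤ 1 := by
  unfold Unreach.accCut
  apply div_le_one_of_le₀
  · exact_mod_cast Finset.card_filter_le _ _
  · positivity

theorem beta_le {J l Q : ℕ} (hJ : J ≤ l ^ 2) (hQ : Q = 4 * (l ^ 2 + 2)) :
    (2 / (1 - 2 / (Q : ℝ))) ^ J ≤ 2 * 2 ^ J := by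
  have hQ8 : (8 : ℝ) ≤ Q := by
    have : 8 ≤ Q := by omega
    exact_mod_cast this
  have hQ0 : (0 : ℝ) < Q := by linarith
  have h1 : (2 : ℝ) / Q ≤ 1 / 4 := by
    rw [div_le_div_iff₀ hQ0 (by norm_num)]
    linarith
  have h0 : (0 : ℝ) < 2 / Q := by positivity
  have h2 := one_add_mul_le_pow (a := -(2 / (Q : ℝ))) (by linarith) J
  have h3 : (J : ℝ) * (2 / Q) ≤ 1 / 2 := by
    have h4 : (J : ℝ) ≤ l ^ 2 := by exact_mod_cast hJ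
    have h5 : (Q : ℝ) = 4 * (l ^ 2 + 2) := by
      rw [hQ]
      push_cast
      ring
    rw [mul_div_assoc', div_le_div_iff₀ hQ0 (by norm_num)]
    nlinarith
  have h4 : (1 : ℝ) / 2 ≤ (1 - 2 / (Q : ℝ)) ^ J := by
    have e : (1 + -(2 / (Q : ℝ))) = 1 - 2 / Q := by ring
    rw [e] at h2
    nlinarith
  rw [div_pow, div_le_iff₀ (by linarith)]
  have h5 : (0 : ℝ) < 2 ^ J := by positivity
  nlinarith

theorem setup {n S m k d T c : ℕ} (hk0 : 1 ≤ k) (hS : 1 ≤ S) (hT : 1 ≤ T) (hc : c ≤ 2 ^ S)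
    (hT2 : T ≤ 2 ^ (Nat.log 2 n + 1) ^ 2) (hkd : 2 ^ (k + 1) ≤ d)
    (hC : 10 ^ 6 * (Nat.log 2 n + 1) ^ 9 * (S + m) * d ≤ n) :
    ∃ (w w₁ L Q J : ℕ) (θ : ℕ → ℕ), 2 * w₁ ≤ w ∧ 3 ≤ w₁ ∧ 1 ≤ L ∧ 8 ≤ Q ∧
      (∀ j, 2 ^ (n - 2) ≤ θ j * 2 ^ L) ∧
      (∀ j, c * ((2 * (n - 2) + 1) ^ w * θ j) ≤ θ (j + 1)) ∧ d - 1 < n - 2 ∧
      4 * (8 * w * L) * Q * (d - 1) ≤ n - 2 - (d - 1) ∧
      4 * (8 * w * L) * Q * 2 ^ (k + 1) ≤ n - 2 - (d - 1) ∧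
      1 ≤ 2 ^ w₁ * Fk (4 * ((8 * w * L : ℕ) : ℝ) * Q / ((n - 2 - (d - 1) : ℕ) : ℝ)) (k + 1) ∧
      T ≤ 2 ^ J ∧
      (n * n + 1) ^ m * ((2 * (n - 2) + 1) ^ w * θ J) *
        (2 ^ (S + m) * (4 * 2 ^ (Nat.log 2 n + 1) ^ 2)) ≤ 2 ^ (n - 2) ∧
      ∀ δ : ℝ, δ ≤ (2 / (1 - 2 / (Q : ℝ))) ^ J *
          Fk (4 * ((8 * w * L : ℕ) : ℝ) * Q / ((n - 2 - (d - 1) : ℕ) : ℝ)) (k + 1) →
        0 ≤ δ → δ * (n : ℝ) ^ k ≤
          T * (10 ^ 6 * ((Nat.log 2 n + 1 : ℕ) : ℝ) ^ 9 * ((S + m : ℕ) : ℝ)) ^ k *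
            2 ^ ((k + 1) * (k + 2) / 2) := by
  obtain ⟨l, hl⟩ : ∃ l, Nat.log 2 n + 1 = l := ⟨_, rfl⟩
  rw [hl] at hT2 hC ⊢
  have hl1 : 1 ≤ l := by omega
  have hn2 : n < 2 ^ l := by
    rw [← hl]
    exact Nat.lt_pow_succ_log_self (by norm_num) n
  have h2k : 2 ≤ 2 ^ (k + 1) := by
    calc 2 = 2 ^ 1 := by norm_num
      _ ≤ 2 ^ (k + 1) := Nat.pow_le_pow_right (by norm_num) (by omega)
  have hd2 : 2 ≤ d := h2k.trans hkd
  obtain ⟨S₁, hS₁⟩ : ∃ S₁, S₁ = S + m := ⟨_, rfl⟩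
  rw [← hS₁] at hC ⊢
  have hS₁1 : 1 ≤ S₁ := by omega
  -- powers of `l`
  have p5 : l ^ 5 ≤ l ^ 9 := Nat.pow_le_pow_right hl1 (by omega)
  have p50 : 1 ≤ l ^ 5 := Nat.one_le_pow _ _ hl1
  have p90 : 1 ≤ l ^ 9 := Nat.one_le_pow _ _ hl1
  -- the basic inequality
  obtain ⟨X, hX⟩ : ∃ X, l ^ 9 * S₁ * d = X := ⟨_, rfl⟩
  have hb : 10 ^ 6 * X ≤ n := by
    refine le_trans (le_of_eq ?_) hC
    rw [← hX]
    ring
  have hXd : d ≤ X := by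
    rw [← hX]
    calc d = 1 * 1 * d := by ring
      _ ≤ l ^ 9 * S₁ * d := Nat.mul_le_mul_right _ (Nat.mul_le_mul p90 hS₁1)
  have hXS : l ^ 5 * S₁ ≤ X := by
    rw [← hX]
    calc l ^ 5 * S₁ = l ^ 5 * S₁ * 1 := by ring
      _ ≤ l ^ 9 * S₁ * d := Nat.mul_le_mul (Nat.mul_le_mul_right _ p5) (by omega)
  have hkl : k + 1 ≤ l := by
    have h1 : 2 ^ (k + 1) < 2 ^ l := by omega
    exact ((Nat.pow_lt_pow_iff_right (by norm_num : 1 < 2)).1 h1).le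
  have hl2 : 2 ≤ l := by omega
  -- the parameters
  obtain ⟨w, hw⟩ : ∃ w, w = 2 * l ^ 2 := ⟨_, rfl⟩
  obtain ⟨b, hb'⟩ : ∃ b, b = S + (l + 1) * w := ⟨_, rfl⟩
  obtain ⟨L, hL⟩ : ∃ L, L = (l + 1) * w + l ^ 2 * b + l ^ 2 + 2 + 2 * l * m + S₁ := ⟨_, rfl⟩
  obtain ⟨Q, hQ⟩ : ∃ Q, Q = 4 * (l ^ 2 + 2) := ⟨_, rfl⟩
  obtain ⟨J, hJ⟩ : ∃ J, J = Nat.clog 2 T := ⟨_, rfl⟩
  have hJl : J ≤ l ^ 2 := by
    rw [hJ]
    exact Nat.clog_le_of_le_pow hT2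
  have hTJ : T ≤ 2 ^ J := by
    rw [hJ]
    exact Nat.le_pow_clog (by norm_num) T
  have hJT : 2 ^ J ≤ 2 * T := by
    rw [hJ]
    rcases Nat.lt_or_ge 1 T with h1 | h1
    · have h2 := Nat.pow_pred_clog_lt_self (by norm_num : 1 < 2) h1
      have h3 : 0 < Nat.clog 2 T := Nat.clog_pos (by norm_num) h1
      have h4 : 2 ^ Nat.clog 2 T = 2 * 2 ^ (Nat.clog 2 T).pred := by
        rw [← pow_succ']
        congr 1
        exact (Nat.succ_pred_eq_of_pos h3).symm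
      omega
    · have h2 : T = 1 := le_antisymm h1 hT
      subst h2
      simp
  have hLle : L ≤ 16 * (l ^ 5 * S₁) := by
    have e1 : (l + 1) * w ≤ 4 * l ^ 3 := by
      rw [hw]
      calc (l + 1) * (2 * l ^ 2) ≤ (l + l) * (2 * l ^ 2) := Nat.mul_le_mul_right _ (by omega)
        _ = 4 * l ^ 3 := by ring
    have e2 : l ^ 2 * b ≤ l ^ 2 * S + 4 * l ^ 5 := by
      rw [hb']
      calc l ^ 2 * (S + (l + 1) * w) ≤ l ^ 2 * (S + 4 * l ^ 3) :=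
            Nat.mul_le_mul_left _ (Nat.add_le_add_left e1 _)
        _ = l ^ 2 * S + 4 * l ^ 5 := by ring
    have q1 : l ≤ l ^ 5 := by
      calc l = l ^ 1 := (pow_one l).symm
        _ ≤ l ^ 5 := Nat.pow_le_pow_right hl1 (by omega)
    have q2 : l ^ 2 ≤ l ^ 5 := Nat.pow_le_pow_right hl1 (by omega)
    have q3 : l ^ 3 ≤ l ^ 5 := Nat.pow_le_pow_right hl1 (by omega)
    have q5 : l ^ 5 ≤ l ^ 5 * S₁ := Nat.le_mul_of_pos_right _ (by omega)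
    have q6 : l ^ 2 * S ≤ l ^ 5 * S₁ := Nat.mul_le_mul q2 (by omega)
    have q7 : 2 * l * m ≤ 2 * (l ^ 5 * S₁) := by
      calc 2 * l * m = 2 * (l * m) := by ring
        _ ≤ 2 * (l ^ 5 * S₁) := Nat.mul_le_mul_left _ (Nat.mul_le_mul q1 (by omega))
    have q8 : S₁ ≤ l ^ 5 * S₁ := Nat.le_mul_of_pos_left _ (by omega)
    omega
  have hLn : L ≤ n - 2 := by omega
  have hK : 4 * (8 * w * L) * Q ≤ 12288 * (l ^ 9 * S₁) := by
    calc 4 * (8 * w * L) * Q ≤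
          4 * (8 * (2 * l ^ 2) * (16 * (l ^ 5 * S₁))) * (4 * (3 * l ^ 2)) := by
          rw [hw, hQ]
          apply Nat.mul_le_mul
          · exact Nat.mul_le_mul_left _ (Nat.mul_le_mul_left _ hLle)
          · have : 1 ≤ l ^ 2 := Nat.one_le_pow _ _ hl1
            exact Nat.mul_le_mul_left _ (by omega)
      _ = 12288 * (l ^ 9 * S₁) := by ring
  have hKd : 4 * (8 * w * L) * Q * d ≤ 12288 * X := by
    calc 4 * (8 * w * L) * Q * d ≤ 12288 * (l ^ 9 * S₁) * d := Nat.mul_le_mul_right _ hK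
      _ = 12288 * X := by rw [← hX]; ring
  have hL1 : 1 ≤ L := by omega
  have hw1 : 1 ≤ w := by
    rw [hw]
    have : 1 ≤ l ^ 2 := Nat.one_le_pow _ _ hl1
    omega
  have hK1 : 1 ≤ 4 * (8 * w * L) * Q := by
    have : 0 < Q := by omega
    exact Nat.succ_le_of_lt (by positivity)
  -- `κ`
  obtain ⟨R, hR⟩ : ∃ R : ℝ, R = ((n - 2 - (d - 1) : ℕ) : ℝ) := ⟨_, rfl⟩
  obtain ⟨K, hKdef⟩ : ∃ K : ℝ, K = 4 * ((8 * w * L : ℕ) : ℝ) * Q := ⟨_, rfl⟩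
  have hRpos : 0 < R := by
    rw [hR]
    exact_mod_cast (by omega : 0 < n - 2 - (d - 1))
  have hRn : R ≤ 2 ^ l := by
    rw [hR]
    have : n - 2 - (d - 1) ≤ 2 ^ l := by omega
    exact_mod_cast this
  have hnR : (n : ℝ) ≤ 2 * R := by
    rw [hR]
    have : n ≤ 2 * (n - 2 - (d - 1)) := by omega
    exact_mod_cast this
  have hKone : 1 ≤ K := by
    rw [hKdef]
    exact_mod_cast hK1
  have hK0 : 0 < K := by linarith
  have hKle : 4 * K ≤ 10 ^ 6 * (l : ℝ) ^ 9 * (S₁ : ℝ) := by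
    have h1 : 4 * (4 * (8 * w * L) * Q) ≤ 10 ^ 6 * l ^ 9 * S₁ := by
      calc 4 * (4 * (8 * w * L) * Q) ≤ 4 * (12288 * (l ^ 9 * S₁)) := Nat.mul_le_mul_left _ hK
        _ = 49152 * (l ^ 9 * S₁) := by ring
        _ ≤ 10 ^ 6 * (l ^ 9 * S₁) := Nat.mul_le_mul_right _ (by norm_num)
        _ = 10 ^ 6 * l ^ 9 * S₁ := by ring
    rw [hKdef]
    exact_mod_cast h1
  have hκ0 : 0 < K / R := by positivity
  obtain ⟨e, he⟩ : ∃ e, e = (k + 1) * (k + 2) / 2 := ⟨_, rfl⟩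
  have he1 : 1 ≤ e := by
    rw [he]
    have : 2 ≤ (k + 1) * (k + 2) := by nlinarith
    omega
  have hFkeq : 2 * Fk (K / R) (k + 1) = (K / R) ^ k * 2 ^ e := by
    rw [Fk_closed, he]
  have hF1 : 1 ≤ 2 ^ l ^ 2 * Fk (K / R) (k + 1) := by
    have h1 : (K / R) ^ k ≤ Fk (K / R) (k + 1) := by
      have h2 : (2 : ℝ) ≤ 2 ^ e := by
        calc (2 : ℝ) = 2 ^ 1 := by norm_num
          _ ≤ 2 ^ e := pow_le_pow_right₀ (by norm_num) he1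
      have h3 : 0 < (K / R) ^ k := by positivity
      nlinarith
    have h2 : (1 / 2 ^ l : ℝ) ^ k ≤ (K / R) ^ k := by
      apply pow_le_pow_left₀ (by positivity)
      rw [div_le_div_iff₀ (by positivity) hRpos]
      nlinarith
    have h3 : (1 : ℝ) ≤ 2 ^ l ^ 2 * (1 / 2 ^ l) ^ k := by
      rw [div_pow, one_pow, ← pow_mul, mul_one_div, le_div_iff₀ (by positivity), one_mul]
      apply pow_le_pow_right₀ (by norm_num)
      calc l * k ≤ l * l := Nat.mul_le_mul_left _ (by omega)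
        _ = l ^ 2 := by ring
    calc (1 : ℝ) ≤ 2 ^ l ^ 2 * (1 / 2 ^ l) ^ k := h3
      _ ≤ 2 ^ l ^ 2 * Fk (K / R) (k + 1) :=
        mul_le_mul_of_nonneg_left (h2.trans h1) (by positivity)
  have a1 : (2 * (n - 2) + 1) ^ w ≤ 2 ^ ((l + 1) * w) := by
    rw [pow_mul 2 (l + 1) w]
    apply Nat.pow_le_pow_left
    have : 2 ^ (l + 1) = 2 * 2 ^ l := by ring
    omega
  refine ⟨w, l ^ 2, L, Q, J, fun j => 2 ^ (n - 2 - L + j * b), by omega, ?_, hL1, by omega,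
    ?_, ?_, by omega, ?_, ?_, ?_, hTJ, ?_, ?_⟩
  · calc 3 ≤ 2 ^ 2 := by norm_num
      _ ≤ l ^ 2 := Nat.pow_le_pow_left hl2 2
  · intro j
    rw [← pow_add]
    exact Nat.pow_le_pow_right (by norm_num) (by omega)
  · intro j
    calc c * ((2 * (n - 2) + 1) ^ w * 2 ^ (n - 2 - L + j * b))
        ≤ 2 ^ S * (2 ^ ((l + 1) * w) * 2 ^ (n - 2 - L + j * b)) :=
          Nat.mul_le_mul hc (Nat.mul_le_mul_right _ a1)
      _ = 2 ^ (S + ((l + 1) * w + (n - 2 - L + j * b))) := by rw [← pow_add, ← pow_add]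
      _ ≤ 2 ^ (n - 2 - L + (j + 1) * b) := by
          apply Nat.pow_le_pow_right (by norm_num)
          have a3 : (j + 1) * b = j * b + b := by ring
          rw [a3]
          omega
  · refine le_trans (Nat.mul_le_mul_left _ (by omega : d - 1 ≤ d)) (hKd.trans ?_)
    omega
  · refine le_trans (Nat.mul_le_mul_left _ hkd) (hKd.trans ?_)
    omega
  · rw [← hR, ← hKdef]
    exact hF1
  · have a0 : (n * n + 1) ^ m ≤ 2 ^ (2 * l * m) := by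
      rw [pow_mul]
      apply Nat.pow_le_pow_left
      have h1 : n + 1 ≤ 2 ^ l := by omega
      calc n * n + 1 ≤ (n + 1) * (n + 1) := by nlinarith
        _ ≤ 2 ^ l * 2 ^ l := Nat.mul_le_mul h1 h1
        _ = 2 ^ (2 * l) := by rw [← pow_add]; congr 1; ring
    calc (n * n + 1) ^ m * ((2 * (n - 2) + 1) ^ w * 2 ^ (n - 2 - L + J * b)) *
          (2 ^ S₁ * (4 * 2 ^ l ^ 2))
        ≤ 2 ^ (2 * l * m) * (2 ^ ((l + 1) * w) * 2 ^ (n - 2 - L + J * b)) *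
          (2 ^ S₁ * (2 ^ 2 * 2 ^ l ^ 2)) := by
          apply Nat.mul_le_mul _ (by norm_num)
          exact Nat.mul_le_mul a0 (Nat.mul_le_mul_right _ a1)
      _ = 2 ^ (2 * l * m + ((l + 1) * w + (n - 2 - L + J * b)) + (S₁ + (2 + l ^ 2))) := by
          rw [← pow_add, ← pow_add, ← pow_add, ← pow_add, ← pow_add]
      _ ≤ 2 ^ (n - 2) := by
          apply Nat.pow_le_pow_right (by norm_num)
          have a3 : J * b ≤ l ^ 2 * b := Nat.mul_le_mul_right _ hJl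
          omega
  · intro δ hmain hδ0
    rw [← hR, ← hKdef] at hmain
    rw [← he]
    have hβ := beta_le hJl hQ
    have hTpos : (1 : ℝ) ≤ T := by exact_mod_cast hT
    have hJT' : (2 : ℝ) ^ J ≤ 2 * T := by exact_mod_cast hJT
    have hFkpos := Fk_pos hκ0 (k + 1)
    have h1 : δ ≤ 2 * T * ((K / R) ^ k * 2 ^ e) := by
      rw [← hFkeq]
      calc δ ≤ (2 / (1 - 2 / (Q : ℝ))) ^ J * Fk (K / R) (k + 1) := hmain
        _ ≤ (2 * (2 * T)) * Fk (K / R) (k + 1) := by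
            apply mul_le_mul_of_nonneg_right _ hFkpos.le
            linarith
        _ = 2 * T * (2 * Fk (K / R) (k + 1)) := by ring
    have h2 : δ * R ^ k ≤ 2 * T * (K ^ k * 2 ^ e) := by
      have e1 : 2 * (T : ℝ) * ((K / R) ^ k * 2 ^ e) * R ^ k = 2 * T * (K ^ k * 2 ^ e) := by
        rw [div_pow]
        field_simp
      have e2 := mul_le_mul_of_nonneg_right h1 (by positivity : (0 : ℝ) ≤ R ^ k)
      rwa [e1] at e2
    have h7 : (n : ℝ) ^ k ≤ 2 ^ k * R ^ k := by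
      rw [← mul_pow]
      exact pow_le_pow_left₀ (Nat.cast_nonneg _) hnR k
    have h8 : 2 * (2 ^ k * K ^ k) ≤ (10 ^ 6 * (l : ℝ) ^ 9 * (S₁ : ℝ)) ^ k := by
      have e1 : (4 * K) ^ k ≤ (10 ^ 6 * (l : ℝ) ^ 9 * (S₁ : ℝ)) ^ k :=
        pow_le_pow_left₀ (by positivity) hKle k
      have e2 : (4 * K) ^ k = 2 ^ k * (2 ^ k * K ^ k) := by
        rw [show (4 : ℝ) * K = 2 * (2 * K) by ring, mul_pow, mul_pow]
      have e3 : (2 : ℝ) ≤ 2 ^ k := by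
        calc (2 : ℝ) = 2 ^ 1 := by norm_num
          _ ≤ 2 ^ k := pow_le_pow_right₀ (by norm_num) hk0
      have e4 : (0 : ℝ) < 2 ^ k * K ^ k := by positivity
      rw [e2] at e1
      nlinarith
    calc δ * (n : ℝ) ^ k ≤ δ * (2 ^ k * R ^ k) := mul_le_mul_of_nonneg_left h7 hδ0
      _ = 2 ^ k * (δ * R ^ k) := by ring
      _ ≤ 2 ^ k * (2 * T * (K ^ k * 2 ^ e)) := mul_le_mul_of_nonneg_left h2 (by positivity)
      _ = T * (2 * (2 ^ k * K ^ k)) * 2 ^ e := by ring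
      _ ≤ T * (10 ^ 6 * (l : ℝ) ^ 9 * (S₁ : ℝ)) ^ k * 2 ^ e := by
          apply mul_le_mul_of_nonneg_right _ (by positivity)
          exact mul_le_mul_of_nonneg_left h8 (by linarith)

end ExplAux

open ExplAux

/-- The advantage `δ` against `T' ≥ T / δ`. -/
theorem explicitN {n S d k T T' : ℕ} {s t : Fin n} {W : Type} [Fintype W] (hk : 1 ≤ k)
    (hst : s ≠ t) (hS : 1 ≤ S) (hT : 1 ≤ T) (M : Unreach.Mach n W)
    (hW : Fintype.card W ≤ 2 ^ S) (δ : ℝ) (hδ : 0 < δ)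
    (hadv : δ ≤ Unreach.accCut M T 0 s t - Unreach.accPath M T d s t)
    (hT' : (T : ℝ) / δ ≤ T') (hT2 : T' ≤ 2 ^ (Nat.log 2 n + 1) ^ 2) (hkd : 2 ^ k ≤ d)
    (hC : 10 ^ 6 * (Nat.log 2 n + 1) ^ 9 * S * d ≤ n) :
    n ^ (k - 1) ≤
        T' * (10 ^ 6 * (Nat.log 2 n + 1) ^ 9 * S) ^ (k - 1) * 2 ^ (k * (k + 1) / 2 + 1) := by
  have hδ1 : δ ≤ 1 := by
    have h1 := accPath_nonneg M T d s t
    have h2 := accCut_le_one M T 0 s t
    linarith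
  have hTT' : T ≤ T' := by
    have h1 : (T : ℝ) ≤ T / δ := by
      rw [le_div_iff₀ hδ]
      have : (0 : ℝ) ≤ T := Nat.cast_nonneg _
      nlinarith
    exact_mod_cast h1.trans hT'
  obtain ⟨k, rfl⟩ : ∃ k', k = k' + 1 := ⟨k - 1, by omega⟩
  rw [Nat.add_sub_cancel]
  rcases Nat.eq_zero_or_pos k with hk0 | hk0
  · subst hk0
    rw [pow_zero, pow_zero, mul_one]
    calc 1 = 1 * 1 := rfl
      _ ≤ T' * 2 ^ ((0 + 1) * (0 + 1 + 1) / 2 + 1) :=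
        Nat.mul_le_mul (hT.trans hTT') Nat.one_le_two_pow
  obtain ⟨w, w₁, L, Q, J, θ, h1, h2, h3, h4, h5, h6, h7, h8, h9, h10, h11, h12, h13⟩ :=
    setup (n := n) (m := 0) (d := d) (c := Fintype.card W) hk0 hS hT hW (hTT'.trans hT2) hkd hC
  have h2k : 2 ≤ 2 ^ (k + 1) := by
    calc 2 = 2 ^ 1 := by norm_num
      _ ≤ 2 ^ (k + 1) := Nat.pow_le_pow_right (by norm_num) (by omega)
  have hd1 : d - 1 + 1 = d := by omega
  have hmain := explicitU (r := d - 1) (k := k + 1) M hst θ (by omega) h1 h2 h3 h4 h5 h6 h7 h8 h9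
    h10 hT h11 (by omega)
  rw [hd1] at hmain
  obtain ⟨l, hl⟩ : ∃ l, Nat.log 2 n + 1 = l := ⟨_, rfl⟩
  rw [hl] at h12 h13 hT2 ⊢
  have hT2' : (T' : ℝ) ≤ 2 ^ l ^ 2 := by exact_mod_cast hT2
  have hTδ : (T : ℝ) ≤ δ * T' := by
    rw [div_le_iff₀ hδ] at hT'
    linarith
  have hTpos : (1 : ℝ) ≤ T := by exact_mod_cast hT
  have hsmall : (((2 * (n - 2) + 1) ^ w * θ J : ℕ) : ℝ) / 2 ^ (n - 2) ≤ δ / 4 := by
    have e1 : (2 * (n - 2) + 1) ^ w * θ J * (4 * 2 ^ l ^ 2) ≤ 2 ^ (n - 2) := by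
      refine le_trans ?_ h12
      rw [pow_zero, one_mul]
      exact Nat.mul_le_mul_left _ (Nat.le_mul_of_pos_left _ (by positivity))
    have e2 : (((2 * (n - 2) + 1) ^ w * θ J : ℕ) : ℝ) * (4 * 2 ^ l ^ 2) ≤ 2 ^ (n - 2) := by
      exact_mod_cast e1
    rw [div_le_div_iff₀ (by positivity) (by norm_num)]
    have e3 : (0 : ℝ) < 2 ^ l ^ 2 := by positivity
    have e4 : 1 ≤ δ * 2 ^ l ^ 2 := by nlinarith
    have e5 : (0 : ℝ) ≤ (((2 * (n - 2) + 1) ^ w * θ J : ℕ) : ℝ) := Nat.cast_nonneg _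
    calc (((2 * (n - 2) + 1) ^ w * θ J : ℕ) : ℝ) * 4
        ≤ (((2 * (n - 2) + 1) ^ w * θ J : ℕ) : ℝ) * 4 * (δ * 2 ^ l ^ 2) :=
          le_mul_of_one_le_right (by positivity) e4
      _ = δ * ((((2 * (n - 2) + 1) ^ w * θ J : ℕ) : ℝ) * (4 * 2 ^ l ^ 2)) := by ring
      _ ≤ δ * 2 ^ (n - 2) := mul_le_mul_of_nonneg_left e2 hδ.le
  have hnum := h13 (3 / 4 * δ) (by linarith) (by positivity)
  rw [Nat.add_zero] at hnum
  have hmm : (k + 1) * (k + 1 + 1) / 2 + 1 = (k + 1) * (k + 2) / 2 + 1 := rfl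
  rw [hmm]
  obtain ⟨e, he⟩ : ∃ e, e = (k + 1) * (k + 2) / 2 := ⟨_, rfl⟩
  rw [← he] at hnum ⊢
  have hfin : (n : ℝ) ^ k ≤ T' * (10 ^ 6 * (l : ℝ) ^ 9 * (S : ℝ)) ^ k * 2 ^ (e + 1) := by
    obtain ⟨A, hA⟩ : ∃ A : ℝ, A = (10 ^ 6 * (l : ℝ) ^ 9 * (S : ℝ)) ^ k * 2 ^ e := ⟨_, rfl⟩
    have hA0 : 0 ≤ A := by rw [hA]; positivity
    have e1 : δ * (3 / 4 * (n : ℝ) ^ k) ≤ δ * (T' * A) := by
      calc δ * (3 / 4 * (n : ℝ) ^ k) = 3 / 4 * δ * (n : ℝ) ^ k := by ring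
        _ ≤ T * (10 ^ 6 * (l : ℝ) ^ 9 * (S : ℝ)) ^ k * 2 ^ e := hnum
        _ = T * A := by rw [hA]; ring
        _ ≤ (δ * T') * A := mul_le_mul_of_nonneg_right hTδ hA0
        _ = δ * (T' * A) := by ring
    have e2 := le_of_mul_le_mul_left e1 hδ
    have e3 : 0 ≤ (T' : ℝ) * A := mul_nonneg (Nat.cast_nonneg _) hA0
    calc (n : ℝ) ^ k ≤ 2 * (T' * A) := by linarith
      _ = T' * (10 ^ 6 * (l : ℝ) ^ 9 * (S : ℝ)) ^ k * 2 ^ (e + 1) := by rw [hA, pow_succ]; ring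
  exact_mod_cast hfin

/-- Machines which may rely on the presence of `m` edges. -/
theorem explicitP {n S m d k T : ℕ} {s t : Fin n} {W : Type} [Fintype W] (hk : 1 ≤ k)
    (hst : s ≠ t) (hS : 1 ≤ S) (hT : 1 ≤ T) (M : Unreach.Mach n W)
    (hW : Fintype.card W ≤ 2 ^ S)
    (hno : ∀ G : Fin n → Fin n → Bool, (∀ a b, G a b = G b a) →
      (∃ l ≤ d, SharpTS.HasWalk G l s t) → ¬ M.AcceptsUsing T m G)
    (hacc : 1 ≤ Unreach.accCut M T m s t * 2 ^ (S + m))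
    (hT2 : T ≤ 2 ^ (Nat.log 2 n + 1) ^ 2) (hkd : 2 ^ k ≤ d)
    (hC : 10 ^ 6 * (Nat.log 2 n + 1) ^ 9 * (S + m) * 2 ^ k ≤ n) :
    n ^ (k - 1) ≤
        T * (10 ^ 6 * (Nat.log 2 n + 1) ^ 9 * (S + m)) ^ (k - 1) * 2 ^ (k * (k + 1) / 2 + 1) := by
  obtain ⟨k, rfl⟩ : ∃ k', k = k' + 1 := ⟨k - 1, by omega⟩
  rw [Nat.add_sub_cancel]
  rcases Nat.eq_zero_or_pos k with hk0 | hk0
  · subst hk0
    rw [pow_zero, pow_zero, mul_one]
    calc 1 = 1 * 1 := rfl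
      _ ≤ T * 2 ^ ((0 + 1) * (0 + 1 + 1) / 2 + 1) :=
        Nat.mul_le_mul hT Nat.one_le_two_pow
  obtain ⟨w, w₁, L, Q, J, θ, h1, h2, h3, h4, h5, h6, h7, h8, h9, h10, h11, h12, h13⟩ :=
    setup (n := n) (m := m) (d := 2 ^ (k + 1)) (c := Fintype.card W) hk0 hS hT hW hT2 le_rfl hC
  have h2k : 2 ≤ 2 ^ (k + 1) := by
    calc 2 = 2 ^ 1 := by norm_num
      _ ≤ 2 ^ (k + 1) := Nat.pow_le_pow_right (by norm_num) (by omega)
  have hmain := explicitK (r := 2 ^ (k + 1) - 1) (k := k + 1) (m := m) M hst θ (by omega) h1 h2 h3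
    h4 h5 h6 h7 h8 h9 h10 hT h11 (by omega)
    (by
      rintro G hG ⟨l, hl, hw⟩
      exact hno G hG ⟨l, by omega, hw⟩)
    (by
      have e1 : (n * n + 1) ^ m * ((2 * (n - 2) + 1) ^ w * θ J) * (2 ^ (S + m) * 2) ≤
          2 ^ (n - 2) := by
        refine le_trans (Nat.mul_le_mul_left _ (Nat.mul_le_mul_left _ ?_)) h12
        have : 1 ≤ 2 ^ (Nat.log 2 n + 1) ^ 2 := Nat.one_le_two_pow
        omega
      have e2 : (((n * n + 1) ^ m * ((2 * (n - 2) + 1) ^ w * θ J) : ℕ) : ℝ) *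
          (2 ^ (S + m) * 2) ≤ 2 ^ (n - 2) := by exact_mod_cast e1
      obtain ⟨A, hA⟩ : ∃ A : ℝ, A =
        (((n * n + 1) ^ m * ((2 * (n - 2) + 1) ^ w * θ J) : ℕ) : ℝ) := ⟨_, rfl⟩
      rw [← hA] at e2 ⊢
      have e3 : (0 : ℝ) < 2 ^ (S + m) := by positivity
      have e4 : (0 : ℝ) < 2 ^ (n - 2) := by positivity
      have e5 : A * 2 ^ (S + m) < (Unreach.accCut M T m s t * 2 ^ (n - 2)) * 2 ^ (S + m) := by
        calc A * 2 ^ (S + m) ≤ 2 ^ (n - 2) / 2 := by linarith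
          _ < 2 ^ (n - 2) * 1 := by linarith
          _ ≤ 2 ^ (n - 2) * (Unreach.accCut M T m s t * 2 ^ (S + m)) :=
            mul_le_mul_of_nonneg_left hacc e4.le
          _ = (Unreach.accCut M T m s t * 2 ^ (n - 2)) * 2 ^ (S + m) := by ring
      exact lt_of_mul_lt_mul_right e5 e3.le)
  have hnum := h13 (30 / 31) hmain (by norm_num)
  have hmm : (k + 1) * (k + 1 + 1) / 2 + 1 = (k + 1) * (k + 2) / 2 + 1 := rfl
  rw [hmm]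
  obtain ⟨e, he⟩ : ∃ e, e = (k + 1) * (k + 2) / 2 := ⟨_, rfl⟩
  rw [← he] at hnum ⊢
  have hfin : (n : ℝ) ^ k ≤ T * (10 ^ 6 * ((Nat.log 2 n + 1 : ℕ) : ℝ) ^ 9 *
      ((S + m : ℕ) : ℝ)) ^ k * 2 ^ (e + 1) := by
    obtain ⟨A, hA⟩ : ∃ A : ℝ, A = T * (10 ^ 6 * ((Nat.log 2 n + 1 : ℕ) : ℝ) ^ 9 *
      ((S + m : ℕ) : ℝ)) ^ k * 2 ^ e := ⟨_, rfl⟩
    have hA0 : 0 ≤ A := by rw [hA]; positivity
    rw [← hA] at hnum
    calc (n : ℝ) ^ k ≤ 2 * A := by linarith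
      _ = _ := by rw [hA, pow_succ]; ring
  exact_mod_cast hfin

end MTU
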