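import Pool.Agent.Lib.MTU.Expl
import Pool.Agent.Lib.MTU.LowerN
import Pool.Agent.Lib.MTX.FinalA

/-!
# MTU.Final (MP_e46137_lc): nondeterministic machines which certify unreachability
-/

namespace MTU

open Classical Finset Unreach

namespace FinalAux

variable {n : ℕ}

theorem logb_two_le {n : ℕ} (hn : 4 ≤ n) : (2 : ℝ) ≤ Real.logb 2 n := by
  have h4 : (4 : ℝ) ≤ n := by exact_mod_cast hn
  rw [Real.le_logb_iff_rpow_le (by norm_num) (by linarith)]
  norm_num
  linarith

theorem err_ge_one {S d : ℕ} (hn : 4 ≤ n) (hS : 1 ≤ S) (hSn : S ≤ n) (hd : 1 ≤ d) :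
    1 ≤ SharpTS.err n S d := by
  have h3 := MTZ.FinalAux.err_ge (d := d) hn hS hSn hd
  have e1 : MTZ.kap n S d = MTX.kap n S d := rfl
  have e2 : MTZ.err n S d = SharpTS.err n S d := rfl
  rw [e1, e2] at h3
  have hκ0 : 0 ≤ MTX.kap n S d := MTX.kap_nonneg hS hSn hd
  have h2 := logb_two_le hn
  linarith

/-- a computation of length `0` -/
theorem accepts_zero {W : Type} (M : Mach n W) (m : ℕ) (G : Fin n → Fin n → Bool) :
    M.AcceptsUsing 0 m G ↔ M.acc M.start := by
  constructor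
  · rintro ⟨R, K, -, h1, h2, h3⟩
    have h4 := (h3 G h1 (fun _ _ => le_rfl)).1
    rwa [h4] at h2
  · intro h
    exact ⟨fun _ => M.start, ∅, Nat.zero_le _, fun e he => absurd he (notMem_empty _), h,
      fun _ _ _ => ⟨rfl, fun t ht => absurd ht (Nat.not_lt_zero t)⟩⟩

/-- acceptance and rejection of the random path -/
theorem accP_not {W : Type} (M : Mach n W) (T d : ℕ) {s t : Fin n} (hst : s ≠ t)
    (hd : d - 1 + 2 ≤ n) :
    MTC.accP (fun G => !decide (M.AcceptsUsing T 0 G)) (d - 1) s t = 1 - accPath M T d s t := by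
  have h0 : (0 : ℝ) < (SharpTS.seqs n (d - 1) s t).card := by
    have h := MTC.GapAux.seqs_nonempty hst hd
    exact_mod_cast card_pos.2 h
  have h1 := card_filter_add_card_filter_not (s := SharpTS.seqs n (d - 1) s t)
    (fun P => M.AcceptsUsing T 0 (SharpTS.pathGraph s t P))
  have h2 : ((MTS.seqs n (d - 1) s t).filter (fun P =>
      (!decide (M.AcceptsUsing T 0 (MTS.pathGraph s t P))) = true)).card =
      ((SharpTS.seqs n (d - 1) s t).filter (fun P =>
        ¬ M.AcceptsUsing T 0 (SharpTS.pathGraph s t P))).card := by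
    have e : MTS.seqs n (d - 1) s t = SharpTS.seqs n (d - 1) s t := rfl
    rw [e]
    refine congrArg card (Finset.ext fun P => ?_)
    rw [mem_filter, mem_filter, MTX.FinalAAux.pathGraph_eq]
    simp
  have h3 : (MTS.seqs n (d - 1) s t).card = (SharpTS.seqs n (d - 1) s t).card := rfl
  unfold MTC.accP accPath
  rw [h2, h3, eq_sub_iff_add_eq, ← add_div, div_eq_one_iff_eq h0.ne']
  have h4 : (((SharpTS.seqs n (d - 1) s t).filter (fun P =>
      M.AcceptsUsing T 0 (SharpTS.pathGraph s t P))).card : ℝ) +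
      (((SharpTS.seqs n (d - 1) s t).filter (fun P =>
        ¬ M.AcceptsUsing T 0 (SharpTS.pathGraph s t P))).card : ℝ) =
      ((SharpTS.seqs n (d - 1) s t).card : ℝ) := by exact_mod_cast h1
  linarith

/-- acceptance and rejection of the random cut -/
theorem accC_not {W : Type} (M : Mach n W) (T : ℕ) {s t : Fin n} (hst : s ≠ t) :
    MTC.accC (fun G => !decide (M.AcceptsUsing T 0 G)) s t = 1 - accCut M T 0 s t := by
  have h0 : (0 : ℝ) < (SharpTS.cuts n s t).card := by
    exact_mod_cast MTC.cuts_pos hst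
  have h1 := card_filter_add_card_filter_not (s := SharpTS.cuts n s t)
    (fun C => M.AcceptsUsing T 0 (SharpTS.cutGraph C))
  have h2 : ((MTS.cuts n s t).filter (fun C =>
      (!decide (M.AcceptsUsing T 0 (MTS.cutGraph C))) = true)).card =
      ((SharpTS.cuts n s t).filter (fun C =>
        ¬ M.AcceptsUsing T 0 (SharpTS.cutGraph C))).card := by
    have e : MTS.cuts n s t = SharpTS.cuts n s t := rfl
    rw [e]
    refine congrArg card (Finset.ext fun C => ?_)
    rw [mem_filter, mem_filter]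
    have e2 : MTS.cutGraph C = SharpTS.cutGraph C := rfl
    rw [e2]
    simp
  have h3 : (MTS.cuts n s t).card = (SharpTS.cuts n s t).card := rfl
  unfold MTC.accC accCut
  rw [h2, h3, eq_sub_iff_add_eq, ← add_div, div_eq_one_iff_eq h0.ne']
  have h4 : (((SharpTS.cuts n s t).filter (fun C =>
      M.AcceptsUsing T 0 (SharpTS.cutGraph C))).card : ℝ) +
      (((SharpTS.cuts n s t).filter (fun C =>
        ¬ M.AcceptsUsing T 0 (SharpTS.cutGraph C))).card : ℝ) =
      ((SharpTS.cuts n s t).card : ℝ) := by exact_mod_cast h1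
  linarith

/-- a computation of length `0` has no advantage -/
theorem adv_zero {W : Type} (M : Mach n W) (d : ℕ) {s t : Fin n} (hst : s ≠ t)
    (hd : d - 1 + 2 ≤ n) : accCut M 0 0 s t - accPath M 0 d s t ≤ 0 := by
  have h1 := MTC.adv_const (fun G => !decide (M.AcceptsUsing 0 0 G))
    (!decide (M.acc M.start)) (fun G => by simp only [accepts_zero]) (d - 1) hst
  rw [accP_not M 0 d hst hd, accC_not M 0 hst] at h1
  linarith

theorem log_le {n : ℕ} (hn : 4 ≤ n) : ((Nat.log 2 n + 1 : ℕ) : ℝ) ≤ 2 * Real.logb 2 n :=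
  MTX.FinalAAux.log_le hn

/-- the smallest `T'` with `T / δ ≤ T'` -/
theorem ceil_facts {T : ℕ} {δ : ℝ} (hT : 1 ≤ T) (hδ : 0 < δ) (hδ1 : δ ≤ 1) :
    ∃ T' : ℕ, 1 ≤ T' ∧ (T : ℝ) / δ ≤ T' ∧ Real.logb 2 T' ≤ 1 + Real.logb 2 (T / δ) := by
  have hTpos : (1 : ℝ) ≤ T := by exact_mod_cast hT
  obtain ⟨T', hT'⟩ : ∃ T', T' = ⌈(T : ℝ) / δ⌉₊ := ⟨_, rfl⟩
  have hle : (T : ℝ) / δ ≤ T' := by
    rw [hT']
    exact Nat.le_ceil _
  have h1δ : (1 : ℝ) ≤ T / δ := by
    rw [le_div_iff₀ hδ]
    linarith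
  have hT'1 : 1 ≤ T' := by
    have : (1 : ℝ) ≤ T' := h1δ.trans hle
    exact_mod_cast this
  have hge : (T' : ℝ) ≤ 2 * (T / δ) := by
    have h1 : (T' : ℝ) < T / δ + 1 := by
      rw [hT']
      exact Nat.ceil_lt_add_one (by positivity)
    linarith
  refine ⟨T', hT'1, hle, ?_⟩
  have h1 : Real.logb 2 T' ≤ Real.logb 2 (2 * (T / δ)) :=
    Real.logb_le_logb_of_le (by norm_num) (by exact_mod_cast hT'1) hge
  rw [Real.logb_mul (by norm_num) (by positivity), Real.logb_self_eq_one (by norm_num)] at h1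
  exact h1

end FinalAux

open FinalAux

/-- **Correlation bound.** -/
theorem adv : ∃ c : ℝ, 0 < c ∧ ∀ (n S d T : ℕ) (s t : Fin n), 4 ≤ n → 1 ≤ S → S ≤ n →
    2 ≤ d → d ≤ n → s ≠ t → c * Real.logb 2 n ^ 9 * S * d ≤ n →
    ∀ (W : Type) [Fintype W], Fintype.card W ≤ 2 ^ S → ∀ M : Mach n W,
      accCut M T 0 s t - accPath M T d s t ≤
        T * (2 : ℝ) ^ (-(SharpTS.phi n S d - c * SharpTS.err n S d)) := by
  obtain ⟨c, hc, hL⟩ := lower_num9 (10 ^ 6) (by norm_num)
  refine ⟨c + 10 ^ 9, by positivity, ?_⟩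
  intro n S d T s t hn hS hSn hd hdn hst hC W _ hW M
  have hS0 : (1 : ℝ) ≤ S := by exact_mod_cast hS
  have hd0 : (2 : ℝ) ≤ d := by exact_mod_cast hd
  have hlog2 := logb_two_le hn
  have hl := log_le hn
  have hC2 : 10 ^ 6 * (Nat.log 2 n + 1) ^ 9 * S * d ≤ n := by
    have h1 : (((Nat.log 2 n + 1 : ℕ) : ℝ)) ^ 9 ≤ (2 * Real.logb 2 n) ^ 9 :=
      pow_le_pow_left₀ (by positivity) hl 9
    have h2 : ((10 ^ 6 * (Nat.log 2 n + 1) ^ 9 * S * d : ℕ) : ℝ) ≤ (n : ℝ) := by
      refine le_trans ?_ hC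
      calc ((10 ^ 6 * (Nat.log 2 n + 1) ^ 9 * S * d : ℕ) : ℝ)
          = 10 ^ 6 * (((Nat.log 2 n + 1 : ℕ) : ℝ)) ^ 9 * S * d := by
            push_cast
            ring
        _ ≤ 10 ^ 6 * (2 * Real.logb 2 n) ^ 9 * S * d := by gcongr
        _ = (512 * 10 ^ 6) * Real.logb 2 n ^ 9 * S * d := by ring
        _ ≤ (c + 10 ^ 9) * Real.logb 2 n ^ 9 * S * d := by
            gcongr
            linarith
    exact_mod_cast h2
  have hdn2 : d - 1 + 2 ≤ n := by
    have h1 : 2 * d ≤ n := by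
      refine le_trans ?_ hC2
      have h2 : 1 ≤ (Nat.log 2 n + 1) ^ 9 := Nat.one_le_pow _ _ (by omega)
      calc 2 * d = 2 * 1 * 1 * d := by ring
        _ ≤ 10 ^ 6 * (Nat.log 2 n + 1) ^ 9 * S * d := by
          apply Nat.mul_le_mul_right
          exact Nat.mul_le_mul (Nat.mul_le_mul (by norm_num) h2) hS
    omega
  obtain ⟨δ, hδdef⟩ : ∃ δ, δ = accCut M T 0 s t - accPath M T d s t := ⟨_, rfl⟩
  rw [← hδdef]
  rcases le_or_gt δ 0 with hδ | hδ
  · refine hδ.trans (by positivity)
  have hT : 1 ≤ T := by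
    rcases Nat.eq_zero_or_pos T with h | h
    · exfalso
      subst h
      have := adv_zero M d hst hdn2
      linarith
    · exact h
  have hδ1 : δ ≤ 1 := by
    have h1 := ExplAux.accPath_nonneg M T d s t
    have h2 := ExplAux.accCut_le_one M T 0 s t
    linarith
  obtain ⟨T', hT'1, hle, hlog⟩ := ceil_facts hT hδ hδ1
  have hmain := hL n S d T' hn hS hSn hd hdn hT'1 (fun hT2 k hk hkd _ =>
    explicitN hk hst hS hT M hW δ hδ hδdef.le hle hT2 hkd hC2)
  have hE1 := err_ge_one hn hS hSn (by omega : 1 ≤ d)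
  have e3 : SharpTS.phi n S d = MTX.phi n S d := rfl
  have e4 : SharpTS.err n S d = MTX.err n S d := rfl
  rw [← e3, ← e4] at hmain
  have hTpos : (1 : ℝ) ≤ T := by exact_mod_cast hT
  have h2 : SharpTS.phi n S d - (c + 10 ^ 9) * SharpTS.err n S d ≤ Real.logb 2 (T / δ) := by
    nlinarith
  rw [Real.le_logb_iff_rpow_le (by norm_num) (by positivity)] at h2
  rw [Real.rpow_neg (by norm_num), ← div_eq_mul_inv, le_div_iff₀ (by positivity)]
  rw [le_div_iff₀ hδ] at h2
  linarith

/-- **Lower bound** for probabilistic nondeterministic machines with gap `δ`. -/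
theorem gap : ∃ c : ℝ, 0 < c ∧ ∀ (n S d T : ℕ) (s t : Fin n), 4 ≤ n → 1 ≤ S → S ≤ n →
    2 ≤ d → d ≤ n → s ≠ t → ∀ (W : Type) [Fintype W], Fintype.card W ≤ 2 ^ S →
    ∀ (Ω : Type) [Fintype Ω] (p : Ω → ℝ), (∀ ω, 0 ≤ p ω) → ∑ ω, p ω = 1 →
    ∀ (M : Ω → Mach n W) (δ : ℝ), 0 < δ → Certifies p M T d s t δ →
      SharpTS.phi n S d - c * SharpTS.err n S d ≤ Real.logb 2 (T / δ) := by
  obtain ⟨c, hc, hL⟩ := lower_num9 (10 ^ 6) (by norm_num)
  refine ⟨c + 1, by linarith, ?_⟩
  intro n S d T s t hn hS hSn hd hdn hst W _ hW Ω _ p hp0 hp1 M δ hδ hcert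
  -- rejection
  have hsum : ∀ G : Fin n → Fin n → Bool,
      ∑ ω ∈ univ.filter (fun ω => (!decide ((M ω).AcceptsUsing T 0 G)) = true), p ω =
        1 - accProb p M T G := by
    intro G
    unfold accProb
    have h1 := sum_filter_add_sum_filter_not univ (fun ω => (M ω).AcceptsUsing T 0 G) p
    rw [hp1] at h1
    have h2 : ∑ ω ∈ univ.filter (fun ω => (!decide ((M ω).AcceptsUsing T 0 G)) = true), p ω =
        ∑ ω ∈ univ.filter (fun ω => ¬ (M ω).AcceptsUsing T 0 G), p ω := by
      refine sum_congr (Finset.ext fun ω => ?_) fun _ _ => rfl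
      rw [mem_filter, mem_filter]
      simp
    rw [h2]
    linarith
  have hgap : MTC.Gap p (fun ω G => !decide ((M ω).AcceptsUsing T 0 G)) d s t δ := by
    rintro G G' hG hG' ⟨l, hl, hw⟩ hr
    have h1 := hcert G G' hG hG' ⟨l, hl, (MTX.FinalAux.hasWalk_eq G l s t).2 hw⟩ hr
    rw [hsum, hsum]
    linarith
  obtain ⟨hδ1, hconst⟩ := MTC.GapAux.gap_basic hp0 hp1 (by omega : 1 ≤ d) hst hgap
  have hT : 1 ≤ T := by
    rcases Nat.eq_zero_or_pos T with h | h
    · exfalso
      subst h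
      have := hconst (fun ω => ⟨!decide ((M ω).acc (M ω).start), fun G => by
        simp only [accepts_zero]⟩)
      linarith
    · exact h
  obtain ⟨T', hT'1, hle, hlog⟩ := ceil_facts hT hδ hδ1
  have hmain := hL n S d T' hn hS hSn hd hdn hT'1 (fun hT2 k hk hkd hkn => by
    have h2k : 1 ≤ 2 ^ k := Nat.one_le_two_pow
    have hkn2 : 2 ^ k + 1 ≤ n := by
      have h1 : 1 ≤ (Nat.log 2 n + 1) ^ 9 := Nat.one_le_pow _ _ (by omega)
      have h2 : 2 ^ k * 2 ≤ 10 ^ 6 * (Nat.log 2 n + 1) ^ 9 * S * 2 ^ k := by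
        calc 2 ^ k * 2 = 2 * 1 * 1 * 2 ^ k := by ring
          _ ≤ 10 ^ 6 * (Nat.log 2 n + 1) ^ 9 * S * 2 ^ k := by
            apply Nat.mul_le_mul_right
            exact Nat.mul_le_mul (Nat.mul_le_mul (by norm_num) h1) hS
      omega
    obtain ⟨ω, hω⟩ := MTC.GapAux.exists_machine hp0 hp1 h2k hkd hkn2 hst hgap
    rw [accP_not (M ω) T (2 ^ k) hst (by omega), accC_not (M ω) T hst] at hω
    exact explicitN (d := 2 ^ k) hk hst hS hT (M ω) hW δ hδ (by linarith) hle hT2 le_rfl hkn)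
  have hE1 := err_ge_one hn hS hSn (by omega : 1 ≤ d)
  have e3 : SharpTS.phi n S d = MTX.phi n S d := rfl
  have e4 : SharpTS.err n S d = MTX.err n S d := rfl
  rw [← e3, ← e4] at hmain
  nlinarith

/-- **Lower bound** for machines which may rely on the presence of `m` edges. -/
theorem pos : ∃ c : ℝ, 0 < c ∧ ∀ (n S m d T : ℕ) (s t : Fin n), 4 ≤ n → 1 ≤ S → S + m ≤ n →
    2 ≤ d → d ≤ n → s ≠ t → ∀ (W : Type) [Fintype W], Fintype.card W ≤ 2 ^ S →
    ∀ M : Mach n W,
      (∀ G : Fin n → Fin n → Bool, (∀ a b, G a b = G b a) →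
        (∃ l ≤ d, SharpTS.HasWalk G l s t) → ¬ M.AcceptsUsing T m G) →
      1 ≤ accCut M T m s t * 2 ^ (S + m) →
      SharpTS.phi n (S + m) d - c * SharpTS.err n (S + m) d ≤ Real.logb 2 T := by
  obtain ⟨c, hc, hL⟩ := lower_num9 (10 ^ 6) (by norm_num)
  refine ⟨c, hc, ?_⟩
  intro n S m d T s t hn hS hSn hd hdn hst W _ hW M hno hacc
  have hT : 1 ≤ T := by
    rcases Nat.eq_zero_or_pos T with h | h
    · exfalso
      subst h
      have h1 : ¬ M.acc M.start := fun h1 => by
        refine hno (fun _ _ => true) (fun _ _ => rfl) ⟨1, by omega, s, rfl, rfl⟩ ?_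
        rw [accepts_zero]
        exact h1
      have h2 : accCut M 0 m s t = 0 := by
        unfold accCut
        have h3 : (SharpTS.cuts n s t).filter
            (fun C => M.AcceptsUsing 0 m (SharpTS.cutGraph C)) = ∅ := by
          rw [filter_eq_empty_iff]
          intro C _ h4
          rw [accepts_zero] at h4
          exact h1 h4
        rw [h3, card_empty, Nat.cast_zero, zero_div]
      rw [h2, zero_mul] at hacc
      linarith
    · exact h
  exact hL n (S + m) d T hn (by omega) hSn hd hdn hT (fun hT2 k hk hkd hkn =>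
    explicitP hk hst hS hT M hW hno hacc hT2 hkd hkn)

/-- **Deterministic monotone machines** are nondeterministic machines which certify unreachability
and rely only on the absence of arcs. -/
theorem det {n S : ℕ} (M : SharpTS.Mach n S) (out : Fin S) :
    ∃ M' : Mach n (Fin S → Bool), ∀ (T : ℕ) (G : Fin n → Fin n → Bool),
      M'.AcceptsUsing T 0 G ↔ M.run G T out = false := by
  obtain ⟨M', hM'⟩ : ∃ M' : Mach n (Fin S → Bool), M' =
      { start := M.init
        acc := fun σ => σ out = false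
        v := M.v
        step := fun t σ σ' G => M.next t σ G ≤ σ'
        loc := by
          intro t σ σ' G G' hG hs
          exact le_trans (M.mono t σ σ _ _ le_rfl fun u => ⟨(hG u).1.ge, (hG u).2.ge⟩) hs } :=
    ⟨_, rfl⟩
  have hstep : ∀ t σ σ' G, M'.step t σ σ' G ↔ M.next t σ G ≤ σ' := by
    intro t σ σ' H
    rw [hM']
  have hstart : M'.start = M.init := by rw [hM']
  have hacc : ∀ σ, M'.acc σ ↔ σ out = false := by
    intro σ
    rw [hM']
  refine ⟨M', fun T G => ⟨?_, fun h => ?_⟩⟩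
  · rintro ⟨R, K, -, hK, h1, h2⟩
    obtain ⟨h3, h4⟩ := h2 G hK (fun _ _ => le_rfl)
    have h5 : ∀ i ≤ T, M.run G i ≤ R i := by
      intro i
      induction i with
      | zero =>
        intro _
        rw [h3, hstart]
        exact le_rfl
      | succ i ih =>
        intro hi
        have h6 := (hstep _ _ _ _).1 (h4 i (by omega))
        exact le_trans (M.mono i _ _ G G (ih (by omega)) fun u => ⟨le_rfl, le_rfl⟩) h6
    have h6 := h5 T le_rfl out
    rw [(hacc _).1 h1] at h6
    exact le_antisymm h6 (Bool.false_le _)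
  · refine ⟨M.run G, ∅, le_rfl, fun e he => absurd he (notMem_empty _), (hacc _).2 h, ?_⟩
    intro G' _ hG'
    refine ⟨hstart.symm, fun i _ => (hstep _ _ _ _).2 ?_⟩
    exact M.mono i _ _ G' G le_rfl fun u => ⟨hG' _ _, hG' _ _⟩

/-- **Reachability** itself: `n` states, `n - 1` steps. -/
theorem reach {n : ℕ} (s t : Fin n) : ∃ M : Mach n (Fin n), ∀ G : Fin n → Fin n → Bool,
    M.Accepts (n - 1) G ↔ SharpTS.Reach G s t := by
  obtain ⟨M, hM⟩ : ∃ M : Mach n (Fin n), M =
      { start := s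
        acc := fun u => u = t
        v := fun _ u => u
        step := fun _ u w G => w = u ∨ G u w = true
        loc := by
          intro _ u w G G' hG hs
          rcases hs with h | h
          · exact Or.inl h
          · right
            rw [← (hG w).1]
            exact h } := ⟨_, rfl⟩
  have hstep : ∀ t u w G, M.step t u w G ↔ w = u ∨ G u w = true := by
    intro t u w G
    rw [hM]
  have hstart : M.start = s := by rw [hM]
  have hacc : ∀ u, M.acc u ↔ u = t := by
    intro u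
    rw [hM]
  refine ⟨M, fun G => ⟨?_, fun h => ?_⟩⟩
  · rintro ⟨R, ⟨h1, h2⟩, h3⟩
    have h4 : ∀ i ≤ n - 1, SharpTS.Reach G s (R i) := by
      intro i
      induction i with
      | zero =>
        intro _
        rw [h1, hstart]
        exact Relation.ReflTransGen.refl
      | succ i ih =>
        intro hi
        rcases (hstep _ _ _ _).1 (h2 i (by omega)) with h5 | h5
        · rw [h5]
          exact ih (by omega)
        · exact (ih (by omega)).tail h5
    have h5 := h4 (n - 1) le_rfl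
    rwa [(hacc _).1 h3] at h5
  · have h3 : ∀ v, SharpTS.Reach G s v → ∃ l, MTB.HasWalk G l s v := by
      intro v hv
      unfold SharpTS.Reach at hv
      induction hv with
      | refl => exact ⟨0, rfl⟩
      | tail _ hbc ih =>
        obtain ⟨l, hl⟩ := ih
        exact ⟨l + 1, _, hl, hbc⟩
    obtain ⟨l', hl'⟩ := h3 t h
    obtain ⟨l, p, -, hinj, h0, hlt, hp⟩ := MTX.UExplAux.exists_short G s t hl'
    have hln : l ≤ n - 1 := by
      have h4 : (Finset.Iic l).card ≤ (univ : Finset (Fin n)).card := by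
        refine card_le_card_of_injOn p (fun _ _ => mem_coe.2 (mem_univ _)) ?_
        intro a ha b hb hab
        exact hinj (Set.mem_Iic.2 (mem_Iic.1 (mem_coe.1 ha)))
          (Set.mem_Iic.2 (mem_Iic.1 (mem_coe.1 hb))) hab
      rw [Nat.card_Iic, card_univ, Fintype.card_fin] at h4
      omega
    refine ⟨fun i => p (min i l), ⟨?_, fun i _ => (hstep _ _ _ _).2 ?_⟩, ?_⟩
    · show p (min 0 l) = M.start
      rw [hstart, Nat.zero_min, h0]
    · show p (min (i + 1) l) = p (min i l) ∨ G (p (min i l)) (p (min (i + 1) l)) = true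
      rcases Nat.lt_or_ge i l with h3 | h3
      · right
        rw [min_eq_left h3.le, min_eq_left (by omega : i + 1 ≤ l)]
        exact hp i h3
      · left
        rw [min_eq_right h3, min_eq_right (by omega : l ≤ i + 1)]
    · show M.acc (p (min (n - 1) l))
      rw [min_eq_right hln, hlt, hacc]

end MTU
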