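import Pool.Agent.Lib.MTU.Model
import Pool.Agent.Lib.MTX.UExpl

/-!
# MTU.IS (MP_e46137_lc): the theorem of Immerman and Szelepcsényi with `n - 1` present arcs

Programs are lists of instructions `Ins n W`; `Exec A B l w w'` means that the program `l` can lead
from the state `w` to the state `w'` when only the arcs in `A` may be used as present arcs and only the
arcs in `B` as absent arcs.  The ball `Rk A s k` is the set of the vertices with a walk of at most `k`
arcs of `A` from `s`; phase `i` of the program computes `|R (i + 1)|` from `|R i|`.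
-/

namespace MTU

open Unreach

namespace ISAux

/-! ### programs -/

/-- an instruction: `rel` is the relation, `pos w w'` is a vertex `y` such that the arc `(v w, y)` must
be present, `neg w w'` a vertex `y` such that the arc `(v w, y)` must be absent -/
structure Ins (n : ℕ) (W : Type) where
  v : W → Fin n
  rel : W → W → Prop
  pos : W → W → Option (Fin n)
  neg : W → W → Option (Fin n)

variable {n : ℕ} {W : Type}

/-- the instruction `i` may lead from `w` to `w'` -/
def Ins.Ok (i : Ins n W) (A B : Set (Fin n × Fin n)) (w w' : W) : Prop :=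
  i.rel w w' ∧ (∀ y, i.pos w w' = some y → (i.v w, y) ∈ A) ∧
    (∀ y, i.neg w w' = some y → (i.v w, y) ∈ B)

theorem Ins.ok_mono {i : Ins n W} {A B A' B' : Set (Fin n × Fin n)} (hA : A ⊆ A') (hB : B ⊆ B')
    {w w' : W} (h : i.Ok A B w w') : i.Ok A' B' w w' :=
  ⟨h.1, fun y hy => hA (h.2.1 y hy), fun y hy => hB (h.2.2 y hy)⟩

/-- a program may lead from `w` to `w'` -/
def Exec (A B : Set (Fin n × Fin n)) : List (Ins n W) → W → W → Prop
  | [], w, w' => w = w'
  | i :: l, w, w'' => ∃ w', i.Ok A B w w' ∧ Exec A B l w' w''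

theorem exec_append {A B : Set (Fin n × Fin n)} (l₁ l₂ : List (Ins n W)) (w w'' : W) :
    Exec A B (l₁ ++ l₂) w w'' ↔ ∃ w', Exec A B l₁ w w' ∧ Exec A B l₂ w' w'' := by
  induction l₁ generalizing w with
  | nil =>
    constructor
    · intro h
      exact ⟨w, rfl, h⟩
    · rintro ⟨w', h1, h2⟩
      have h1' : w = w' := h1
      subst h1'
      exact h2
  | cons i l ih =>
    constructor
    · rintro ⟨w₁, h1, h2⟩
      obtain ⟨w', h3, h4⟩ := (ih w₁).1 h2
      exact ⟨w', ⟨w₁, h1, h3⟩, h4⟩
    · rintro ⟨w', ⟨w₁, h1, h3⟩, h4⟩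
      exact ⟨w₁, h1, (ih w₁).2 ⟨w', h3, h4⟩⟩

theorem exec_single {A B : Set (Fin n × Fin n)} (i : Ins n W) (w w' : W) :
    Exec A B [i] w w' ↔ i.Ok A B w w' := by
  constructor
  · rintro ⟨w₁, h1, h2⟩
    have h2' : w₁ = w' := h2
    subst h2'
    exact h1
  · intro h
    exact ⟨w', h, rfl⟩

/-- an execution is a sequence of states -/
theorem exec_seq {A B : Set (Fin n × Fin n)} (l : List (Ins n W)) (w w' : W)
    (h : Exec A B l w w') : ∃ ρ : ℕ → W, ρ 0 = w ∧ ρ l.length = w' ∧
      ∀ (t : ℕ) (i : Ins n W), l[t]? = some i → i.Ok A B (ρ t) (ρ (t + 1)) := by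
  induction l generalizing w with
  | nil =>
    have h' : w = w' := h
    subst h'
    refine ⟨fun _ => w, rfl, rfl, ?_⟩
    intro t i hi
    simp at hi
  | cons i l ih =>
    obtain ⟨w₁, h1, h2⟩ := h
    obtain ⟨ρ, hR0, hRl, hR⟩ := ih w₁ h2
    refine ⟨fun t => Nat.casesOn t w (fun t => ρ t), rfl, hRl, ?_⟩
    intro t j hj
    cases t with
    | zero =>
      simp only [List.getElem?_cons_zero, Option.some.injEq] at hj
      subst hj
      show i.Ok A B w (ρ 0)
      rw [hR0]
      exact h1
    | succ t =>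
      rw [List.getElem?_cons_succ] at hj
      exact hR t j hj

theorem seq_exec {A B : Set (Fin n × Fin n)} (l : List (Ins n W)) (ρ : ℕ → W)
    (h : ∀ (t : ℕ) (i : Ins n W), l[t]? = some i → i.Ok A B (ρ t) (ρ (t + 1))) : Exec A B l (ρ 0) (ρ l.length) := by
  induction l generalizing ρ with
  | nil => rfl
  | cons i l ih =>
    refine ⟨ρ 1, h 0 i (by simp), ?_⟩
    have := ih (fun t => ρ (t + 1)) (fun t j hj => h (t + 1) j (by rw [List.getElem?_cons_succ]; exact hj))
    exact this

/-- the arcs which are present -/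
def Pr (G : Fin n → Fin n → Bool) : Set (Fin n × Fin n) := {e | G e.1 e.2 = true}

/-- the arcs which are absent -/
def Ab (G : Fin n → Fin n → Bool) : Set (Fin n × Fin n) := {e | G e.1 e.2 = false}

/-- the machine of a program -/
def mach (s : Fin n) (l : List (Ins n W)) (w₀ : W) (acc : W → Prop) : Mach n W where
  start := w₀
  acc := acc
  v := fun t w => match l[t]? with
    | some i => i.v w
    | none => s
  step := fun t w w' G => ∀ i, l[t]? = some i → i.Ok (Pr G) (Ab G) w w'
  loc := by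
    intro t w w' G G' hG h i hi
    obtain ⟨h1, h2, h3⟩ := h i hi
    rw [hi] at hG
    refine ⟨h1, fun y hy => ?_, fun y hy => ?_⟩
    · have h4 : G (i.v w) y = true := h2 y hy
      have h5 : G (i.v w) y = G' (i.v w) y := (hG y).1
      show G' (i.v w) y = true
      rw [← h5, h4]
    · have h4 : G (i.v w) y = false := h3 y hy
      have h5 : G (i.v w) y = G' (i.v w) y := (hG y).1
      show G' (i.v w) y = false
      rw [← h5, h4]

theorem mach_accepts (s : Fin n) (l : List (Ins n W)) (w₀ : W) (acc : W → Prop)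
    (G : Fin n → Fin n → Bool) (h : (mach s l w₀ acc).Accepts l.length G) :
    ∃ w', Exec (Pr G) (Ab G) l w₀ w' ∧ acc w' := by
  obtain ⟨ρ, ⟨h0, hR⟩, hacc⟩ := h
  refine ⟨ρ l.length, ?_, hacc⟩
  have h1 := seq_exec (A := Pr G) (B := Ab G) l ρ (fun t i hi => by
    have ht : t < l.length := by
      by_contra hc
      rw [List.getElem?_eq_none (by omega)] at hi
      simp at hi
    exact hR t ht i hi)
  have h0' : ρ 0 = w₀ := h0
  rw [h0'] at h1
  exact h1

theorem mach_acceptsUsing (s : Fin n) (l : List (Ins n W)) (w₀ : W) (acc : W → Prop)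
    (G : Fin n → Fin n → Bool) (K : Finset (Fin n × Fin n)) (hK : ∀ e ∈ K, G e.1 e.2 = true)
    (k : ℕ) (hk : K.card ≤ k) (w' : W) (h : Exec (↑K) (Ab G) l w₀ w') (hacc : acc w') :
    (mach s l w₀ acc).AcceptsUsing l.length k G := by
  obtain ⟨ρ, h0, hl, hR⟩ := exec_seq l w₀ w' h
  refine ⟨ρ, K, hk, hK, ?_, ?_⟩
  · show acc (ρ l.length)
    rw [hl]
    exact hacc
  · intro G' hKG' hG'G
    refine ⟨h0, fun t _ i hi => ?_⟩
    refine Ins.ok_mono ?_ ?_ (hR t i hi)
    · intro e he
      exact hKG' e he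
    · intro e he
      have h1 : G e.1 e.2 = false := he
      have h2 := hG'G e.1 e.2
      rw [h1] at h2
      show G' e.1 e.2 = false
      cases hh : G' e.1 e.2
      · rfl
      · rw [hh] at h2
        exact absurd h2 (by decide)

/-! ### balls -/

/-- the vertices with a walk of at most `k` arcs of `A` from `s` -/
def Rk (A : Set (Fin n × Fin n)) (s : Fin n) : ℕ → Set (Fin n)
  | 0 => {s}
  | k + 1 => Rk A s k ∪ {y | ∃ x ∈ Rk A s k, (x, y) ∈ A}

theorem Rk_succ_sub (A : Set (Fin n × Fin n)) (s : Fin n) (k : ℕ) : Rk A s k ⊆ Rk A s (k + 1) :=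
  fun _ h => Or.inl h

theorem Rk_mono (A : Set (Fin n × Fin n)) (s : Fin n) {k l : ℕ} (h : k ≤ l) :
    Rk A s k ⊆ Rk A s l := by
  induction h with
  | refl => exact subset_rfl
  | step _ ih => exact ih.trans (Rk_succ_sub A s _)

theorem mem_Rk_self (A : Set (Fin n × Fin n)) (s : Fin n) (k : ℕ) : s ∈ Rk A s k :=
  Rk_mono A s (Nat.zero_le k) rfl

theorem Rk_sub {A A' : Set (Fin n × Fin n)} (h : A ⊆ A') (s : Fin n) (k : ℕ) :
    Rk A s k ⊆ Rk A' s k := by
  induction k with
  | zero => exact subset_rfl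
  | succ k ih =>
    rintro y (hy | ⟨x, hx, hxy⟩)
    · exact Or.inl (ih hy)
    · exact Or.inr ⟨x, ih hx, h hxy⟩

theorem hasWalk_of_reach (G : Fin n → Fin n → Bool) (s t : Fin n) (h : SharpTS.Reach G s t) :
    ∃ l, MTB.HasWalk G l s t := by
  unfold SharpTS.Reach at h
  induction h with
  | refl => exact ⟨0, rfl⟩
  | tail _ hG ih =>
    obtain ⟨l, hl⟩ := ih
    exact ⟨l + 1, _, hl, hG⟩

/-- reachable vertices are in the ball of radius `n - 1` -/
theorem mem_Rk_of_reach (G : Fin n → Fin n → Bool) (s t : Fin n) (h : SharpTS.Reach G s t) :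
    t ∈ Rk (Pr G) s (n - 1) := by
  obtain ⟨d, hd⟩ := hasWalk_of_reach G s t h
  obtain ⟨l, p, -, hinj, h0, hl, hp⟩ := MTX.UExplAux.exists_short G s t hd
  have hcard : l + 1 ≤ n := by
    have h1 : ((Finset.range (l + 1)).image p).card = l + 1 := by
      rw [Finset.card_image_of_injOn, Finset.card_range]
      intro a ha b hb hab
      have ha' : a ≤ l := by
        have := Finset.mem_range.1 (Finset.mem_coe.1 ha)
        omega
      have hb' : b ≤ l := by
        have := Finset.mem_range.1 (Finset.mem_coe.1 hb)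
        omega
      exact hinj (Set.mem_Iic.2 ha') (Set.mem_Iic.2 hb') hab
    have h2 := Finset.card_le_univ ((Finset.range (l + 1)).image p)
    rw [h1, Fintype.card_fin] at h2
    exact h2
  have key : ∀ a ≤ l, p a ∈ Rk (Pr G) s a := by
    intro a
    induction a with
    | zero =>
      intro _
      rw [h0]
      rfl
    | succ a ih =>
      intro ha
      exact Or.inr ⟨p a, ih (by omega), hp a (by omega)⟩
  have h1 := key l le_rfl
  rw [hl] at h1
  exact Rk_mono _ s (by omega) h1

/-- members of a ball are reachable -/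
theorem reach_of_mem_Rk (G : Fin n → Fin n → Bool) (s t : Fin n) (k : ℕ)
    (h : t ∈ Rk (Pr G) s k) : SharpTS.Reach G s t := by
  induction k generalizing t with
  | zero =>
    have h' : t = s := h
    subst h'
    exact Relation.ReflTransGen.refl
  | succ k ih =>
    rcases h with h | ⟨x, hx, hxt⟩
    · exact ih t h
    · exact Relation.ReflTransGen.tail (ih x hx) hxt

open Classical in
/-- the arcs of a breadth first tree -/
theorem exists_tree (A : Set (Fin n × Fin n)) (s : Fin n) :
    ∃ K : Finset (Fin n × Fin n), K.card ≤ n - 1 ∧ (∀ e ∈ K, e ∈ A) ∧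
      ∀ k, Rk (↑K) s k = Rk A s k := by
  have hch : ∀ v : Fin n, ∃ u : Fin n, ∀ k, v ∉ Rk A s k → v ∈ Rk A s (k + 1) →
      u ∈ Rk A s k ∧ (u, v) ∈ A := by
    intro v
    by_cases hv : ∃ k, v ∉ Rk A s k ∧ v ∈ Rk A s (k + 1)
    · obtain ⟨k, hk1, hk2⟩ := hv
      rcases hk2 with hk2 | ⟨u, hu, huv⟩
      · exact absurd hk2 hk1
      · refine ⟨u, fun k' hk1' hk2' => ?_⟩
        have hkk : k' = k := by
          rcases lt_trichotomy k' k with h | h | h
          · exact absurd (Rk_mono A s (show k' + 1 ≤ k by omega) hk2') hk1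
          · exact h
          · exact absurd (Rk_mono A s (show k + 1 ≤ k' by omega) (Or.inr ⟨u, hu, huv⟩)) hk1'
        subst hkk
        exact ⟨hu, huv⟩
    · refine ⟨s, fun k hk1 hk2 => absurd ⟨k, hk1, hk2⟩ hv⟩
  choose π hπ using hch
  refine ⟨(Finset.univ.filter (fun v => ∃ k, v ∉ Rk A s k ∧ v ∈ Rk A s (k + 1))).image
    (fun v => (π v, v)), ?_, ?_, ?_⟩
  · refine Finset.card_image_le.trans ?_
    have h1 : (Finset.univ.filter (fun v => ∃ k, v ∉ Rk A s k ∧ v ∈ Rk A s (k + 1))) ⊆
        Finset.univ.erase s := by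
      intro v hv
      rw [Finset.mem_filter] at hv
      obtain ⟨-, k, hk, -⟩ := hv
      refine Finset.mem_erase.2 ⟨?_, Finset.mem_univ v⟩
      rintro rfl
      exact hk (mem_Rk_self A v k)
    refine (Finset.card_le_card h1).trans ?_
    rw [Finset.card_erase_of_mem (Finset.mem_univ s), Finset.card_univ, Fintype.card_fin]
  · intro e he
    rw [Finset.mem_image] at he
    obtain ⟨v, hv, rfl⟩ := he
    rw [Finset.mem_filter] at hv
    obtain ⟨-, k, hk1, hk2⟩ := hv
    exact (hπ v k hk1 hk2).2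
  · intro k
    refine Set.Subset.antisymm (Rk_sub ?_ s k) ?_
    · intro e he
      rw [Finset.mem_coe, Finset.mem_image] at he
      obtain ⟨v, hv, rfl⟩ := he
      rw [Finset.mem_filter] at hv
      obtain ⟨-, k, hk1, hk2⟩ := hv
      exact (hπ v k hk1 hk2).2
    · induction k with
      | zero => exact subset_rfl
      | succ k ih =>
        intro v hv
        by_cases hvk : v ∈ Rk A s k
        · exact Or.inl (ih hvk)
        · refine Or.inr ⟨π v, ih (hπ v k hvk hv).1, ?_⟩
          rw [Finset.mem_coe, Finset.mem_image]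
          exact ⟨v, Finset.mem_filter.2 ⟨Finset.mem_univ v, k, hvk, hv⟩, rfl⟩

/-! ### the states and the instructions -/

/-- the states of the machine -/
structure St (n : ℕ) where
  c : Fin (n + 1)
  d : Fin (n + 1)
  m : Fin (n + 1)
  b : Bool
  g : Bool
  x : Fin n

/-- states are tuples -/
def stEquiv (n : ℕ) : St n ≃ Fin (n + 1) × Fin (n + 1) × Fin (n + 1) × Bool × Bool × Fin n where
  toFun w := (w.c, w.d, w.m, w.b, w.g, w.x)
  invFun p := ⟨p.1, p.2.1, p.2.2.1, p.2.2.2.1, p.2.2.2.2.1, p.2.2.2.2.2⟩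
  left_inv _ := rfl
  right_inv _ := rfl

instance stFintype (n : ℕ) : Fintype (St n) := Fintype.ofEquiv _ (stEquiv n).symm

theorem st_card (n : ℕ) :
    Fintype.card (St n) = (n + 1) * ((n + 1) * ((n + 1) * (2 * (2 * n)))) := by
  rw [Fintype.card_congr (stEquiv n)]
  simp

/-- move to `s` -/
def setX (s : Fin n) : Ins n (St n) where
  v := fun _ => s
  rel := fun w w' => w' = {w with x := s}
  pos := fun _ _ => none
  neg := fun _ _ => none

/-- stay or walk along an arc -/
def go : Ins n (St n) where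
  v := fun w => w.x
  rel := fun w w' => ∃ y, w' = {w with x := y}
  pos := fun w w' => if w'.x = w.x then none else some w'.x
  neg := fun _ _ => none

/-- guess the bit `b` -/
def guessB (s : Fin n) : Ins n (St n) where
  v := fun _ => s
  rel := fun w w' => ∃ b, w' = {w with b := b}
  pos := fun _ _ => none
  neg := fun _ _ => none

/-- guess the bit `g` -/
def guessG (s : Fin n) : Ins n (St n) where
  v := fun _ => s
  rel := fun w w' => ∃ g, w' = {w with g := g}
  pos := fun _ _ => none
  neg := fun _ _ => none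

/-- if `b` then the walk has reached `v`, and `d` increases -/
def updD (v : Fin n) : Ins n (St n) where
  v := fun _ => v
  rel := fun w w' => (w.b = true → w.x = v) ∧
    ∃ d : Fin (n + 1), d.val = w.d.val + w.b.toNat ∧ w' = {w with d := d, m := 0}
  pos := fun _ _ => none
  neg := fun _ _ => none

/-- if `g` then the walk has reached `u` and `m` increases, and if not `b` then `u ≠ v` and the arc
`(u, v)` is absent -/
def updM (v u : Fin n) : Ins n (St n) where
  v := fun _ => u
  rel := fun w w' => (w.g = true → w.x = u ∧ (w.b = false → u ≠ v)) ∧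
    ∃ m : Fin (n + 1), m.val = w.m.val + w.g.toNat ∧ w' = {w with m := m}
  pos := fun _ _ => none
  neg := fun w _ => if w.g = true ∧ w.b = false then some v else none

/-- if not `b` then `m = c` -/
def chkM (s : Fin n) : Ins n (St n) where
  v := fun _ => s
  rel := fun w w' => (w.b = false → w.m = w.c) ∧ w' = w
  pos := fun _ _ => none
  neg := fun _ _ => none

/-- `d := 0` -/
def zeroD (s : Fin n) : Ins n (St n) where
  v := fun _ => s
  rel := fun w w' => w' = {w with d := 0}
  pos := fun _ _ => none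
  neg := fun _ _ => none

/-- `c := d` -/
def cpyC (s : Fin n) : Ins n (St n) where
  v := fun _ => s
  rel := fun w w' => w' = {w with c := w.d}
  pos := fun _ _ => none
  neg := fun _ _ => none

/-- `b := false`, `m := 0` -/
def setF (s : Fin n) : Ins n (St n) where
  v := fun _ => s
  rel := fun w w' => w' = {w with b := false, m := 0}
  pos := fun _ _ => none
  neg := fun _ _ => none

/-- if there are no arcs to check, an instruction is just its relation -/
theorem ok_of_none {i : Ins n W} {A B : Set (Fin n × Fin n)} {w w' : W}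
    (h : i.rel w w') (h1 : i.pos w w' = none) (h2 : i.neg w w' = none) : i.Ok A B w w' :=
  ⟨h, fun y hy => by rw [h1] at hy; exact absurd hy (by simp),
    fun y hy => by rw [h2] at hy; exact absurd hy (by simp)⟩

/-! ### walks -/

/-- guess a walk of `k` steps from `s` -/
def walk (s : Fin n) : ℕ → List (Ins n (St n))
  | 0 => [setX s]
  | k + 1 => walk s k ++ [go]

theorem walk_length (s : Fin n) (k : ℕ) : (walk s k).length = k + 1 := by
  induction k with
  | zero => rfl
  | succ k ih =>
    show (walk s k ++ [go]).length = k + 1 + 1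
    rw [List.length_append, ih]
    rfl

theorem walk_sound {A B : Set (Fin n × Fin n)} (s : Fin n) (k : ℕ) (w w' : St n)
    (h : Exec A B (walk s k) w w') : ∃ y ∈ Rk A s k, w' = {w with x := y} := by
  induction k generalizing w' with
  | zero =>
    have h1 := (exec_single _ _ _).1 h
    exact ⟨s, rfl, h1.1⟩
  | succ k ih =>
    obtain ⟨w1, h1, h2⟩ := (exec_append _ _ _ _).1 h
    obtain ⟨y, hy, rfl⟩ := ih w1 h1
    obtain ⟨⟨z, rfl⟩, h3, -⟩ := (exec_single _ _ _).1 h2
    refine ⟨z, ?_, rfl⟩
    by_cases hzy : z = y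
    · rw [hzy]
      exact Or.inl hy
    · refine Or.inr ⟨y, hy, ?_⟩
      exact h3 z (by simp [go, hzy])

theorem walk_complete {A B : Set (Fin n × Fin n)} (s : Fin n) (k : ℕ) (w : St n) (y : Fin n)
    (hy : y ∈ Rk A s k) : Exec A B (walk s k) w {w with x := y} := by
  induction k generalizing y with
  | zero =>
    have hy' : y = s := hy
    subst hy'
    exact (exec_single _ _ _).2 (ok_of_none rfl rfl rfl)
  | succ k ih =>
    refine (exec_append _ _ _ _).2 ?_
    rcases hy with hy | ⟨x, hx, hxy⟩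
    · refine ⟨_, ih y hy, (exec_single _ _ _).2 ⟨⟨y, rfl⟩, ?_, ?_⟩⟩
      · intro z hz
        simp [go] at hz
      · intro z hz
        simp [go] at hz
    · refine ⟨_, ih x hx, (exec_single _ _ _).2 ⟨⟨y, rfl⟩, ?_, ?_⟩⟩
      · intro z hz
        by_cases hyx : y = x
        · simp [go, hyx] at hz
        · simp [go, hyx] at hz
          rw [← hz]
          exact hxy
      · intro z hz
        simp [go] at hz

/-! ### the inner loop -/

/-- guess whether `u` is in the ball of radius `i` -/
def stepU (s v : Fin n) (i : ℕ) (u : Fin n) : List (Ins n (St n)) :=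
  guessG s :: (walk s i ++ [updM v u])

/-- all vertices `u` in the list `L` -/
def loopU (s v : Fin n) (i : ℕ) (L : List (Fin n)) : List (Ins n (St n)) :=
  L.flatMap (stepU s v i)

theorem stepU_sound {A B : Set (Fin n × Fin n)} (s v : Fin n) (i : ℕ) (u : Fin n) (w w' : St n)
    (h : Exec A B (stepU s v i u) w w') : w'.b = w.b ∧ w'.c = w.c ∧ w'.d = w.d ∧
      (w'.m.val = w.m.val ∨ (w'.m.val = w.m.val + 1 ∧ u ∈ Rk A s i ∧
        (w.b = false → u ≠ v ∧ (u, v) ∈ B))) := by
  obtain ⟨w1, ⟨⟨g, rfl⟩, -, -⟩, h1⟩ := h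
  obtain ⟨w2, h2, h3⟩ := (exec_append _ _ _ _).1 h1
  obtain ⟨y, hy, rfl⟩ := walk_sound s i _ _ h2
  obtain ⟨⟨h4, m, hm, rfl⟩, -, h5⟩ := (exec_single _ _ _).1 h3
  refine ⟨rfl, rfl, rfl, ?_⟩
  cases g with
  | false =>
    left
    exact hm
  | true =>
    right
    have h6 := h4 rfl
    refine ⟨hm, ?_, fun hb => ⟨h6.2 hb, ?_⟩⟩
    · have h7 : y = u := h6.1
      rw [← h7]
      exact hy
    · refine h5 v ?_
      have hb' : w.b = false := hb
      simp [updM, hb']

open Classical in
theorem loopU_sound {A B : Set (Fin n × Fin n)} (s v : Fin n) (i : ℕ) (L : List (Fin n))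
    (w w' : St n) (h : Exec A B (loopU s v i L) w w') : w'.b = w.b ∧ w'.c = w.c ∧ w'.d = w.d ∧
      w'.m.val ≤ w.m.val + L.countP (fun u => decide (u ∈ Rk A s i ∧
        (w.b = false → u ≠ v ∧ (u, v) ∈ B))) := by
  induction L generalizing w with
  | nil =>
    have h' : w = w' := h
    subst h'
    exact ⟨rfl, rfl, rfl, Nat.le_add_right _ _⟩
  | cons u L ih =>
    have h' : Exec A B (stepU s v i u ++ loopU s v i L) w w' := h
    obtain ⟨w1, h1, h2⟩ := (exec_append _ _ _ _).1 h'
    obtain ⟨e1, e2, e3, e4⟩ := stepU_sound s v i u w w1 h1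
    obtain ⟨f1, f2, f3, f4⟩ := ih w1 h2
    refine ⟨f1.trans e1, f2.trans e2, f3.trans e3, ?_⟩
    rw [e1] at f4
    rw [List.countP_cons]
    rcases e4 with e4 | ⟨e4, e5, e6⟩
    · omega
    · rw [if_pos (decide_eq_true (show u ∈ Rk A s i ∧ (w.b = false → u ≠ v ∧ (u, v) ∈ B) from
        ⟨e5, e6⟩))]
      omega

open Classical in
theorem loopU_complete {A B : Set (Fin n × Fin n)} (s v : Fin n) (i : ℕ) (L : List (Fin n))
    (w : St n) (hb : w.b = false → ∀ u ∈ Rk A s i, u ≠ v ∧ (u, v) ∈ B)
    (hL : w.m.val + L.length ≤ n) : ∃ w', Exec A B (loopU s v i L) w w' ∧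
      w'.b = w.b ∧ w'.c = w.c ∧ w'.d = w.d ∧
      w'.m.val = w.m.val + L.countP (fun u => decide (u ∈ Rk A s i)) := by
  induction L generalizing w with
  | nil => exact ⟨w, rfl, rfl, rfl, rfl, rfl⟩
  | cons u L ih =>
    rw [List.length_cons] at hL
    by_cases hu : u ∈ Rk A s i
    · obtain ⟨w', h1, h2, h3, h4, h5⟩ := ih
        {w with g := true, x := u, m := ⟨w.m.val + 1, by omega⟩} hb
        (by show w.m.val + 1 + L.length ≤ n; omega)
      refine ⟨w', ?_, h2, h3, h4, ?_⟩
      · show Exec A B (stepU s v i u ++ loopU s v i L) w w'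
        refine (exec_append _ _ _ _).2 ⟨_, ?_, h1⟩
        refine ⟨{w with g := true}, ok_of_none ⟨true, rfl⟩ rfl rfl, ?_⟩
        refine (exec_append _ _ _ _).2 ⟨_, walk_complete s i _ u hu, (exec_single _ _ _).2 ?_⟩
        refine ⟨⟨fun _ => ⟨rfl, fun hbb => (hb hbb u hu).1⟩, ⟨w.m.val + 1, by omega⟩, rfl, rfl⟩,
          fun y hy => absurd hy (by simp [updM]), ?_⟩
        intro y hy
        cases hbb : w.b with
        | true => simp [updM, hbb] at hy
        | false =>
          simp [updM, hbb] at hy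
          rw [← hy]
          exact (hb hbb u hu).2
      · rw [List.countP_cons, if_pos (decide_eq_true hu)]
        have h5' : w'.m.val = w.m.val + 1 + L.countP (fun u => decide (u ∈ Rk A s i)) := h5
        omega
    · obtain ⟨w', h1, h2, h3, h4, h5⟩ := ih {w with g := false, x := s} hb
        (by show w.m.val + L.length ≤ n; omega)
      refine ⟨w', ?_, h2, h3, h4, ?_⟩
      · show Exec A B (stepU s v i u ++ loopU s v i L) w w'
        refine (exec_append _ _ _ _).2 ⟨_, ?_, h1⟩
        refine ⟨{w with g := false}, ok_of_none ⟨false, rfl⟩ rfl rfl, ?_⟩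
        refine (exec_append _ _ _ _).2 ⟨_, walk_complete s i _ s (mem_Rk_self A s i),
          (exec_single _ _ _).2 ?_⟩
        refine ok_of_none ⟨fun hg => absurd hg (by simp), w.m, rfl, rfl⟩ rfl ?_
        simp [updM]
      · rw [List.countP_cons, if_neg (by simpa using hu)]
        have h5' : w'.m.val = w.m.val + L.countP (fun u => decide (u ∈ Rk A s i)) := h5
        omega

/-! ### sizes of balls -/

open Classical in
/-- the size of a ball -/
noncomputable def cR (A : Set (Fin n × Fin n)) (s : Fin n) (k : ℕ) : ℕ :=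
  (List.finRange n).countP (fun u => decide (u ∈ Rk A s k))

theorem cR_zero (A : Set (Fin n × Fin n)) (s : Fin n) : cR A s 0 = 1 := by
  classical
  have h1 : (List.finRange n).count s = 1 :=
    List.count_eq_one_of_mem (List.nodup_finRange n) (List.mem_finRange s)
  rw [← h1]
  unfold cR List.count
  refine List.countP_congr (fun u _ => ?_)
  rw [decide_eq_true_iff, beq_iff_eq]
  exact Iff.rfl

theorem cR_le (A : Set (Fin n × Fin n)) (s : Fin n) (k : ℕ) : cR A s k ≤ n := by
  classical
  exact List.countP_le_length.trans (by rw [List.length_finRange])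

theorem all_of_countP_le {α : Type} (L : List α) (p q : α → Bool)
    (hpq : ∀ a, p a = true → q a = true) (h : L.countP q ≤ L.countP p) :
    ∀ a ∈ L, q a = true → p a = true := by
  induction L with
  | nil =>
    intro a ha
    exact absurd ha (by simp)
  | cons x L ih =>
    rw [List.countP_cons, List.countP_cons] at h
    have hle : L.countP p ≤ L.countP q := List.countP_mono_left (fun a _ => hpq a)
    intro a ha hqa
    rcases List.mem_cons.1 ha with rfl | ha
    · by_contra hpa
      rw [if_pos hqa, if_neg hpa] at h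
      omega
    · refine ih ?_ a ha hqa
      by_cases hpx : p x = true
      · rw [if_pos hpx, if_pos (hpq x hpx)] at h
        omega
      · rw [if_neg hpx] at h
        omega

/-- if `m = c` after the inner loop then the vertices of the ball pass the test -/
theorem loopU_all {A B : Set (Fin n × Fin n)} (s v : Fin n) (i : ℕ) (w w' : St n)
    (h : Exec A B (loopU s v i (List.finRange n)) w w') (hm : w.m = 0) (hb : w.b = false)
    (hc : w.c.val = cR A s i) (hmc : w'.m = w'.c) :
    ∀ u ∈ Rk A s i, u ≠ v ∧ (u, v) ∈ B := by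
  classical
  obtain ⟨-, h2, -, h4⟩ := loopU_sound s v i _ w w' h
  rw [hmc, h2, hc, hm] at h4
  have h5 : (List.finRange n).countP (fun u => decide (u ∈ Rk A s i)) ≤
      (List.finRange n).countP (fun u => decide (u ∈ Rk A s i ∧
        (w.b = false → u ≠ v ∧ (u, v) ∈ B))) := by
    have h6 : cR A s i ≤ 0 + (List.finRange n).countP (fun u => decide (u ∈ Rk A s i ∧
        (w.b = false → u ≠ v ∧ (u, v) ∈ B))) := h4
    rw [zero_add] at h6
    unfold cR at h6
    exact h6
  intro u hu
  have h7 := all_of_countP_le _ _ _ (fun a ha => by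
    have ha' := of_decide_eq_true ha
    exact decide_eq_true ha'.1) h5 u (List.mem_finRange u) (decide_eq_true hu)
  exact (of_decide_eq_true h7).2 hb

/-! ### one vertex of the outer loop -/

/-- guess whether `v` is in the ball of radius `i + 1` -/
def blockV (s : Fin n) (i : ℕ) (v : Fin n) : List (Ins n (St n)) :=
  guessB s :: (walk s (i + 1) ++ (updD v :: (loopU s v i (List.finRange n) ++ [chkM s])))

open Classical in
theorem blockV_sound {A B : Set (Fin n × Fin n)} (hAB : ∀ e ∈ A, e ∉ B) (s : Fin n) (i : ℕ)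
    (v : Fin n) (w w' : St n) (hc : w.c.val = cR A s i) (h : Exec A B (blockV s i v) w w') :
    w'.c = w.c ∧ w'.d.val = w.d.val + (if decide (v ∈ Rk A s (i + 1)) = true then 1 else 0) := by
  obtain ⟨w1, ⟨⟨b, rfl⟩, -, -⟩, h1⟩ := h
  obtain ⟨w2, h2, w3, ⟨⟨h3, d, hd, rfl⟩, -, -⟩, h4⟩ := (exec_append _ _ _ _).1 h1
  obtain ⟨y, hy, rfl⟩ := walk_sound s (i + 1) _ _ h2
  obtain ⟨w4, h5, h6⟩ := (exec_append _ _ _ _).1 h4
  obtain ⟨⟨h7, rfl⟩, -, -⟩ := (exec_single _ _ _).1 h6
  obtain ⟨e1, e2, e3, -⟩ := loopU_sound s v i _ _ _ h5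
  refine ⟨e2, ?_⟩
  rw [e3]
  cases b with
  | true =>
    have h8 : y = v := h3 rfl
    rw [h8] at hy
    rw [if_pos (decide_eq_true hy)]
    exact hd
  | false =>
    have h8 := loopU_all s v i _ _ h5 rfl rfl hc (h7 e1)
    have h9 : v ∉ Rk A s (i + 1) := by
      rintro (hv | ⟨u, hu, huv⟩)
      · exact (h8 v hv).1 rfl
      · exact hAB _ huv (h8 u hu).2
    rw [if_neg (by simpa using h9)]
    exact hd

open Classical in
theorem blockV_complete {A A' B : Set (Fin n × Fin n)} (s : Fin n) (i : ℕ) (v : Fin n)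
    (hA : ∀ k, Rk A s k = Rk A' s k) (hB : ∀ e, e ∉ A' → e ∈ B) (w : St n)
    (hc : w.c.val = cR A s i) (hd : w.d.val + 1 ≤ n) :
    ∃ w', Exec A B (blockV s i v) w w' ∧ w'.c = w.c ∧
      w'.d.val = w.d.val + (if decide (v ∈ Rk A s (i + 1)) = true then 1 else 0) := by
  by_cases hv : v ∈ Rk A s (i + 1)
  · obtain ⟨w', h1, h2, h3, h4, -⟩ := loopU_complete (B := B) s v i (List.finRange n)
      ({w with b := true, x := v, d := ⟨w.d.val + 1, by omega⟩, m := 0} : St n)
      (fun hb => absurd hb (by simp)) (by rw [List.length_finRange]; simp)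
    refine ⟨w', ?_, h3, ?_⟩
    · refine ⟨{w with b := true}, ok_of_none ⟨true, rfl⟩ rfl rfl, ?_⟩
      refine (exec_append _ _ _ _).2 ⟨_, walk_complete s (i + 1) _ v hv, ?_⟩
      refine ⟨_, ok_of_none ⟨fun _ => rfl, ⟨w.d.val + 1, by omega⟩, rfl, rfl⟩ rfl rfl, ?_⟩
      refine (exec_append _ _ _ _).2 ⟨w', h1, (exec_single _ _ _).2 ?_⟩
      refine ok_of_none ⟨fun hb => ?_, rfl⟩ rfl rfl
      rw [h2] at hb
      exact absurd hb (by simp)
    · rw [h4, if_pos (decide_eq_true hv)]
  · have hall : ∀ u ∈ Rk A s i, u ≠ v ∧ (u, v) ∈ B := by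
      intro u hu
      refine ⟨?_, hB _ ?_⟩
      · rintro rfl
        exact hv (Or.inl hu)
      · intro huv
        rw [hA] at hu hv
        exact hv (Or.inr ⟨u, hu, huv⟩)
    obtain ⟨w', h1, h2, h3, h4, h5⟩ := loopU_complete (B := B) s v i (List.finRange n)
      ({w with b := false, x := s, m := 0} : St n)
      (fun _ => hall) (by rw [List.length_finRange]; simp)
    refine ⟨w', ?_, h3, ?_⟩
    · refine ⟨{w with b := false}, ok_of_none ⟨false, rfl⟩ rfl rfl, ?_⟩
      refine (exec_append _ _ _ _).2 ⟨_, walk_complete s (i + 1) _ s (mem_Rk_self A s _), ?_⟩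
      refine ⟨_, ok_of_none ⟨fun hb => absurd hb (by simp), w.d, rfl, rfl⟩ rfl rfl, ?_⟩
      refine (exec_append _ _ _ _).2 ⟨w', h1, (exec_single _ _ _).2 ?_⟩
      refine ok_of_none ⟨fun _ => ?_, rfl⟩ rfl rfl
      refine Fin.ext ?_
      rw [h3, h5]
      show 0 + _ = w.c.val
      rw [zero_add, hc]
      rfl
    · rw [h4, if_neg (by simpa using hv)]
      rfl

/-! ### a phase -/

open Classical in
theorem loopV_sound {A B : Set (Fin n × Fin n)} (hAB : ∀ e ∈ A, e ∉ B) (s : Fin n) (i : ℕ)
    (L : List (Fin n)) (w w' : St n) (hc : w.c.val = cR A s i)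
    (h : Exec A B (L.flatMap (blockV s i)) w w') :
    w'.c = w.c ∧ w'.d.val = w.d.val + L.countP (fun v => decide (v ∈ Rk A s (i + 1))) := by
  induction L generalizing w with
  | nil =>
    have h' : w = w' := h
    subst h'
    exact ⟨rfl, rfl⟩
  | cons v L ih =>
    rw [List.flatMap_cons] at h
    obtain ⟨w1, h1, h2⟩ := (exec_append _ _ _ _).1 h
    obtain ⟨e1, e2⟩ := blockV_sound hAB s i v w w1 hc h1
    obtain ⟨f1, f2⟩ := ih w1 (by rw [e1]; exact hc) h2
    refine ⟨f1.trans e1, ?_⟩
    rw [f2, e2, List.countP_cons]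
    omega

open Classical in
theorem loopV_complete {A A' B : Set (Fin n × Fin n)} (s : Fin n) (i : ℕ)
    (hA : ∀ k, Rk A s k = Rk A' s k) (hB : ∀ e, e ∉ A' → e ∈ B) (L : List (Fin n)) (w : St n)
    (hc : w.c.val = cR A s i) (hL : w.d.val + L.length ≤ n) :
    ∃ w', Exec A B (L.flatMap (blockV s i)) w w' ∧ w'.c = w.c ∧
      w'.d.val = w.d.val + L.countP (fun v => decide (v ∈ Rk A s (i + 1))) := by
  induction L generalizing w with
  | nil => exact ⟨w, rfl, rfl, rfl⟩
  | cons v L ih =>
    rw [List.length_cons] at hL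
    obtain ⟨w1, h1, h2, h3⟩ := blockV_complete s i v hA hB w hc (by omega)
    have h4 : w1.d.val ≤ w.d.val + 1 := by
      rw [h3]
      split_ifs <;> omega
    obtain ⟨w', h5, h6, h7⟩ := ih w1 (by rw [h2]; exact hc) (by omega)
    refine ⟨w', ?_, h6.trans h2, ?_⟩
    · rw [List.flatMap_cons]
      exact (exec_append _ _ _ _).2 ⟨w1, h1, h5⟩
    · rw [h7, h3, List.countP_cons]
      omega

/-- compute the size of the ball of radius `i + 1` from that of the ball of radius `i` -/
def phase (s : Fin n) (i : ℕ) : List (Ins n (St n)) :=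
  zeroD s :: ((List.finRange n).flatMap (blockV s i) ++ [cpyC s])

theorem phase_sound {A B : Set (Fin n × Fin n)} (hAB : ∀ e ∈ A, e ∉ B) (s : Fin n) (i : ℕ)
    (w w' : St n) (hc : w.c.val = cR A s i) (h : Exec A B (phase s i) w w') :
    w'.c.val = cR A s (i + 1) := by
  obtain ⟨w1, ⟨h0, -, -⟩, h1⟩ := h
  have h0' : w1 = {w with d := 0} := h0
  subst h0'
  obtain ⟨w2, h2, h3⟩ := (exec_append _ _ _ _).1 h1
  obtain ⟨h4, -, -⟩ := (exec_single _ _ _).1 h3
  have h4' : w' = {w2 with c := w2.d} := h4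
  subst h4'
  obtain ⟨-, e2⟩ := loopV_sound hAB s i _ ({w with d := 0} : St n) _ hc h2
  show w2.d.val = _
  rw [e2]
  show 0 + _ = _
  rw [zero_add]
  rfl

theorem phase_complete {A A' B : Set (Fin n × Fin n)} (s : Fin n) (i : ℕ)
    (hA : ∀ k, Rk A s k = Rk A' s k) (hB : ∀ e, e ∉ A' → e ∈ B) (w : St n)
    (hc : w.c.val = cR A s i) :
    ∃ w', Exec A B (phase s i) w w' ∧ w'.c.val = cR A s (i + 1) := by
  obtain ⟨w', h1, -, h3⟩ := loopV_complete s i hA hB (List.finRange n)
    ({w with d := 0} : St n) hc (by rw [List.length_finRange]; simp)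
  refine ⟨{w' with c := w'.d}, ?_, ?_⟩
  · refine ⟨_, ok_of_none rfl rfl rfl, (exec_append _ _ _ _).2 ⟨w', h1, (exec_single _ _ _).2 ?_⟩⟩
    exact ok_of_none rfl rfl rfl
  · show w'.d.val = _
    rw [h3]
    show 0 + _ = _
    rw [zero_add]
    rfl

/-! ### the program -/

/-- the first `k` phases -/
def phases (s : Fin n) : ℕ → List (Ins n (St n))
  | 0 => []
  | k + 1 => phases s k ++ phase s k

theorem phases_sound {A B : Set (Fin n × Fin n)} (hAB : ∀ e ∈ A, e ∉ B) (s : Fin n) (k : ℕ)
    (w w' : St n) (hc : w.c.val = 1) (h : Exec A B (phases s k) w w') :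
    w'.c.val = cR A s k := by
  induction k generalizing w' with
  | zero =>
    have h' : w = w' := h
    subst h'
    rw [cR_zero]
    exact hc
  | succ k ih =>
    obtain ⟨w1, h1, h2⟩ := (exec_append _ _ _ _).1 h
    exact phase_sound hAB s k w1 w' (ih w1 h1) h2

theorem phases_complete {A A' B : Set (Fin n × Fin n)} (s : Fin n)
    (hA : ∀ k, Rk A s k = Rk A' s k) (hB : ∀ e, e ∉ A' → e ∈ B) (k : ℕ) (w : St n)
    (hc : w.c.val = 1) :
    ∃ w', Exec A B (phases s k) w w' ∧ w'.c.val = cR A s k := by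
  induction k with
  | zero =>
    refine ⟨w, rfl, ?_⟩
    rw [cR_zero]
    exact hc
  | succ k ih =>
    obtain ⟨w1, h1, h2⟩ := ih
    obtain ⟨w', h3, h4⟩ := phase_complete s k hA hB w1 h2
    exact ⟨w', (exec_append _ _ _ _).2 ⟨w1, h1, h3⟩, h4⟩

/-- the program -/
def prog (s t : Fin n) : List (Ins n (St n)) :=
  phases s (n - 1) ++ (setF s :: loopU s t (n - 1) (List.finRange n))

/-- the first state -/
def st0 (s : Fin n) : St n := ⟨⟨1, by have := s.pos; omega⟩, 0, 0, false, false, s⟩

theorem prog_sound {A B : Set (Fin n × Fin n)} (hAB : ∀ e ∈ A, e ∉ B) (s t : Fin n)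
    (w' : St n) (h : Exec A B (prog s t) (st0 s) w') (hacc : w'.m = w'.c) :
    t ∉ Rk A s (n - 1) := by
  obtain ⟨w1, h1, w2, ⟨h2, -, -⟩, h3⟩ := (exec_append _ _ _ _).1 h
  have h2' : w2 = {w1 with b := false, m := 0} := h2
  subst h2'
  have h4 := phases_sound hAB s (n - 1) _ _ rfl h1
  intro ht
  exact (loopU_all s t (n - 1) _ _ h3 rfl rfl h4 hacc t ht).1 rfl

theorem prog_complete {A A' B : Set (Fin n × Fin n)} (s t : Fin n)
    (hA : ∀ k, Rk A s k = Rk A' s k) (hB : ∀ e, e ∉ A' → e ∈ B)
    (ht : ∀ k, t ∉ Rk A' s k) :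
    ∃ w', Exec A B (prog s t) (st0 s) w' ∧ w'.m = w'.c := by
  obtain ⟨w1, h1, h2⟩ := phases_complete s hA hB (n - 1) (st0 s) rfl
  obtain ⟨w', h3, -, h5, -, h7⟩ := loopU_complete (A := A) (B := B) s t (n - 1) (List.finRange n)
    ({w1 with b := false, m := 0} : St n) (fun _ u hu => by
      rw [hA] at hu
      refine ⟨?_, hB _ ?_⟩
      · rintro rfl
        exact ht _ hu
      · intro hut
        exact ht (n - 1 + 1) (Or.inr ⟨u, hu, hut⟩)) (by rw [List.length_finRange]; simp)
  refine ⟨w', ?_, ?_⟩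
  · exact (exec_append _ _ _ _).2 ⟨w1, h1, _, ok_of_none rfl rfl rfl, h3⟩
  · refine Fin.ext ?_
    rw [h5, h7]
    show 0 + _ = w1.c.val
    rw [zero_add, h2]
    rfl

/-! ### the length of the program -/

theorem length_flatMap_le {α β : Type} (L : List α) (f : α → List β) (C : ℕ)
    (h : ∀ a ∈ L, (f a).length ≤ C) : (L.flatMap f).length ≤ L.length * C := by
  induction L with
  | nil => simp
  | cons a L ih =>
    rw [List.flatMap_cons, List.length_append, List.length_cons]
    have h1 := h a (by simp)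
    have h2 := ih (fun b hb => h b (by simp [hb]))
    have h3 : (L.length + 1) * C = L.length * C + C := by ring
    omega

theorem loopU_length (s v : Fin n) (i : ℕ) :
    (loopU s v i (List.finRange n)).length ≤ n * (i + 3) := by
  have h := length_flatMap_le (List.finRange n) (stepU s v i) (i + 3) (fun u _ => by
    unfold stepU
    rw [List.length_cons, List.length_append, walk_length, List.length_singleton])
  rw [List.length_finRange] at h
  exact h

theorem blockV_length (hn : 4 ≤ n) (s : Fin n) (i : ℕ) (hi : i < n) (v : Fin n) :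
    (blockV s i v).length ≤ n ^ 3 := by
  have h := loopU_length s v i
  have h1 : (blockV s i v).length ≤ n * (i + 3) + (i + 5) := by
    unfold blockV
    rw [List.length_cons, List.length_append, List.length_cons, List.length_append, walk_length,
      List.length_singleton]
    omega
  have h2 : n * (i + 3) ≤ n * (n + 2) := Nat.mul_le_mul_left n (by omega)
  have h3 : n * (n + 2) + (n + 4) ≤ n ^ 3 := by
    nlinarith [mul_le_mul hn hn (by omega) (by omega : 0 ≤ n), sq_nonneg n]
  omega

theorem phase_length (hn : 4 ≤ n) (s : Fin n) (i : ℕ) (hi : i < n) :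
    (phase s i).length ≤ n ^ 5 := by
  have h := length_flatMap_le (List.finRange n) (blockV s i) (n ^ 3)
    (fun v _ => blockV_length hn s i hi v)
  rw [List.length_finRange] at h
  have h1 : (phase s i).length ≤ n * n ^ 3 + 2 := by
    unfold phase
    rw [List.length_cons, List.length_append, List.length_singleton]
    omega
  have h2 : n * n ^ 3 = n ^ 4 := by ring
  have h3 : 1 ≤ n ^ 4 := Nat.one_le_pow _ _ (by omega)
  have h4 : n ^ 5 = n * n ^ 4 := by ring
  have h5 : 4 * n ^ 4 ≤ n * n ^ 4 := Nat.mul_le_mul_right _ hn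
  omega

theorem phases_length (hn : 4 ≤ n) (s : Fin n) (k : ℕ) (hk : k ≤ n) :
    (phases s k).length ≤ k * n ^ 5 := by
  induction k with
  | zero => simp [phases]
  | succ k ih =>
    have h1 := ih (by omega)
    have h2 := phase_length hn s k (by omega)
    show (phases s k ++ phase s k).length ≤ _
    rw [List.length_append]
    have h3 : (k + 1) * n ^ 5 = k * n ^ 5 + n ^ 5 := by ring
    omega

theorem prog_length (hn : 4 ≤ n) (s t : Fin n) : (prog s t).length ≤ n ^ 8 := by
  have h1 := phases_length hn s (n - 1) (by omega)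
  have h2 := loopU_length s t (n - 1)
  have h3 : (prog s t).length ≤ (n - 1) * n ^ 5 + (1 + n * (n - 1 + 3)) := by
    unfold prog
    rw [List.length_append, List.length_cons]
    omega
  have h4 : (n - 1) * n ^ 5 ≤ n * n ^ 5 := Nat.mul_le_mul_right _ (by omega)
  have h5 : n * (n - 1 + 3) ≤ n * (2 * n) := Nat.mul_le_mul_left _ (by omega)
  have h6 : n * n ^ 5 = n ^ 6 := by ring
  have h7 : n * (2 * n) = 2 * n ^ 2 := by ring
  have h8 : n ^ 2 ≤ n ^ 6 := Nat.pow_le_pow_right (by omega) (by omega)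
  have h9 : 1 ≤ n ^ 6 := Nat.one_le_pow _ _ (by omega)
  have h10 : n ^ 8 = n ^ 2 * n ^ 6 := by ring
  have h11 : 16 * n ^ 6 ≤ n ^ 2 * n ^ 6 := Nat.mul_le_mul_right _ (by nlinarith)
  omega

theorem st_card_le (hn : 4 ≤ n) : Fintype.card (St n) ≤ n ^ 8 := by
  rw [st_card]
  have h1 : n + 1 ≤ 2 * n := by omega
  have h2 : (n + 1) * ((n + 1) * ((n + 1) * (2 * (2 * n)))) ≤
      (2 * n) * ((2 * n) * ((2 * n) * (2 * (2 * n)))) := by gcongr
  have h3 : (2 * n) * ((2 * n) * ((2 * n) * (2 * (2 * n)))) = 32 * n ^ 4 := by ring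
  have h4 : 32 ≤ n ^ 4 := by
    calc 32 ≤ 4 ^ 4 := by norm_num
      _ ≤ n ^ 4 := Nat.pow_le_pow_left hn 4
  have h5 : 32 * n ^ 4 ≤ n ^ 4 * n ^ 4 := Nat.mul_le_mul_right _ h4
  have h6 : n ^ 4 * n ^ 4 = n ^ 8 := by ring
  omega

end ISAux

/-- A machine with `n ^ O(1)` states and steps which never accepts if `t` is reachable from `s`, and
has an accepting computation using at most `n - 1` arcs (those of a search tree) if `t` is not
reachable. -/
theorem is_machine : ∃ c : ℕ, ∀ (n : ℕ) (s t : Fin n), 4 ≤ n → s ≠ t →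
    ∃ (W : Type) (_ : Fintype W) (M : Mach n W) (T : ℕ), Fintype.card W ≤ n ^ c ∧ T ≤ n ^ c ∧
      ∀ G : Fin n → Fin n → Bool,
        (SharpTS.Reach G s t → ¬ M.Accepts T G) ∧
        (¬ SharpTS.Reach G s t → M.AcceptsUsing T (n - 1) G) := by
  refine ⟨8, fun n s t hn _ => ?_⟩
  refine ⟨ISAux.St n, inferInstance,
    ISAux.mach s (ISAux.prog s t) (ISAux.st0 s) (fun w => w.m = w.c), (ISAux.prog s t).length,
    ISAux.st_card_le hn, ISAux.prog_length hn s t, fun G => ⟨?_, ?_⟩⟩
  · intro hreach hacc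
    obtain ⟨w', h1, h2⟩ := ISAux.mach_accepts s _ _ _ G hacc
    refine ISAux.prog_sound ?_ s t w' h1 h2 (ISAux.mem_Rk_of_reach G s t hreach)
    intro e he he'
    have h3 : G e.1 e.2 = true := he
    have h4 : G e.1 e.2 = false := he'
    rw [h3] at h4
    exact absurd h4 (by decide)
  · intro hreach
    obtain ⟨K, hK1, hK2, hK3⟩ := ISAux.exists_tree (ISAux.Pr G) s
    obtain ⟨w', h1, h2⟩ := ISAux.prog_complete (A := ↑K) (A' := ISAux.Pr G) (B := ISAux.Ab G) s t
      hK3 (fun e he => by
        have h3 : ¬ G e.1 e.2 = true := he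
        show G e.1 e.2 = false
        simpa using h3) (fun k hk => hreach (ISAux.reach_of_mem_Rk G s t k hk))
    exact ISAux.mach_acceptsUsing s _ _ _ G K hK2 (n - 1) hK1 w' h1 h2

end MTU
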