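import Pool.Agent.Lib.MTU.Model
import Pool.Agent.Lib.MTU.Cert

/-!
# MTU.Sim (MP_e46137_lc): simulations between the machine models
-/

namespace MTU

open Classical Finset

namespace SimAux

variable {n : ℕ} {W : Type}

/-- the machine which first guesses the next state and then checks the condition -/
def toI (M : Cert.Mach n W) : Unreach.Mach n (W × W) where
  start := (M.start, M.start)
  acc := fun x => M.acc x.2
  v := fun i x => M.v (i / 2) x.1 x.2
  step := fun i x y G =>
    (i % 2 = 0 ∧ y.1 = x.2) ∨ (i % 2 = 1 ∧ y = (x.2, x.2) ∧ M.step (i / 2) x.1 x.2 G)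
  loc := by
    intro i x y G G' hG hs
    rcases hs with h | ⟨h1, h2, h3⟩
    · exact Or.inl h
    · exact Or.inr ⟨h1, h2, M.loc _ _ _ G G' hG h3⟩

theorem toI_comp (M : Cert.Mach n W) (T : ℕ) (G : Fin n → Fin n → Bool) (R : ℕ → W)
    (h : M.Comp T G R) :
    (toI M).Comp (2 * T) G (fun i => (R (i / 2), R ((i + 1) / 2))) := by
  refine ⟨?_, fun i hi => ?_⟩
  · show (R (0 / 2), R ((0 + 1) / 2)) = (M.start, M.start)
    rw [← h.1]
  · show (i % 2 = 0 ∧ R ((i + 1) / 2) = R ((i + 1) / 2)) ∨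
      (i % 2 = 1 ∧ (R ((i + 1) / 2), R ((i + 1 + 1) / 2)) = (R ((i + 1) / 2), R ((i + 1) / 2)) ∧
        M.step (i / 2) (R (i / 2)) (R ((i + 1) / 2)) G)
    rcases Nat.mod_two_eq_zero_or_one i with h1 | h1
    · exact Or.inl ⟨h1, rfl⟩
    · right
      have e1 : (i + 1) / 2 = i / 2 + 1 := by omega
      have e2 : (i + 1 + 1) / 2 = i / 2 + 1 := by omega
      refine ⟨h1, by rw [e1, e2], ?_⟩
      rw [e1]
      exact h.2 (i / 2) (by omega)

theorem comp_of_toI (M : Cert.Mach n W) (T : ℕ) (G : Fin n → Fin n → Bool) (R : ℕ → W × W)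
    (h : (toI M).Comp (2 * T) G R) : M.Comp T G (fun i => (R (2 * i)).2) := by
  obtain ⟨h0, h1⟩ := h
  refine ⟨?_, fun i hi => ?_⟩
  · show (R (2 * 0)).2 = M.start
    rw [mul_zero, h0]
    rfl
  · show M.step i (R (2 * i)).2 (R (2 * (i + 1))).2 G
    have h2 := h1 (2 * i) (by omega)
    have h3 := h1 (2 * i + 1) (by omega)
    have e1 : (R (2 * i + 1)).1 = (R (2 * i)).2 := by
      rcases h2 with ⟨-, h4⟩ | ⟨h4, -⟩
      · exact h4
      · omega
    rcases h3 with ⟨h4, -⟩ | ⟨-, h5, h6⟩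
    · omega
    · have e2 : (2 * i + 1) / 2 = i := by omega
      have e3 : 2 * (i + 1) = 2 * i + 1 + 1 := by ring
      rw [e2, e1] at h6
      rw [e3, h5]
      exact h6

theorem toI_accepts (M : Cert.Mach n W) (T m : ℕ) (G : Fin n → Fin n → Bool) :
    (toI M).AcceptsUsing (2 * T) m G ↔ M.AcceptsUsing T m G := by
  constructor
  · rintro ⟨R, K, h1, h2, h3, h4⟩
    exact ⟨fun i => (R (2 * i)).2, K, h1, h2, h3,
      fun G' h5 h6 => comp_of_toI M T G' R (h4 G' h5 h6)⟩
  · rintro ⟨R, K, h1, h2, h3, h4⟩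
    refine ⟨fun i => (R (i / 2), R ((i + 1) / 2)), K, h1, h2, ?_,
      fun G' h5 h6 => toI_comp M T G' R (h4 G' h5 h6)⟩
    show M.acc (R ((2 * T + 1) / 2))
    have e1 : (2 * T + 1) / 2 = T := by omega
    rw [e1]
    exact h3

/-- the read vertex depends only on the present state -/
def ofI (M : Unreach.Mach n W) : Cert.Mach n W where
  start := M.start
  acc := M.acc
  v := fun t w _ => M.v t w
  step := M.step
  loc := fun t w w' G G' hG hs => M.loc t w w' G G' hG hs

theorem ofI_accepts (M : Unreach.Mach n W) (T m : ℕ) (G : Fin n → Fin n → Bool) :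
    (ofI M).AcceptsUsing T m G ↔ M.AcceptsUsing T m G := Iff.rfl

theorem ofI_accepts' (M : Unreach.Mach n W) (T : ℕ) (G : Fin n → Fin n → Bool) :
    (ofI M).Accepts T G ↔ M.Accepts T G := Iff.rfl

/-! ### Machines without a clock -/

/-- a step which is possible on all digraphs between `K` and `G` -/
def Q (M : Cert.Mach n W) (K : Finset (Fin n × Fin n)) (G : Fin n → Fin n → Bool) (w w' : W) :
    Prop :=
  ∀ G' : Fin n → Fin n → Bool, (∀ e ∈ K, G' e.1 e.2 = true) → (∀ u v, G' u v ≤ G u v) →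
    M.step 0 w w' G'

/-- a shortest chain -/
theorem exists_chain {W : Type} [Fintype W] (r : W → W → Prop) (a b : W) {T : ℕ} {R : ℕ → W}
    (h0 : R 0 = a) (hT : R T = b) (h : ∀ i < T, r (R i) (R (i + 1))) :
    ∃ T' < Fintype.card W, ∃ R' : ℕ → W, R' 0 = a ∧ R' T' = b ∧
      ∀ i < T', r (R' i) (R' (i + 1)) := by
  have hex : ∃ T, ∃ R : ℕ → W, R 0 = a ∧ R T = b ∧ ∀ i < T, r (R i) (R (i + 1)) :=
    ⟨T, R, h0, hT, h⟩
  obtain ⟨R', h1, h2, h3⟩ := Nat.find_spec hex
  obtain ⟨T', hT'⟩ : ∃ T', T' = Nat.find hex := ⟨_, rfl⟩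
  rw [← hT'] at h2 h3
  refine ⟨T', ?_, R', h1, h2, h3⟩
  by_contra hlt
  have h4 : ¬ Function.Injective (fun i : Fin (T' + 1) => R' i) := by
    intro hinj
    have h5 := Fintype.card_le_of_injective _ hinj
    rw [Fintype.card_fin] at h5
    omega
  rw [Function.Injective] at h4
  push_neg at h4
  obtain ⟨i, j, hij, hne⟩ := h4
  wlog hlt2 : (i : ℕ) < j generalizing i j
  · have h5 : (j : ℕ) < i := by
      rcases Nat.lt_or_ge (j : ℕ) i with h6 | h6
      · exact h6
      · exact absurd (Fin.ext (by omega)) hne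
    exact this j i hij.symm (Ne.symm hne) h5
  have hjT : (j : ℕ) ≤ T' := by have := j.2; omega
  have hij' : R' (i : ℕ) = R' (j : ℕ) := hij
  refine Nat.find_min hex (m := T' - (j - i)) (by omega)
    ⟨fun l => if l ≤ i then R' l else R' (l + (j - i)), ?_, ?_, ?_⟩
  · show (if 0 ≤ (i : ℕ) then R' 0 else R' (0 + (j - i))) = a
    rw [if_pos (Nat.zero_le _), h1]
  · show (if T' - (j - i) ≤ (i : ℕ) then R' (T' - (j - i)) else
      R' (T' - (j - i) + (j - i))) = b
    by_cases h5 : T' - (j - i) ≤ (i : ℕ)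
    · rw [if_pos h5]
      have h6 : (j : ℕ) = T' := by omega
      have h7 : T' - (j - i) = (i : ℕ) := by omega
      rw [h7, hij', h6, h2]
    · rw [if_neg h5]
      have h6 : T' - (j - i) + (j - i) = T' := by omega
      rw [h6, h2]
  · intro l hl
    show r (if l ≤ (i : ℕ) then R' l else R' (l + (j - i)))
      (if l + 1 ≤ (i : ℕ) then R' (l + 1) else R' (l + 1 + (j - i)))
    by_cases h5 : l + 1 ≤ (i : ℕ)
    · rw [if_pos (by omega : l ≤ (i : ℕ)), if_pos h5]
      exact h3 l (by omega)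
    · rw [if_neg h5]
      by_cases h6 : l ≤ (i : ℕ)
      · have h7 : l = (i : ℕ) := by omega
        rw [if_pos h6, h7, hij']
        have h8 : (i : ℕ) + 1 + (j - i) = j + 1 := by omega
        rw [h8]
        exact h3 j (by omega)
      · rw [if_neg h6]
        have h8 : l + 1 + (j - i) = (l + (j - i)) + 1 := by omega
        rw [h8]
        exact h3 _ (by omega)

/-- the machine may stay in its state -/
def idle (M : Cert.Mach n W) : Cert.Mach n W where
  start := M.start
  acc := M.acc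
  v := fun _ w w' => M.v 0 w w'
  step := fun _ w w' G => w' = w ∨ M.step 0 w w' G
  loc := by
    intro t w w' G G' hG hs
    rcases hs with h | h
    · exact Or.inl h
    · exact Or.inr (M.loc 0 w w' G G' hG h)

theorem accepts_iff_Q {M : Cert.Mach n W} (hM : M.Clockless) (T m : ℕ)
    (G : Fin n → Fin n → Bool) :
    M.AcceptsUsing T m G ↔ ∃ (R : ℕ → W) (K : Finset (Fin n × Fin n)), K.card ≤ m ∧
      (∀ e ∈ K, G e.1 e.2 = true) ∧ R 0 = M.start ∧ M.acc (R T) ∧
      ∀ i < T, Q M K G (R i) (R (i + 1)) := by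
  constructor
  · rintro ⟨R, K, h1, h2, h3, h4⟩
    refine ⟨R, K, h1, h2, (h4 G h2 fun _ _ => le_rfl).1, h3, fun i hi G' h5 h6 => ?_⟩
    have h7 := (h4 G' h5 h6).2 i hi
    rwa [hM i] at h7
  · rintro ⟨R, K, h1, h2, h3, h4, h5⟩
    refine ⟨R, K, h1, h2, h4, fun G' h6 h7 => ⟨h3, fun i hi => ?_⟩⟩
    have h8 := h5 i hi G' h6 h7
    rwa [hM i]

/-- with idle steps the number of states is a sufficient time -/
theorem idle_of [Fintype W] {M : Cert.Mach n W} (hM : M.Clockless) {T m N : ℕ}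
    {G : Fin n → Fin n → Bool} (hN : Fintype.card W ≤ N) (h : M.AcceptsUsing T m G) :
    (idle M).AcceptsUsing N m G := by
  obtain ⟨R, K, h1, h2, h3, h4, h5⟩ := (accepts_iff_Q hM T m G).1 h
  obtain ⟨T', hT', R', k1, k2, k3⟩ := exists_chain (Q M K G) M.start (R T) h3 rfl h5
  refine ⟨fun i => R' (min i T'), K, h1, h2, ?_, fun G' h6 h7 => ⟨?_, fun i _ => ?_⟩⟩
  · show M.acc (R' (min N T'))
    rw [min_eq_right (by omega), k2]
    exact h4
  · show R' (min 0 T') = M.start
    rw [Nat.zero_min, k1]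
  · show R' (min (i + 1) T') = R' (min i T') ∨ M.step 0 (R' (min i T')) (R' (min (i + 1) T')) G'
    rcases Nat.lt_or_ge i T' with h8 | h8
    · right
      rw [min_eq_left h8.le, min_eq_left (by omega : i + 1 ≤ T')]
      exact k3 i h8 G' h6 h7
    · left
      rw [min_eq_right h8, min_eq_right (by omega : T' ≤ i + 1)]

/-- idle steps can be omitted -/
theorem of_idle {M : Cert.Mach n W} (hM : M.Clockless) {N m : ℕ}
    {G : Fin n → Fin n → Bool} (h : (idle M).AcceptsUsing N m G) :
    ∃ T, M.AcceptsUsing T m G := by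
  obtain ⟨R, K, h1, h2, h3, h4⟩ := h
  have h0 : R 0 = M.start := (h4 G h2 fun _ _ => le_rfl).1
  -- chains without idle steps
  have key : ∀ i ≤ N, ∃ (T : ℕ) (R' : ℕ → W), R' 0 = M.start ∧ R' T = R i ∧
      ∀ l < T, Q M K G (R' l) (R' (l + 1)) := by
    intro i
    induction i with
    | zero =>
      intro _
      exact ⟨0, R, h0, rfl, fun l hl => absurd hl (Nat.not_lt_zero l)⟩
    | succ i ih =>
      intro hi
      obtain ⟨T, R', k1, k2, k3⟩ := ih (by omega)
      by_cases he : R (i + 1) = R i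
      · exact ⟨T, R', k1, by rw [k2, he], k3⟩
      · refine ⟨T + 1, fun l => if l ≤ T then R' l else R (i + 1), ?_, ?_, ?_⟩
        · show (if 0 ≤ T then R' 0 else R (i + 1)) = M.start
          rw [if_pos (Nat.zero_le _), k1]
        · show (if T + 1 ≤ T then R' (T + 1) else R (i + 1)) = R (i + 1)
          rw [if_neg (by omega)]
        · intro l hl
          show Q M K G (if l ≤ T then R' l else R (i + 1))
            (if l + 1 ≤ T then R' (l + 1) else R (i + 1))
          rw [if_pos (by omega : l ≤ T)]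
          by_cases hl2 : l + 1 ≤ T
          · rw [if_pos hl2]
            exact k3 l (by omega)
          · have hl3 : l = T := by omega
            rw [if_neg hl2, hl3, k2]
            intro G' h5 h6
            rcases (h4 G' h5 h6).2 i (by omega) with h7 | h7
            · exact absurd h7 he
            · exact h7
  obtain ⟨T, R', k1, k2, k3⟩ := key N le_rfl
  refine ⟨T, (accepts_iff_Q hM T m G).2 ⟨R', K, h1, h2, k1, ?_, k3⟩⟩
  rw [k2]
  exact h3

end SimAux

end MTU
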