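import Pool.Agent.Lib.MTU.Final
import Pool.Agent.Lib.MTU.Sim
import Pool.Agent.Lib.MTU.IS

/-!
# MTU.FinalC (MP_e46137_lc): nondeterministic machines which certify unreachability
-/

namespace MTU

open Classical Finset SimAux FinalAux

namespace FinalCAux

variable {n : ℕ}

theorem err_ge' {S d : ℕ} (hn : 4 ≤ n) (hS : 1 ≤ S) (hSn : S ≤ n) (hd : 1 ≤ d) :
    Real.logb 2 n + SharpTS.kap n S d ≤ SharpTS.err n S d :=
  MTZ.FinalAux.err_ge (d := d) hn hS hSn hd

theorem kap_nonneg' {S d : ℕ} (hS : 1 ≤ S) (hSn : S ≤ n) (hd : 1 ≤ d) :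
    0 ≤ SharpTS.kap n S d := MTX.kap_nonneg hS hSn hd

theorem lam_nonneg' {S : ℕ} (hS : 1 ≤ S) (hSn : S ≤ n) :
    0 ≤ SharpTS.lam n S := MTX.lam_nonneg hS hSn

theorem phi_double' {S d : ℕ} (hn : 4 ≤ n) (hS : 1 ≤ S) (h2S : S + S ≤ n) (hd : 2 ≤ d) :
    SharpTS.phi n S d ≤ SharpTS.phi n (S + S) d + 1 + SharpTS.kap n S d ∧
      SharpTS.err n (S + S) d ≤ SharpTS.err n S d :=
  MTX.FinalAAux.phi_double hn hS h2S hd

/-- if `2 S > n` then the bound is trivial -/
theorem phi_small {S d : ℕ} (hn : 4 ≤ n) (hS : 1 ≤ S) (hSn : S ≤ n) (h2S : n < S + S)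
    (hd : 1 ≤ d) : SharpTS.phi n S d ≤ SharpTS.err n S d := by
  have hS0 : (1 : ℝ) ≤ S := by exact_mod_cast hS
  have hn0 : (4 : ℝ) ≤ n := by exact_mod_cast hn
  have hlam : SharpTS.lam n S ≤ 1 := by
    show Real.logb 2 ((n : ℝ) / S) ≤ 1
    rw [Real.logb_le_iff_le_rpow (by norm_num) (by positivity), Real.rpow_one,
      div_le_iff₀ (by linarith)]
    have : (n : ℝ) ≤ ((S + S : ℕ) : ℝ) := by exact_mod_cast h2S.le
    push_cast at this
    linarith
  have hlam0 : 0 ≤ SharpTS.lam n S := lam_nonneg' hS hSn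
  have hκ0 : 0 ≤ SharpTS.kap n S d := kap_nonneg' hS hSn hd
  have h1 := err_ge' hn hS hSn hd
  have h2 := logb_two_le hn
  unfold SharpTS.phi
  nlinarith [sq_nonneg (SharpTS.kap n S d)]

theorem card_sq {W : Type} [Fintype W] {S : ℕ} (h : Fintype.card W ≤ 2 ^ S) :
    Fintype.card (W × W) ≤ 2 ^ (S + S) := by
  rw [Fintype.card_prod, pow_add]
  exact Nat.mul_le_mul h h

theorem cut_toI {W : Type} (M : Cert.Mach n W) (T m : ℕ) (s t : Fin n) :
    Unreach.accCut (toI M) (2 * T) m s t = Cert.cutProb s t (M.AcceptsUsing T m) := by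
  unfold Unreach.accCut Cert.cutProb
  have h : (SharpTS.cuts n s t).filter
      (fun C => (toI M).AcceptsUsing (2 * T) m (SharpTS.cutGraph C)) =
      (SharpTS.cuts n s t).filter (fun C => M.AcceptsUsing T m (SharpTS.cutGraph C)) :=
    filter_congr fun C _ => toI_accepts M T m _
  rw [h]

theorem path_toI {W : Type} (M : Cert.Mach n W) (T d : ℕ) (s t : Fin n) :
    Unreach.accPath (toI M) (2 * T) d s t = Cert.pathProb d s t (M.AcceptsUsing T 0) := by
  unfold Unreach.accPath Cert.pathProb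
  have h : (SharpTS.seqs n (d - 1) s t).filter
      (fun P => (toI M).AcceptsUsing (2 * T) 0 (SharpTS.pathGraph s t P)) =
      (SharpTS.seqs n (d - 1) s t).filter
        (fun P => M.AcceptsUsing T 0 (SharpTS.pathGraph s t P)) :=
    filter_congr fun P _ => toI_accepts M T 0 _
  rw [h]

theorem prob_toI {W : Type} {Ω : Type} [Fintype Ω] (p : Ω → ℝ) (M : Ω → Cert.Mach n W)
    (T : ℕ) (G : Fin n → Fin n → Bool) :
    Unreach.accProb p (fun ω => toI (M ω)) (2 * T) G = Cert.accProb p M T G := by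
  unfold Unreach.accProb Cert.accProb
  refine sum_congr (filter_congr fun ω _ => toI_accepts (M ω) T 0 G) fun _ _ => rfl

theorem prob_nonneg {W : Type} {Ω : Type} [Fintype Ω] {p : Ω → ℝ} (hp : ∀ ω, 0 ≤ p ω)
    (M : Ω → Cert.Mach n W) (T : ℕ) (G : Fin n → Fin n → Bool) : 0 ≤ Cert.accProb p M T G :=
  sum_nonneg fun ω _ => hp ω

theorem prob_le_one {W : Type} {Ω : Type} [Fintype Ω] {p : Ω → ℝ} (hp : ∀ ω, 0 ≤ p ω)
    (hp1 : ∑ ω, p ω = 1) (M : Ω → Cert.Mach n W) (T : ℕ) (G : Fin n → Fin n → Bool) :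
    Cert.accProb p M T G ≤ 1 := by
  rw [← hp1]
  exact sum_le_sum_of_subset_of_nonneg (filter_subset _ _) fun ω _ _ => hp ω

/-- the gap is at most one -/
theorem gap_le_one {W : Type} {Ω : Type} [Fintype Ω] {p : Ω → ℝ} (hp : ∀ ω, 0 ≤ p ω)
    (hp1 : ∑ ω, p ω = 1) {M : Ω → Cert.Mach n W} {T d : ℕ} {s t : Fin n} (hst : s ≠ t)
    (hd : 1 ≤ d) {δ : ℝ} (h : Cert.Certifies p M T d s t δ) : δ ≤ 1 := by
  have h1 := h (fun _ _ => true) (fun _ _ => false) (fun _ _ => rfl) (fun _ _ => rfl)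
    ⟨1, hd, s, rfl, rfl⟩ (by
      intro hr
      unfold SharpTS.Reach at hr
      rcases Relation.ReflTransGen.cases_tail hr with h2 | ⟨b, -, h2⟩
      · exact hst h2.symm
      · exact absurd h2 (by simp))
  have h2 := prob_nonneg hp M T (fun _ _ => true)
  have h3 := prob_le_one hp hp1 M T (fun _ _ => false)
  linarith

end FinalCAux

open FinalCAux

/-- **Correlation bound.** -/
theorem advC : ∃ c : ℝ, 0 < c ∧ ∀ (n S d T : ℕ) (s t : Fin n), 4 ≤ n → 1 ≤ S → S ≤ n →
    2 ≤ d → d ≤ n → s ≠ t → c * Real.logb 2 n ^ 9 * S * d ≤ n →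
    ∀ (W : Type) [Fintype W], Fintype.card W ≤ 2 ^ S → ∀ M : Cert.Mach n W,
      Cert.cutProb s t (M.AcceptsUsing T 0) ≤ Cert.pathProb d s t (M.AcceptsUsing T 0) +
        T * (2 : ℝ) ^ (-(SharpTS.phi n S d - c * SharpTS.err n S d)) := by
  obtain ⟨c, hc, hL⟩ := adv
  refine ⟨2 * c + 2, by positivity, ?_⟩
  intro n S d T s t hn hS hSn hd hdn hst hC W _ hW M
  have hS0 : (1 : ℝ) ≤ S := by exact_mod_cast hS
  have hd0 : (2 : ℝ) ≤ d := by exact_mod_cast hd
  have hlog2 := logb_two_le hn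
  have hlog9 : (1 : ℝ) ≤ Real.logb 2 n ^ 9 := one_le_pow₀ (by linarith)
  have h2S : S + S ≤ n := by
    have h1 : ((S + S : ℕ) : ℝ) ≤ (n : ℝ) := by
      refine le_trans ?_ hC
      calc ((S + S : ℕ) : ℝ) = 2 * 1 * S * 1 := by push_cast; ring
        _ ≤ (2 * c + 2) * Real.logb 2 n ^ 9 * S * d := by
            gcongr
            · linarith
            · linarith
    exact_mod_cast h1
  have hC2 : c * Real.logb 2 n ^ 9 * ((S + S : ℕ) : ℝ) * d ≤ n := by
    refine le_trans ?_ hC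
    calc c * Real.logb 2 n ^ 9 * ((S + S : ℕ) : ℝ) * d
        = (2 * c) * Real.logb 2 n ^ 9 * S * d := by push_cast; ring
      _ ≤ (2 * c + 2) * Real.logb 2 n ^ 9 * S * d := by
          gcongr
          linarith
  have hmain := hL n (S + S) d (2 * T) s t hn (by omega) h2S hd hdn hst hC2 (W × W) (card_sq hW)
    (toI M)
  rw [cut_toI, path_toI] at hmain
  obtain ⟨h1, h2⟩ := phi_double' hn hS h2S hd
  have h3 := err_ge' (d := d) hn hS hSn (by omega)
  have h4 : c * SharpTS.err n (S + S) d ≤ c * SharpTS.err n S d :=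
    mul_le_mul_of_nonneg_left h2 hc.le
  have hκ0 : 0 ≤ SharpTS.kap n S d := kap_nonneg' hS hSn (by omega)
  have hexp : 1 + -(SharpTS.phi n (S + S) d - c * SharpTS.err n (S + S) d) ≤
      -(SharpTS.phi n S d - (2 * c + 2) * SharpTS.err n S d) := by
    nlinarith
  have h5 : ((2 * T : ℕ) : ℝ) *
      (2 : ℝ) ^ (-(SharpTS.phi n (S + S) d - c * SharpTS.err n (S + S) d)) ≤
      T * (2 : ℝ) ^ (-(SharpTS.phi n S d - (2 * c + 2) * SharpTS.err n S d)) := by
    calc ((2 * T : ℕ) : ℝ) *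
        (2 : ℝ) ^ (-(SharpTS.phi n (S + S) d - c * SharpTS.err n (S + S) d))
        = T * ((2 : ℝ) ^ (1 : ℝ) *
          (2 : ℝ) ^ (-(SharpTS.phi n (S + S) d - c * SharpTS.err n (S + S) d))) := by
          rw [Real.rpow_one]
          push_cast
          ring
      _ = T * (2 : ℝ) ^ (1 + -(SharpTS.phi n (S + S) d - c * SharpTS.err n (S + S) d)) := by
          rw [Real.rpow_add (by norm_num)]
      _ ≤ _ := by
          apply mul_le_mul_of_nonneg_left _ (Nat.cast_nonneg _)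
          exact Real.rpow_le_rpow_of_exponent_le (by norm_num) hexp
  linarith

/-- **Lower bound** for probabilistic nondeterministic machines with gap `δ`. -/
theorem gapC : ∃ c : ℝ, 0 < c ∧ ∀ (n S d T : ℕ) (s t : Fin n), 4 ≤ n → 1 ≤ S → S ≤ n →
    2 ≤ d → d ≤ n → s ≠ t → ∀ (W : Type) [Fintype W], Fintype.card W ≤ 2 ^ S →
    ∀ (Ω : Type) [Fintype Ω] (p : Ω → ℝ), (∀ ω, 0 ≤ p ω) → ∑ ω, p ω = 1 →
    ∀ (M : Ω → Cert.Mach n W) (δ : ℝ), 0 < δ → Cert.Certifies p M T d s t δ →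
      SharpTS.phi n S d - c * SharpTS.err n S d ≤ Real.logb 2 (T / δ) := by
  obtain ⟨c, hc, hL⟩ := gap
  refine ⟨c + 2, by linarith, ?_⟩
  intro n S d T s t hn hS hSn hd hdn hst W _ hW Ω _ p hp0 hp1 M δ hδ hcert
  have h3 := err_ge' (d := d) hn hS hSn (by omega)
  have hκ0 : 0 ≤ SharpTS.kap n S d := kap_nonneg' hS hSn (by omega)
  have hlog2 := logb_two_le hn
  rcases Nat.eq_zero_or_pos T with hT0 | hT
  · -- no step: there is no gap
    exfalso
    subst hT0
    have h1 := hcert (fun _ _ => true) (fun _ _ => false) (fun _ _ => rfl) (fun _ _ => rfl)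
      ⟨1, by omega, s, rfl, rfl⟩ (by
        intro hr
        unfold SharpTS.Reach at hr
        rcases Relation.ReflTransGen.cases_tail hr with h2 | ⟨b, -, h2⟩
        · exact hst h2.symm
        · exact absurd h2 (by simp))
    have h2 : Cert.accProb p M 0 (fun _ _ => true) = Cert.accProb p M 0 (fun _ _ => false) := by
      rw [← prob_toI, ← prob_toI]
      unfold Unreach.accProb
      refine sum_congr (filter_congr fun ω _ => ?_) fun _ _ => rfl
      rw [mul_zero, accepts_zero, accepts_zero]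
    linarith
  have hT1 : (1 : ℝ) ≤ T := by exact_mod_cast hT
  have hδ1 := gap_le_one hp0 hp1 hst (by omega : 1 ≤ d) hcert
  by_cases h2S : S + S ≤ n
  · have hcert' : Unreach.Certifies p (fun ω => toI (M ω)) (2 * T) d s t δ := by
      intro G G' hG hG' hw hr
      rw [prob_toI, prob_toI]
      exact hcert G G' hG hG' hw hr
    have hmain := hL n (S + S) d (2 * T) s t hn (by omega) h2S hd hdn hst (W × W) (card_sq hW)
      Ω p hp0 hp1 (fun ω => toI (M ω)) δ hδ hcert'
    obtain ⟨h1, h2⟩ := phi_double' hn hS h2S hd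
    have h4 : c * SharpTS.err n (S + S) d ≤ c * SharpTS.err n S d :=
      mul_le_mul_of_nonneg_left h2 hc.le
    have h5 : Real.logb 2 (((2 * T : ℕ) : ℝ) / δ) = 1 + Real.logb 2 (T / δ) := by
      have e1 : ((2 * T : ℕ) : ℝ) / δ = 2 * (T / δ) := by push_cast; ring
      rw [e1, Real.logb_mul (by norm_num) (by positivity), Real.logb_self_eq_one (by norm_num)]
    rw [h5] at hmain
    nlinarith
  · have h1 := phi_small hn hS hSn (by omega : n < S + S) (by omega : 1 ≤ d)
    have h2 : 0 ≤ Real.logb 2 (T / δ) := by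
      apply Real.logb_nonneg (by norm_num)
      rw [le_div_iff₀ hδ]
      linarith
    nlinarith

/-- **Lower bound** for machines which may rely on the presence of `m` edges. -/
theorem posC : ∃ c : ℝ, 0 < c ∧ ∀ (n S m d T : ℕ) (s t : Fin n), 4 ≤ n → 1 ≤ S → S + m ≤ n →
    2 ≤ d → d ≤ n → s ≠ t → ∀ (W : Type) [Fintype W], Fintype.card W ≤ 2 ^ S →
    ∀ M : Cert.Mach n W,
      (∀ G : Fin n → Fin n → Bool, (∀ a b, G a b = G b a) →
        (∃ l ≤ d, SharpTS.HasWalk G l s t) → ¬ M.AcceptsUsing T m G) →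
      1 ≤ Cert.cutProb s t (M.AcceptsUsing T m) * 2 ^ (S + m) →
      SharpTS.phi n (S + m) d - c * SharpTS.err n (S + m) d ≤ Real.logb 2 T := by
  obtain ⟨c, hc, hL⟩ := pos
  refine ⟨c + 2, by linarith, ?_⟩
  intro n S m d T s t hn hS hSn hd hdn hst W _ hW M hno hacc
  have h3 := err_ge' (d := d) hn (by omega : 1 ≤ S + m) hSn (by omega)
  have hκ0 : 0 ≤ SharpTS.kap n (S + m) d := kap_nonneg' (by omega) hSn (by omega)
  have hlog2 := logb_two_le hn
  have hlogT : 0 ≤ Real.logb 2 (T : ℝ) := by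
    rcases Nat.eq_zero_or_pos T with h | h
    · rw [h, Nat.cast_zero, Real.logb_zero]
    · exact Real.logb_nonneg (by norm_num) (by exact_mod_cast h)
  by_cases h2S : (S + m) + (S + m) ≤ n
  · have e0 : (2 * S + m) + m = (S + m) + (S + m) := by ring
    have hcp : 0 ≤ Cert.cutProb s t (M.AcceptsUsing T m) := by
      unfold Cert.cutProb
      positivity
    have hacc' : 1 ≤ Unreach.accCut (toI M) (2 * T) m s t * 2 ^ ((2 * S + m) + m) := by
      rw [cut_toI]
      refine hacc.trans (mul_le_mul_of_nonneg_left ?_ hcp)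
      exact pow_le_pow_right₀ (by norm_num) (by omega)
    have hW' : Fintype.card (W × W) ≤ 2 ^ (2 * S + m) :=
      (card_sq hW).trans (Nat.pow_le_pow_right (by norm_num) (by omega))
    have hmain := hL n (2 * S + m) m d (2 * T) s t hn (by omega) (by omega) hd hdn hst (W × W) hW'
      (toI M) (by
        intro G hG hw h
        rw [toI_accepts] at h
        exact hno G hG hw h) hacc'
    rw [e0] at hmain
    obtain ⟨h1, h2⟩ := phi_double' hn (by omega : 1 ≤ S + m) h2S hd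
    have h4 : c * SharpTS.err n ((S + m) + (S + m)) d ≤ c * SharpTS.err n (S + m) d :=
      mul_le_mul_of_nonneg_left h2 hc.le
    have h5 : Real.logb 2 (((2 * T : ℕ) : ℝ)) ≤ 1 + Real.logb 2 (T : ℝ) := by
      rcases Nat.eq_zero_or_pos T with h | h
      · rw [h]
        simp
      · have e1 : ((2 * T : ℕ) : ℝ) = 2 * (T : ℝ) := by push_cast; ring
        have hT1 : (1 : ℝ) ≤ T := by exact_mod_cast h
        rw [e1, Real.logb_mul (by norm_num) (by positivity),
          Real.logb_self_eq_one (by norm_num)]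
    nlinarith
  · have h1 := phi_small (S := S + m) hn (by omega) hSn (by omega) (by omega : 1 ≤ d)
    nlinarith

/-- **Space lower bound** for machines without a clock, whatever the time. -/
theorem spaceC : ∃ c : ℝ, 0 < c ∧ ∀ (n S m d : ℕ) (s t : Fin n), 4 ≤ n → 1 ≤ S → S + m ≤ n →
    2 ≤ d → d ≤ n → s ≠ t → ∀ (W : Type) [Fintype W], Fintype.card W ≤ 2 ^ S →
    ∀ M : Cert.Mach n W, M.Clockless →
      (∀ G : Fin n → Fin n → Bool, (∀ a b, G a b = G b a) →
        (∃ l ≤ d, SharpTS.HasWalk G l s t) → ∀ T, ¬ M.AcceptsUsing T m G) →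
      1 ≤ Cert.cutProb s t (fun G => ∃ T, M.AcceptsUsing T m G) * 2 ^ (S + m) →
      SharpTS.phi n (S + m) d - c * SharpTS.err n (S + m) d ≤ S := by
  obtain ⟨c, hc, hL⟩ := posC
  refine ⟨c, hc, ?_⟩
  intro n S m d s t hn hS hSn hd hdn hst W _ hW M hM hno hacc
  have hmain := hL n S m d (2 ^ S) s t hn hS hSn hd hdn hst W hW (idle M) (by
    intro G hG hw h
    obtain ⟨T, hT⟩ := of_idle hM h
    exact hno G hG hw T hT) (by
    refine hacc.trans (mul_le_mul_of_nonneg_right ?_ (by positivity))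
    unfold Cert.cutProb
    apply div_le_div_of_nonneg_right _ (Nat.cast_nonneg _)
    exact_mod_cast card_le_card (fun C hC => by
      obtain ⟨h1, T, hT⟩ := mem_filter.1 hC
      exact mem_filter.2 ⟨h1, idle_of hM hW hT⟩))
  have e : Real.logb 2 (((2 ^ S : ℕ) : ℝ)) = S := by
    push_cast
    rw [← Real.rpow_natCast, Real.logb_rpow (by norm_num) (by norm_num)]
  rwa [e] at hmain

/-- **Deterministic monotone machines** are nondeterministic machines which certify unreachability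
and rely only on the absence of arcs. -/
theorem detC {n S : ℕ} (M : SharpTS.Mach n S) (out : Fin S) :
    ∃ M' : Cert.Mach n (Fin S → Bool), ∀ (T : ℕ) (G : Fin n → Fin n → Bool),
      M'.AcceptsUsing T 0 G ↔ M.run G T out = false := by
  obtain ⟨M', hM'⟩ := det M out
  exact ⟨ofI M', fun T G => by rw [ofI_accepts]; exact hM' T G⟩

end MTU
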