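import Pool.Agent.Lib.MTU.FinalC
import Pool.Agent.Lib.MTU.Clock

/-!
# MTU.FinalD (MP_e46137_lc): the space needed to certify unreachability
-/

namespace MTU

open Classical Finset SimAux FinalAux FinalCAux ClockAux

namespace FinalDAux

variable {n : ℕ}

theorem real_shift {D L y : ℝ} :
    min D L * L - min D L ^ 2 / 2 ≤
      (min D (L - y) * (L - y) - min D (L - y) ^ 2 / 2) + min D L * y := by
  rcases le_total D (L - y) with h | h
  · rcases le_total D L with h2 | h2
    · rw [min_eq_left h, min_eq_left h2]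
      linarith
    · rw [min_eq_left h, min_eq_right h2]
      nlinarith [sq_nonneg (D - L)]
  · rw [min_eq_right h]
    nlinarith [sq_nonneg (L - y - min D L)]

theorem phi_shift {a b d : ℕ} (hn : 4 ≤ n) (ha : 1 ≤ a) (hab : a ≤ b) :
    SharpTS.phi n a d ≤ SharpTS.phi n b d + SharpTS.kap n a d * Real.logb 2 ((b : ℝ) / a) ∧
      SharpTS.err n b d ≤ SharpTS.err n a d := by
  have hn0 : (4 : ℝ) ≤ n := by exact_mod_cast hn
  have ha0 : (1 : ℝ) ≤ a := by exact_mod_cast ha
  have hab0 : (a : ℝ) ≤ b := by exact_mod_cast hab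
  have hb0 : (1 : ℝ) ≤ b := ha0.trans hab0
  have hlam : SharpTS.lam n b = SharpTS.lam n a - Real.logb 2 ((b : ℝ) / a) := by
    show Real.logb 2 ((n : ℝ) / b) = Real.logb 2 ((n : ℝ) / a) - Real.logb 2 ((b : ℝ) / a)
    rw [Real.logb_div (by positivity) (by positivity), Real.logb_div (by positivity) (by positivity),
      Real.logb_div (by positivity) (by positivity)]
    ring
  have hy : 0 ≤ Real.logb 2 ((b : ℝ) / a) := by
    apply Real.logb_nonneg (by norm_num)
    rw [le_div_iff₀ (by linarith)]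
    linarith
  constructor
  · show min (Real.logb 2 d) (SharpTS.lam n a) * SharpTS.lam n a -
        min (Real.logb 2 d) (SharpTS.lam n a) ^ 2 / 2 ≤
      (min (Real.logb 2 d) (SharpTS.lam n b) * SharpTS.lam n b -
        min (Real.logb 2 d) (SharpTS.lam n b) ^ 2 / 2) +
        min (Real.logb 2 d) (SharpTS.lam n a) * Real.logb 2 ((b : ℝ) / a)
    rw [hlam]
    exact real_shift
  · show Real.logb 2 n + min (Real.logb 2 d) (SharpTS.lam n b) * Real.logb 2 (Real.logb 2 n) ≤
      Real.logb 2 n + min (Real.logb 2 d) (SharpTS.lam n a) * Real.logb 2 (Real.logb 2 n)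
    have h5 := MTX.loglog_ge hn
    rw [hlam]
    have h6 : min (Real.logb 2 d) (SharpTS.lam n a - Real.logb 2 ((b : ℝ) / a)) ≤
        min (Real.logb 2 d) (SharpTS.lam n a) := min_le_min le_rfl (by linarith)
    have h7 := mul_le_mul_of_nonneg_right h6 (by linarith : (0 : ℝ) ≤ Real.logb 2 (Real.logb 2 n))
    linarith

theorem phi_le_sq {a d : ℕ} : SharpTS.phi n a d ≤ SharpTS.lam n a ^ 2 / 2 := by
  unfold SharpTS.phi
  nlinarith [sq_nonneg (SharpTS.lam n a - SharpTS.kap n a d)]

theorem phi_le_kap {a d : ℕ} :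
    SharpTS.phi n a d ≤ SharpTS.kap n a d * SharpTS.lam n a := by
  unfold SharpTS.phi
  nlinarith [sq_nonneg (SharpTS.kap n a d)]

theorem lam_le {a : ℕ} (hn : 4 ≤ n) (ha : 1 ≤ a) : SharpTS.lam n a ≤ Real.logb 2 n := by
  have hn0 : (4 : ℝ) ≤ n := by exact_mod_cast hn
  have ha0 : (1 : ℝ) ≤ a := by exact_mod_cast ha
  show Real.logb 2 ((n : ℝ) / a) ≤ Real.logb 2 n
  apply Real.logb_le_logb_of_le (by norm_num) (by positivity)
  rw [div_le_iff₀ (by linarith)]
  nlinarith

/-- the number of bits -/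
theorem bits {N : ℕ} (hN : 1 ≤ N) : ∃ S : ℕ, 1 ≤ S ∧ N ≤ 2 ^ S ∧
    (S : ℝ) ≤ 1 + Real.logb 2 N := by
  have hN0 : (1 : ℝ) ≤ N := by exact_mod_cast hN
  have hlog : 0 ≤ Real.logb 2 (N : ℝ) := Real.logb_nonneg (by norm_num) hN0
  rcases Nat.lt_or_ge N 2 with h | h
  · refine ⟨1, le_rfl, by omega, ?_⟩
    push_cast
    linarith
  · refine ⟨Nat.clog 2 N, Nat.clog_pos (by norm_num) h, Nat.le_pow_clog (by norm_num) N, ?_⟩
    have h1 : 2 ^ (Nat.clog 2 N).pred < N := Nat.pow_pred_clog_lt_self (by norm_num) (by omega)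
    have h2 : 1 ≤ Nat.clog 2 N := Nat.clog_pos (by norm_num) h
    have h3 : ((2 : ℝ) ^ (((Nat.clog 2 N).pred : ℕ) : ℝ)) ≤ N := by
      rw [Real.rpow_natCast]
      exact_mod_cast h1.le
    have h4 : (((Nat.clog 2 N).pred : ℕ) : ℝ) ≤ Real.logb 2 N := by
      rw [Real.le_logb_iff_rpow_le (by norm_num) (by linarith)]
      exact h3
    have h5 : ((Nat.clog 2 N : ℕ) : ℝ) = (((Nat.clog 2 N).pred : ℕ) : ℝ) + 1 := by
      have : Nat.clog 2 N = (Nat.clog 2 N).pred + 1 := by
        rw [Nat.pred_eq_sub_one]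
        omega
      exact_mod_cast this
    linarith

end FinalDAux

open FinalDAux

/-- **Space lower bound** for machines without a clock, whatever the time. -/
theorem spaceF : ∃ c : ℝ, 0 < c ∧ ∀ (n m d : ℕ) (s t : Fin n), 4 ≤ n → m < n →
    2 ≤ d → d ≤ n → s ≠ t → ∀ (W : Type) [Fintype W] (M : Cert.Mach n W), M.Clockless →
      (∀ G : Fin n → Fin n → Bool, (∀ a b, G a b = G b a) →
        (∃ l ≤ d, SharpTS.HasWalk G l s t) → ∀ T, ¬ M.AcceptsUsing T m G) →
      1 ≤ Cert.cutProb s t (fun G => ∃ T, M.AcceptsUsing T m G) * (Fintype.card W * 2 ^ m) →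
      SharpTS.phi n (m + 1) d - c * SharpTS.err n (m + 1) d ≤ Real.logb 2 (Fintype.card W) := by
  obtain ⟨c, hc, hL⟩ := spaceC
  refine ⟨c + 4, by linarith, ?_⟩
  intro n m d s t hn hmn hd hdn hst W _ M hM hno hacc
  have hn0 : (4 : ℝ) ≤ n := by exact_mod_cast hn
  have hW1 : 1 ≤ Fintype.card W := Fintype.card_pos_iff.2 ⟨M.start⟩
  have hW0 : (1 : ℝ) ≤ (Fintype.card W : ℝ) := by exact_mod_cast hW1
  have hlogW : 0 ≤ Real.logb 2 (Fintype.card W : ℝ) := Real.logb_nonneg (by norm_num) hW0
  obtain ⟨S, hS1, hWS, hSW⟩ := bits hW1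
  have hS0 : (1 : ℝ) ≤ S := by exact_mod_cast hS1
  have hx := logb_two_le hn
  have hκ0 : 0 ≤ SharpTS.kap n (m + 1) d := kap_nonneg' (by omega) hmn (by omega)
  have hlam0 : 0 ≤ SharpTS.lam n (m + 1) := lam_nonneg' (by omega) hmn
  have hE := err_ge' (S := m + 1) (d := d) hn (by omega) hmn (by omega)
  have hll := MTX.loglog_ge hn
  have hEe : SharpTS.err n (m + 1) d = Real.logb 2 n +
      SharpTS.kap n (m + 1) d * Real.logb 2 (Real.logb 2 n) := rfl
  rcases lt_or_ge (Real.logb 2 n ^ 2) (S : ℝ) with hbig | hsmall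
  · have h1 := phi_le_sq (n := n) (a := m + 1) (d := d)
    have h2 := lam_le (a := m + 1) hn (by omega)
    have h3 : SharpTS.lam n (m + 1) ^ 2 ≤ Real.logb 2 n ^ 2 := pow_le_pow_left₀ hlam0 h2 2
    nlinarith
  · have hlogS : Real.logb 2 (S : ℝ) ≤ 2 * Real.logb 2 (Real.logb 2 n) := by
      have h1 : Real.logb 2 (S : ℝ) ≤ Real.logb 2 (Real.logb 2 n ^ 2) :=
        Real.logb_le_logb_of_le (by norm_num) (by linarith) hsmall
      rw [Real.logb_pow] at h1
      exact_mod_cast h1
    have hm1 : (1 : ℝ) ≤ ((m + 1 : ℕ) : ℝ) := by exact_mod_cast (by omega : 1 ≤ m + 1)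
    by_cases hSm : S + m ≤ n
    · have hmain := hL n S m d s t hn hS1 hSm hd hdn hst W hWS M hM hno (by
        refine hacc.trans (mul_le_mul_of_nonneg_left ?_ ?_)
        · rw [pow_add]
          apply mul_le_mul_of_nonneg_right _ (by positivity)
          exact_mod_cast hWS
        · unfold Cert.cutProb
          positivity)
      obtain ⟨h1, h2⟩ := phi_shift (a := m + 1) (b := S + m) (d := d) hn (by omega) (by omega)
      have h3 : Real.logb 2 (((S + m : ℕ) : ℝ) / ((m + 1 : ℕ) : ℝ)) ≤
          2 * Real.logb 2 (Real.logb 2 n) := by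
        refine le_trans ?_ hlogS
        have hSm0 : (1 : ℝ) ≤ ((S + m : ℕ) : ℝ) := by exact_mod_cast (by omega : 1 ≤ S + m)
        apply Real.logb_le_logb_of_le (by norm_num) (by positivity)
        rw [div_le_iff₀ (by linarith)]
        have h4 : S + m ≤ S * (m + 1) := by
          have : m ≤ S * m := Nat.le_mul_of_pos_left m (by omega)
          calc S + m ≤ S + S * m := by omega
            _ = S * (m + 1) := by ring
        exact_mod_cast h4
      have h5 : SharpTS.kap n (m + 1) d *
          Real.logb 2 (((S + m : ℕ) : ℝ) / ((m + 1 : ℕ) : ℝ)) ≤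
          SharpTS.kap n (m + 1) d * (2 * Real.logb 2 (Real.logb 2 n)) :=
        mul_le_mul_of_nonneg_left h3 hκ0
      have h6 : c * SharpTS.err n (S + m) d ≤ c * SharpTS.err n (m + 1) d :=
        mul_le_mul_of_nonneg_left h2 hc.le
      nlinarith
    · have h1 := phi_le_kap (n := n) (a := m + 1) (d := d)
      have h2 : SharpTS.lam n (m + 1) ≤ 2 * Real.logb 2 (Real.logb 2 n) := by
        refine le_trans ?_ hlogS
        show Real.logb 2 ((n : ℝ) / ((m + 1 : ℕ) : ℝ)) ≤ Real.logb 2 (S : ℝ)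
        apply Real.logb_le_logb_of_le (by norm_num) (by positivity)
        rw [div_le_iff₀ (by linarith)]
        have h4 : n ≤ S * (m + 1) := by
          have : m ≤ S * m := Nat.le_mul_of_pos_left m (by omega)
          calc n ≤ S + m := by omega
            _ ≤ S + S * m := by omega
            _ = S * (m + 1) := by ring
        exact_mod_cast h4
      have h3 : SharpTS.kap n (m + 1) d * SharpTS.lam n (m + 1) ≤
          SharpTS.kap n (m + 1) d * (2 * Real.logb 2 (Real.logb 2 n)) :=
        mul_le_mul_of_nonneg_left h2 hκ0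
      nlinarith

/-- **Deterministic monotone machines** are nondeterministic machines which certify unreachability
and rely only on the absence of arcs. -/
theorem detD {n S : ℕ} (M : SharpTS.Mach n S) (out : Fin S) :
    ∃ M' : Cert.Mach n (Fin S → Bool), ∀ (T : ℕ) (G : Fin n → Fin n → Bool),
      (M'.AcceptsUsing T 0 G ↔ M.run G T out = false) ∧
      (M'.Accepts T G ↔ M.run G T out = false) := by
  obtain ⟨M', hM'⟩ : ∃ M' : Cert.Mach n (Fin S → Bool), M' =
      { start := M.init
        acc := fun σ => σ out = false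
        v := fun t σ _ => M.v t σ
        step := fun t σ σ' G => M.next t σ G ≤ σ'
        loc := by
          intro t σ σ' G G' hG hs
          exact le_trans (M.mono t σ σ _ _ le_rfl fun u => ⟨(hG u).1.ge, (hG u).2.ge⟩) hs } :=
    ⟨_, rfl⟩
  have hstep : ∀ t σ σ' G, M'.step t σ σ' G ↔ M.next t σ G ≤ σ' := by
    intro t σ σ' H
    rw [hM']
  have hstart : M'.start = M.init := by rw [hM']
  have hacc : ∀ σ, M'.acc σ ↔ σ out = false := by
    intro σ
    rw [hM']
  -- every computation is above the run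
  have h1 : ∀ T G, M'.Accepts T G → M.run G T out = false := by
    rintro T G ⟨R, ⟨h3, h4⟩, h1⟩
    have h5 : ∀ i ≤ T, M.run G i ≤ R i := by
      intro i
      induction i with
      | zero =>
        intro _
        rw [h3, hstart]
        exact le_rfl
      | succ i ih =>
        intro hi
        have h6 := (hstep _ _ _ _).1 (h4 i (by omega))
        exact le_trans (M.mono i _ _ G G (ih (by omega)) fun u => ⟨le_rfl, le_rfl⟩) h6
    have h6 := h5 T le_rfl out
    rw [(hacc _).1 h1] at h6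
    exact le_antisymm h6 (Bool.false_le _)
  have h2 : ∀ T G, M.run G T out = false → M'.AcceptsUsing T 0 G := by
    intro T G h
    refine ⟨M.run G, ∅, le_rfl, fun e he => absurd he (notMem_empty _), (hacc _).2 h, ?_⟩
    intro G' _ hG'
    refine ⟨hstart.symm, fun i _ => (hstep _ _ _ _).2 ?_⟩
    exact M.mono i _ _ G' G le_rfl fun u => ⟨hG' _ _, hG' _ _⟩
  have h3 : ∀ T G, M'.AcceptsUsing T 0 G → M'.Accepts T G := by
    rintro T G ⟨R, K, -, hK, h4, h5⟩
    exact ⟨R, h5 G hK fun _ _ => le_rfl, h4⟩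
  exact ⟨M', fun T G => ⟨⟨fun h => h1 T G (h3 T G h), h2 T G⟩,
    ⟨h1 T G, fun h => h3 T G (h2 T G h)⟩⟩⟩

/-- **Space upper bound**, no present arcs: a deterministic monotone straight line program with a
clock. -/
theorem upper0 : ∃ c : ℝ, 0 < c ∧ ∀ (n d : ℕ) (s t : Fin n), 4 ≤ n → 2 ≤ d → d ≤ n → s ≠ t →
    ∃ (W : Type) (_ : Fintype W) (M : Cert.Mach n W), M.Clockless ∧
      Real.logb 2 (Fintype.card W) ≤ SharpTS.phi n 1 d + c * SharpTS.err n 1 d ∧
      ∀ G : Fin n → Fin n → Bool,
        ((∃ l ≤ d, SharpTS.HasWalk G l s t) → ∀ T, ¬ M.Accepts T G) ∧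
        (¬ SharpTS.Reach G s t → ∃ T, M.AcceptsUsing T 0 G) := by
  obtain ⟨c, hc, hL⟩ := MTX.final
  refine ⟨8 * c + 8, by linarith, ?_⟩
  intro n d s t hn hd hdn hst
  have hn0 : (4 : ℝ) ≤ n := by exact_mod_cast hn
  have hx := logb_two_le hn
  have hE := err_ge' (S := 1) (d := d) hn le_rfl (by omega) (by omega)
  have hκ0 : 0 ≤ SharpTS.kap n 1 d := kap_nonneg' le_rfl (by omega) (by omega)
  have hφ0 : 0 ≤ SharpTS.phi n 1 d := by
    have h1 : SharpTS.kap n 1 d ≤ SharpTS.lam n 1 := min_le_right _ _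
    unfold SharpTS.phi
    nlinarith
  obtain ⟨S, hSdef⟩ : ∃ S, S = ⌈c * Real.logb 2 n⌉₊ := ⟨_, rfl⟩
  have hSge : c * Real.logb 2 n ≤ S := by
    rw [hSdef]
    exact Nat.le_ceil _
  have hSlt : (S : ℝ) < c * Real.logb 2 n + 1 := by
    rw [hSdef]
    exact Nat.ceil_lt_add_one (by positivity)
  have hS1 : 1 ≤ S := by
    have h1 : (0 : ℝ) < S := lt_of_lt_of_le (by positivity) hSge
    exact_mod_cast h1
  by_cases hSn : S ≤ n
  · obtain ⟨-, h4, -⟩ := hL n S d s t hn hS1 hSn hd hdn hst
    obtain ⟨S', hS', M, out, T, hT, hM1, hM2, hM3⟩ := h4 hSge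
    obtain ⟨M', hM'⟩ := detD M out
    refine ⟨Fin (T + 1) × (Fin S' → Bool), inferInstance, clock M' T, clock_clockless _ _, ?_,
      fun G => ⟨fun hw T' h => ?_, fun hr => ?_⟩⟩
    · have hcard : Fintype.card (Fin (T + 1) × (Fin S' → Bool)) ≤ 2 * T * 2 ^ S := by
        rw [clock_card, Fintype.card_fun, Fintype.card_bool, Fintype.card_fin]
        exact Nat.mul_le_mul (by omega) (Nat.pow_le_pow_right (by norm_num) hS')
      have hT1 : (1 : ℝ) ≤ T := by exact_mod_cast hT
      have hpos : 0 < Fintype.card (Fin (T + 1) × (Fin S' → Bool)) :=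
        Fintype.card_pos_iff.2 ⟨(0, fun _ => false)⟩
      have h1 : Real.logb 2 (Fintype.card (Fin (T + 1) × (Fin S' → Bool)) : ℝ) ≤
          1 + Real.logb 2 T + S := by
        have h2 : Real.logb 2 (Fintype.card (Fin (T + 1) × (Fin S' → Bool)) : ℝ) ≤
            Real.logb 2 (2 * T * 2 ^ S) := by
          apply Real.logb_le_logb_of_le (by norm_num) (by exact_mod_cast hpos)
          exact_mod_cast hcard
        rw [Real.logb_mul (by positivity) (by positivity), Real.logb_mul (by norm_num)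
          (by positivity), Real.logb_self_eq_one (by norm_num), ← Real.rpow_natCast 2 S,
          Real.logb_rpow (by norm_num) (by norm_num)] at h2
        exact h2
      obtain ⟨h5, h6⟩ := phi_shift (a := 1) (b := S) (d := d) hn le_rfl hS1
      -- `phi` decreases in `S`
      have h7 : SharpTS.phi n S d ≤ SharpTS.phi n 1 d := by
        have hlam : SharpTS.lam n S ≤ SharpTS.lam n 1 := by
          show Real.logb 2 ((n : ℝ) / S) ≤ Real.logb 2 ((n : ℝ) / ((1 : ℕ) : ℝ))
          have hS0 : (1 : ℝ) ≤ S := by exact_mod_cast hS1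
          apply Real.logb_le_logb_of_le (by norm_num) (by positivity)
          rw [Nat.cast_one, div_one, div_le_iff₀ (by linarith)]
          nlinarith
        have hlam0 : 0 ≤ SharpTS.lam n S := lam_nonneg' hS1 hSn
        have hD : 0 ≤ Real.logb 2 (d : ℝ) :=
          Real.logb_nonneg (by norm_num) (by exact_mod_cast (by omega : 1 ≤ d))
        show min (Real.logb 2 d) (SharpTS.lam n S) * SharpTS.lam n S -
            min (Real.logb 2 d) (SharpTS.lam n S) ^ 2 / 2 ≤
          min (Real.logb 2 d) (SharpTS.lam n 1) * SharpTS.lam n 1 -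
            min (Real.logb 2 d) (SharpTS.lam n 1) ^ 2 / 2
        rcases le_total (Real.logb 2 (d : ℝ)) (SharpTS.lam n S) with k1 | k1
        · rw [min_eq_left k1, min_eq_left (k1.trans hlam)]
          nlinarith
        · rw [min_eq_right k1]
          rcases le_total (Real.logb 2 (d : ℝ)) (SharpTS.lam n 1) with k2 | k2
          · rw [min_eq_left k2]
            nlinarith
          · rw [min_eq_right k2]
            nlinarith
      have h8 : c * SharpTS.err n S d ≤ c * SharpTS.err n 1 d :=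
        mul_le_mul_of_nonneg_left h6 hc.le
      have e3 : SharpTS.phi n S d = MTX.phi n S d := rfl
      have e4 : SharpTS.err n S d = MTX.err n S d := rfl
      have h9 : Real.logb 2 (T : ℝ) ≤ SharpTS.phi n S d + c * SharpTS.err n S d := hM3
      nlinarith
    · have h1 := (clock_accepts M' T G).1 ⟨T', h⟩
      have h2 := ((hM' T G).2).1 h1
      have h3 := (hM2 G).1 hw
      rw [h2] at h3
      exact absurd h3 (by simp)
    · exact (clock_using M' T 0 G).2 (((hM' T G).1).2 ((hM2 G).2 hr))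
  · -- `n` is small
    refine ⟨Fin (n + 1 + 1) × Finset (Fin n), inferInstance, clock (guess s t) (n + 1),
      clock_clockless _ _, ?_, fun G => ⟨fun hw T' h => ?_, fun hr => ?_⟩⟩
    · have hcard : Fintype.card (Fin (n + 1 + 1) × Finset (Fin n)) ≤ 2 ^ (2 * n) := by
        rw [clock_card, Fintype.card_finset, Fintype.card_fin]
        have h1 : n + 1 + 1 ≤ 2 ^ n := by
          have h2 : ∀ k, 4 ≤ k → k + 1 + 1 ≤ 2 ^ k := by
            intro k hk
            induction k, hk using Nat.le_induction with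
            | base => norm_num
            | succ k _ ih =>
              rw [pow_succ]
              omega
          exact h2 n hn
        calc (n + 1 + 1) * 2 ^ n ≤ 2 ^ n * 2 ^ n := Nat.mul_le_mul_right _ h1
          _ = 2 ^ (2 * n) := by rw [← pow_add]; congr 1; ring
      have hpos : 0 < Fintype.card (Fin (n + 1 + 1) × Finset (Fin n)) :=
        Fintype.card_pos_iff.2 ⟨(0, ∅)⟩
      have h1 : Real.logb 2 (Fintype.card (Fin (n + 1 + 1) × Finset (Fin n)) : ℝ) ≤
          ((2 * n : ℕ) : ℝ) := by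
        rw [Real.logb_le_iff_le_rpow (by norm_num) (by exact_mod_cast hpos), Real.rpow_natCast]
        exact_mod_cast hcard
      have h2 : (n : ℝ) ≤ S := by exact_mod_cast (by omega : n ≤ S)
      push_cast at h1
      nlinarith
    · have h1 := (clock_accepts (guess s t) (n + 1) G).1 ⟨T', h⟩
      obtain ⟨l, -, hl⟩ := hw
      refine guess_accepts h1 ?_
      clear h1 h
      have h2 : ∀ (l : ℕ) (v : Fin n), SharpTS.HasWalk G l s v → SharpTS.Reach G s v := by
        intro l
        induction l with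
        | zero =>
          intro v hv
          have : s = v := hv
          rw [← this]
          exact Relation.ReflTransGen.refl
        | succ l ih =>
          rintro v ⟨u, hu, huv⟩
          exact (ih u hu).tail huv
      exact h2 l t hl
    · exact (clock_using (guess s t) (n + 1) 0 G).2 (guess_using hr)

/-- **Space upper bound**, `n - 1` present arcs: Immerman and Szelepcsényi. -/
theorem upperIS : ∃ c : ℝ, 0 < c ∧ ∀ (n : ℕ) (s t : Fin n), 4 ≤ n → s ≠ t →
    ∃ (W : Type) (_ : Fintype W) (M : Cert.Mach n W), M.Clockless ∧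
      Real.logb 2 (Fintype.card W) ≤ c * Real.logb 2 n ∧
      ∀ G : Fin n → Fin n → Bool,
        (SharpTS.Reach G s t → ∀ T, ¬ M.Accepts T G) ∧
        (¬ SharpTS.Reach G s t → ∃ T, M.AcceptsUsing T (n - 1) G) := by
  obtain ⟨c, hL⟩ := is_machine
  refine ⟨2 * c + 1, by positivity, ?_⟩
  intro n s t hn hst
  obtain ⟨W, hW, M, T, h1, h2, h3⟩ := hL n s t hn hst
  have hn0 : (4 : ℝ) ≤ n := by exact_mod_cast hn
  refine ⟨Fin (T + 1) × W, inferInstance, clock (ofI M) T, clock_clockless _ _, ?_,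
    fun G => ⟨fun hr T' h => ?_, fun hr => ?_⟩⟩
  · have hcard : Fintype.card (Fin (T + 1) × W) ≤ n ^ (2 * c + 1) := by
      rw [clock_card]
      have h4 : 1 ≤ n ^ c := Nat.one_le_pow _ _ (by omega)
      calc (T + 1) * Fintype.card W ≤ (n ^ c + n ^ c) * n ^ c := Nat.mul_le_mul (by omega) h1
        _ = 2 * (n ^ c * n ^ c) := by ring
        _ ≤ n * (n ^ c * n ^ c) := Nat.mul_le_mul_right _ (by omega)
        _ = n ^ (2 * c + 1) := by ring
    have hpos : 0 < Fintype.card (Fin (T + 1) × W) := Fintype.card_pos_iff.2 ⟨(0, M.start)⟩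
    have h4 : Real.logb 2 (Fintype.card (Fin (T + 1) × W) : ℝ) ≤
        Real.logb 2 ((n : ℝ) ^ (2 * c + 1)) := by
      apply Real.logb_le_logb_of_le (by norm_num) (by exact_mod_cast hpos)
      exact_mod_cast hcard
    rw [Real.logb_pow] at h4
    push_cast at h4
    exact h4
  · exact (h3 G).1 hr ((clock_accepts (ofI M) T G).1 ⟨T', h⟩)
  · exact (clock_using (ofI M) T (n - 1) G).2 ((h3 G).2 hr)

end MTU
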