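import Pool.Agent.Lib.MTU.FinalD

/-!
# MTU.Main (MP_e46137_lc): the theorem
-/

namespace MTU

open Classical Finset SimAux FinalAux FinalCAux FinalDAux

namespace MainAux

theorem reach_of_walk {n : ℕ} {G : Fin n → Fin n → Bool} {s : Fin n} :
    ∀ (l : ℕ) (v : Fin n), SharpTS.HasWalk G l s v → SharpTS.Reach G s v := by
  intro l
  induction l with
  | zero =>
    intro v hv
    have : s = v := hv
    rw [← this]
    exact Relation.ReflTransGen.refl
  | succ l ih =>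
    rintro v ⟨u, hu, huv⟩
    exact (ih u hu).tail huv

theorem phi_top {n d : ℕ} (hn : 4 ≤ n) (hd : 1 ≤ d) :
    SharpTS.phi n n d = 0 ∧ SharpTS.err n n d = Real.logb 2 n := by
  have hn0 : (4 : ℝ) ≤ n := by exact_mod_cast hn
  have hlam : SharpTS.lam n n = 0 := by
    show Real.logb 2 ((n : ℝ) / n) = 0
    rw [div_self (by positivity), Real.logb_one]
  have hD : 0 ≤ Real.logb 2 (d : ℝ) := Real.logb_nonneg (by norm_num) (by exact_mod_cast hd)
  have hκ : SharpTS.kap n n d = 0 := by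
    show min (Real.logb 2 d) (SharpTS.lam n n) = 0
    rw [hlam, min_eq_right hD]
  unfold SharpTS.phi SharpTS.err
  rw [hκ]
  constructor
  · ring
  · ring

end MainAux

open MainAux

/-- **The theorem.** -/
theorem main : ∃ c : ℝ, 0 < c ∧ ∀ (n d : ℕ) (s t : Fin n), 4 ≤ n → 2 ≤ d → d ≤ n → s ≠ t →
    (∀ m < n, ∀ (W : Type) [Fintype W] (M : Cert.Mach n W), M.Clockless →
      (∀ G : Fin n → Fin n → Bool, (∀ a b, G a b = G b a) →
        (∃ l ≤ d, SharpTS.HasWalk G l s t) → ∀ T, ¬ M.AcceptsUsing T m G) →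
      1 ≤ Cert.cutProb s t (fun G => ∃ T, M.AcceptsUsing T m G) * (Fintype.card W * 2 ^ m) →
      SharpTS.phi n (m + 1) d - c * SharpTS.err n (m + 1) d ≤ Real.logb 2 (Fintype.card W)) ∧
    (∀ m, m = 0 ∨ m = n - 1 → ∃ (W : Type) (_ : Fintype W) (M : Cert.Mach n W), M.Clockless ∧
      Real.logb 2 (Fintype.card W) ≤
        SharpTS.phi n (m + 1) d + c * SharpTS.err n (m + 1) d ∧
      ∀ G : Fin n → Fin n → Bool,
        ((∃ l ≤ d, SharpTS.HasWalk G l s t) → ∀ T, ¬ M.Accepts T G) ∧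
        (¬ SharpTS.Reach G s t → ∃ T, M.AcceptsUsing T m G)) ∧
    (∀ S m T : ℕ, 1 ≤ S → S + m ≤ n → ∀ (W : Type) [Fintype W] (M : Cert.Mach n W),
      Fintype.card W ≤ 2 ^ S →
      (∀ G : Fin n → Fin n → Bool, (∀ a b, G a b = G b a) →
        (∃ l ≤ d, SharpTS.HasWalk G l s t) → ¬ M.AcceptsUsing T m G) →
      1 ≤ Cert.cutProb s t (M.AcceptsUsing T m) * 2 ^ (S + m) →
      SharpTS.phi n (S + m) d - c * SharpTS.err n (S + m) d ≤ Real.logb 2 T) ∧
    (∀ S : ℕ, 1 ≤ S → S ≤ n →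
      (∀ (T : ℕ) (W : Type) [Fintype W] (Ω : Type) [Fintype Ω] (p : Ω → ℝ)
        (M : Ω → Cert.Mach n W) (δ : ℝ), Fintype.card W ≤ 2 ^ S → (∀ ω, 0 ≤ p ω) →
        ∑ ω, p ω = 1 → 0 < δ → Cert.Certifies p M T d s t δ →
        SharpTS.phi n S d - c * SharpTS.err n S d ≤ Real.logb 2 (T / δ)) ∧
      (c * Real.logb 2 n ^ 9 * S * d ≤ n →
        ∀ (T : ℕ) (W : Type) [Fintype W] (M : Cert.Mach n W), Fintype.card W ≤ 2 ^ S →
        Cert.cutProb s t (M.AcceptsUsing T 0) ≤ Cert.pathProb d s t (M.AcceptsUsing T 0) +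
          T * (2 : ℝ) ^ (-(SharpTS.phi n S d - c * SharpTS.err n S d))) ∧
      (c * Real.logb 2 n ≤ S → ∃ S' ≤ S, ∃ (M : SharpTS.Mach n S') (out : Fin S') (T : ℕ),
        1 ≤ T ∧ M.Simple ∧ SharpTS.Decides M out T d s t ∧
        Real.logb 2 T ≤ SharpTS.phi n S d + c * SharpTS.err n S d) ∧
      SharpTS.phi n S n = SharpTS.lam n S ^ 2 / 2) ∧
    (∀ (S : ℕ) (M : SharpTS.Mach n S) (out : Fin S),
      ∃ M' : Cert.Mach n (Fin S → Bool), ∀ (T : ℕ) (G : Fin n → Fin n → Bool),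
        (M'.AcceptsUsing T 0 G ↔ M.run G T out = false) ∧
        (M'.Accepts T G ↔ M.run G T out = false)) := by
  obtain ⟨c₁, hc₁, h1⟩ := spaceF
  obtain ⟨c₂, hc₂, h2⟩ := upper0
  obtain ⟨c₃, hc₃, h3⟩ := upperIS
  obtain ⟨c₄, hc₄, h4⟩ := posC
  obtain ⟨c₅, hc₅, h5⟩ := gapC
  obtain ⟨c₆, hc₆, h6⟩ := advC
  obtain ⟨c₇, hc₇, h7⟩ := MTX.final
  obtain ⟨c, hc⟩ : ∃ c, c = c₁ + c₂ + c₃ + c₄ + c₅ + c₆ + c₇ := ⟨_, rfl⟩
  refine ⟨c, by linarith, ?_⟩
  intro n d s t hn hd hdn hst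
  have hlog : 2 ≤ Real.logb 2 (n : ℝ) := logb_two_le hn
  have herr : ∀ S, 1 ≤ S → S ≤ n → 0 ≤ SharpTS.err n S d := fun S hS hSn =>
    MTX.err_nonneg hn hS hSn (by omega)
  have hmul : ∀ S, 1 ≤ S → S ≤ n → ∀ c', c' ≤ c →
      c' * SharpTS.err n S d ≤ c * SharpTS.err n S d := fun S hS hSn c' h =>
    mul_le_mul_of_nonneg_right h (herr S hS hSn)
  refine ⟨?_, ?_, ?_, ?_, fun S M out => detD M out⟩
  · intro m hm W _ M hM hno hacc
    have := h1 n m d s t hn hm hd hdn hst W M hM hno hacc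
    have := hmul (m + 1) (by omega) hm c₁ (by linarith)
    linarith
  · intro m hm
    rcases hm with rfl | rfl
    · obtain ⟨W, hW, M, k1, k2, k3⟩ := h2 n d s t hn hd hdn hst
      have := hmul 1 le_rfl (by omega) c₂ (by linarith)
      exact ⟨W, hW, M, k1, by rw [zero_add]; linarith, k3⟩
    · obtain ⟨W, hW, M, k1, k2, k3⟩ := h3 n s t hn hst
      have e : n - 1 + 1 = n := by omega
      refine ⟨W, hW, M, k1, ?_, fun G => ⟨?_, (k3 G).2⟩⟩
      · rw [e, (phi_top hn (by omega : 1 ≤ d)).1, (phi_top hn (by omega : 1 ≤ d)).2, zero_add]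
        refine k2.trans ?_
        apply mul_le_mul_of_nonneg_right _ (by linarith)
        linarith
      · rintro ⟨l, -, hl⟩
        exact (k3 G).1 (reach_of_walk l t hl)
  · intro S m T hS hSm W _ M hW hno hacc
    have := h4 n S m d T s t hn hS hSm hd hdn hst W hW M hno hacc
    have := hmul (S + m) (by omega) hSm c₄ (by linarith)
    linarith
  · intro S hS hSn
    obtain ⟨-, k4, k5⟩ := h7 n S d s t hn hS hSn hd hdn hst
    refine ⟨?_, ?_, ?_, k5⟩
    · intro T W _ Ω _ p M δ hW hp0 hp1 hδ hM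
      have := h5 n S d T s t hn hS hSn hd hdn hst W hW Ω p hp0 hp1 M δ hδ hM
      have := hmul S hS hSn c₅ (by linarith)
      linarith
    · intro hC T W _ M hW
      refine (h6 n S d T s t hn hS hSn hd hdn hst ?_ W hW M).trans ?_
      · refine le_trans ?_ hC
        gcongr
        linarith
      · apply add_le_add_right
        apply mul_le_mul_of_nonneg_left _ (Nat.cast_nonneg _)
        apply Real.rpow_le_rpow_of_exponent_le (by norm_num)
        have := hmul S hS hSn c₆ (by linarith)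
        linarith
    · intro hS2
      obtain ⟨S', hS', M, out, T, hT, hM1, hM2, hM3⟩ := k4
        ((mul_le_mul_of_nonneg_right (by linarith : c₇ ≤ c) (by linarith)).trans hS2)
      have := hmul S hS hSn c₇ (by linarith)
      have e3 : SharpTS.phi n S d = MTX.phi n S d := rfl
      have e4 : SharpTS.err n S d = MTX.err n S d := rfl
      have hM4 : Real.logb 2 (T : ℝ) ≤ SharpTS.phi n S d + c₇ * SharpTS.err n S d := hM3
      exact ⟨S', hS', M, out, T, hT, hM1, hM2, by linarith⟩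

end MTU
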