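import Pool.Agent.Lib.MTU.Core
import Pool.Agent.Lib.MTN.Bad

/-!
# MTU.Root (MP_e46137_lc): the whole time interval
-/

namespace MTU

open Classical Finset MTX

variable {r N : ℕ}

namespace RootAux

theorem card_inj (r N : ℕ) : (MTN.inj r N).card = Fintype.card (Pth r N) := by
  rw [Fintype.card_congr (Equiv.subtypeInjectiveEquivEmbedding (Fin r) (Fin N)).symm,
    Fintype.card_subtype]
  refine congrArg card (Finset.ext fun P => ?_)
  unfold MTN.inj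
  simp only [mem_filter]

theorem sub_col {P : Pth r N} {q : ℕ} {U : PC N} (h : Sub U (UP P q)) :
    MTQ.Sub U (MTN.col (fun j => P j) (fun j => decide ((j : ℕ) < q))) := by
  intro v c hc
  obtain ⟨j, hj, hcj⟩ := (sub_UP_iff P q U).1 h v c hc
  subst hj
  rw [MTN.col_apply P.injective]
  exact congrArg some hcj.symm

theorem blocked_le (F : Finset (PC N)) :
    (univ.filter (fun P : Pth r N => ∃ q, ∃ U ∈ F, Sub U (UP P q))).card ≤
      ((MTN.inj r N).filter (fun P => ∃ c, ∃ U ∈ F, MTQ.Sub U (MTN.col P c))).card := by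
  refine card_le_card_of_injOn (fun P j => P j) ?_ ?_
  · intro P hP
    obtain ⟨-, q, U, hU, hUP⟩ := mem_filter.1 (mem_coe.1 hP)
    refine mem_coe.2 (mem_filter.2 ⟨?_, fun j => decide ((j : ℕ) < q), U, hU, sub_col hUP⟩)
    unfold MTN.inj
    exact mem_filter.2 ⟨mem_univ _, P.injective⟩
  · intro P _ P' _ hPP
    exact DFunLike.ext _ _ fun j => congrFun hPP j

theorem few {w θ L : ℕ} (F : Finset (PC N)) (hF : ClosedW w θ F) (hL : 1 ≤ L)
    (hθ : 2 ^ N ≤ θ * 2 ^ L) : MTN.Few w (8 * w * L) F := by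
  intro D a hDa
  have h1 := MTQ.minExt_card (V := Fin N) (ExtAux.closed_of hF) (L := L) (a := a)
    (B₁ := 4 * w * L)
    (by rw [Fintype.card_fin, mul_comm]; exact hθ) hL le_rfl (D := D) hDa
  have e : 2 * (4 * w * L) = 8 * w * L := by ring
  rw [e] at h1
  refine le_trans (le_of_eq (congrArg card (Finset.ext fun A => ?_))) h1
  simp only [mem_filter, mem_univ, true_and]

end RootAux

open RootAux

/-- if the empty colouring is not a member, then few paths have a blocked arc -/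
theorem few_blocked {w θ L : ℕ} (hr : 1 ≤ r) (F : Finset (PC N)) (hF : ClosedW w θ F)
    (hw : 1 ≤ w) (hL : 1 ≤ L) (hθ : 2 ^ N ≤ θ * 2 ^ L) (hN : 32 * (8 * w * L) * r ≤ N - r)
    (hemp : emp N ∉ F) :
    31 * ((univ.filter (fun P : Pth r N => ∃ q, ∃ U ∈ F, Sub U (UP P q))).card : ℝ) ≤
      (Fintype.card (Pth r N) : ℝ) := by
  have hB : 1 ≤ 8 * w * L := Nat.succ_le_of_lt (by positivity)
  have hNr := MTN.BadAux.pos_sub hB hN hr
  have h1 := MTN.BadAux.union_le (a₀ := 1) F (few F hF hL hθ) hN hNr hr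
    ((MTN.inj r N).filter (fun P => ∃ c, ∃ U ∈ F, MTQ.Sub U (MTN.col P c))) (by
      intro P hP
      obtain ⟨hinj, c, U, hU, hUP⟩ := mem_filter.1 hP
      obtain ⟨V, hV, -, hVw, hcov⟩ := MTN.BadAux.mem_cov (ExtAux.closed_of hF) hinj hU hUP
      refine mem_biUnion.2 ⟨MTQ.size V, mem_Icc.2 ⟨?_, hVw⟩, hcov⟩
      rw [ExtAux.size_eq]
      by_contra h0
      have h2 : V = emp N := size_eq_zero (by omega)
      rw [h2] at hV
      exact hemp hV)
  have h2 : ((univ.filter (fun P : Pth r N => ∃ q, ∃ U ∈ F, Sub U (UP P q))).card : ℝ) ≤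
      (((MTN.inj r N).filter (fun P => ∃ c, ∃ U ∈ F, MTQ.Sub U (MTN.col P c))).card : ℝ) := by
    exact_mod_cast blocked_le F
  rw [card_inj] at h1
  linarith

/-- the paths with a blocked arc are at most the fraction of the colourings which hit the family -/
theorem sinkX {w θ L : ℕ} (hr : 1 ≤ r) (F : Finset (PC N)) (hF : ClosedW w θ F) (hw : 1 ≤ w)
    (hL : 1 ≤ L) (hθ : 2 ^ N ≤ θ * 2 ^ L) (hN : 32 * (8 * w * L) * r ≤ N - r) :
    (univ.filter (fun P : Pth r N => ∃ q, ∃ U ∈ F, Sub U (UP P q))).card * 2 ^ N ≤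
      (univ.filter (fun χ : Col N => Hits F χ)).card * Fintype.card (Pth r N) := by
  have hF' := ExtAux.closed_of hF
  have hB : 1 ≤ 8 * w * L := Nat.succ_le_of_lt (by positivity)
  have h := MTN.sink (r := r) F hF' (B := 8 * w * L) hB (by
    intro D a hDa
    have h1 := MTQ.minExt_card (V := Fin N) hF' (L := L) (a := a) (B₁ := 4 * w * L)
      (by rw [Fintype.card_fin, mul_comm]; exact hθ) hL le_rfl (D := D) hDa
    have e : 2 * (4 * w * L) = 8 * w * L := by ring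
    rw [e] at h1
    refine le_trans (le_of_eq (congrArg card (Finset.ext fun A => ?_))) h1
    simp only [mem_filter, mem_univ, true_and]) hN hr
  rw [card_inj] at h
  have h2 := blocked_le (r := r) F
  refine (Nat.mul_le_mul_right _ h2).trans (h.trans (le_of_eq ?_))
  congr 1

/-- **The core.** -/
theorem root {W : Type} [Fintype W] {w w₁ k Q L T J : ℕ} (θ : ℕ → ℕ) (hr : 1 ≤ r)
    (hw : 2 * w₁ ≤ w) (hw3 : 3 ≤ w₁) (hL : 1 ≤ L) (hQ : 8 ≤ Q)
    (hθ0 : ∀ j, 2 ^ N ≤ θ j * 2 ^ L)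
    (hθ : ∀ j, Fintype.card W * ((2 * N + 1) ^ w * θ j) ≤ θ (j + 1))
    (hrN : r < N) (hμ : 4 * (8 * w * L) * Q * r ≤ N - r)
    (hκ : 4 * (8 * w * L) * Q * 2 ^ k ≤ N - r)
    (hF1 : 1 ≤ 2 ^ w₁ * Fk (4 * ((8 * w * L : ℕ) : ℝ) * Q / ((N - r : ℕ) : ℝ)) k)
    (Acc : Finset (Col N)) (R : Col N → ℕ → W) (reach : ℕ → W → Pth r N → Prop)
    (hbase : ∀ t < T, ∀ a P, reach t a P → ∃ q₀, ∀ q ≤ r, q ≠ q₀ → q ≠ q₀ + 1 →
      ∃ U, Sub U (UP P q) ∧ size U ≤ 3 ∧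
        ∀ χ ∈ Acc, R χ t = a → ¬ reach (t + 1) (R χ (t + 1)) P → ¬ Agree U χ)
    (hT : 1 ≤ T) (hTJ : T ≤ 2 ^ J) (hk : 2 ^ k ≤ r + 1) (start : W)
    (hR0 : ∀ χ ∈ Acc, R χ 0 = start) (hreach0 : ∀ P, reach 0 start P) :
    ((univ.filter (fun P : Pth r N => ∀ χ ∈ Acc, ¬ reach T (R χ T) P)).card : ℝ) ≤
      ((2 / (1 - 2 / (Q : ℝ))) ^ J *
        Fk (4 * ((8 * w * L : ℕ) : ℝ) * Q / ((N - r : ℕ) : ℝ)) k +
        (1 - (Acc.card : ℝ) / 2 ^ N + ((2 * N + 1) ^ w * θ J : ℕ) / 2 ^ N)) *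
      (Fintype.card (Pth r N) : ℝ) := by
  obtain ⟨F, Err, hp⟩ := exists_pair w (θ J) Acc
  have hcl := hp.closed
  obtain ⟨Rej, hRej⟩ : ∃ Rej, Rej = univ.filter
    (fun P : Pth r N => ∀ χ ∈ Acc, ¬ reach T (R χ T) P) := ⟨_, rfl⟩
  obtain ⟨κ, hκdef⟩ : ∃ κ : ℝ, κ = 4 * ((8 * w * L : ℕ) : ℝ) * Q / ((N - r : ℕ) : ℝ) := ⟨_, rfl⟩
  rw [← hRej, ← hκdef]
  set ρ : PA r N := fun _ => none with hρ
  have hasz : asz ρ = 0 := by
    unfold asz
    rw [card_eq_zero, filter_eq_empty_iff]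
    intro j _ h
    exact h rfl
  have hOm : Om ρ = (univ : Finset (Pth r N)) := by
    unfold Om
    refine filter_true_of_mem fun P _ j v h => ?_
    rw [hρ] at h
    exact absurd h (by simp)
  have h1 := claim (T := T) θ hw hw3 hL rfl (by omega : 6 ≤ Q) hθ0 hθ hrN hμ hκ hF1 Acc R reach
    hbase J 0 T (by omega) le_rfl (by omega) start Acc (Subset.refl _) hR0 F Err hp ρ 0 k le_rfl
    (by omega) (fun j _ _ => rfl)
  rw [← hκdef, hasz, pow_zero, mul_one, hOm, card_univ] at h1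
  have h2 : Rej ⊆ EN (Nd reach R Acc start 0 T) (blk w₁ F) ρ 0 k ∪
      univ.filter (fun P : Pth r N => ∃ q, ∃ U ∈ F, Sub U (UP P q)) := by
    intro P hP
    rw [hRej] at hP
    rw [mem_union]
    by_cases hb : ∃ q, ∃ U ∈ F, Sub U (UP P q)
    · right
      exact mem_filter.2 ⟨mem_univ _, hb⟩
    · left
      refine mem_filter.2 ⟨mem_filter.2 ⟨mem_univ _, hreach0 P, (mem_filter.1 hP).2⟩, ?_, ?_⟩
      · rw [hOm]
        exact mem_univ _
      · rintro q - - ⟨U, hU, -, hUP⟩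
        exact hb ⟨q, U, hU, hUP⟩
  have h3 := sinkX hr F hcl (by omega) hL (hθ0 J) (by
    refine le_trans ?_ hμ
    calc 32 * (8 * w * L) * r = 4 * (8 * w * L) * 8 * r := by ring
      _ ≤ 4 * (8 * w * L) * Q * r := Nat.mul_le_mul_right _ (Nat.mul_le_mul_left _ hQ))
  have h4 : (univ.filter (fun χ : Col N => Hits F χ)).card + Acc.card ≤
      2 ^ N + (2 * N + 1) ^ w * θ J := by
    have h5 : (univ.filter (fun χ : Col N => Hits F χ)) ⊆ (univ \ Acc) ∪ Err := by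
      intro χ hχ
      rw [mem_union, mem_sdiff]
      by_cases h6 : χ ∈ Acc
      · right
        by_contra h7
        exact hp.av χ h6 h7 (mem_filter.1 hχ).2
      · exact Or.inl ⟨mem_univ _, h6⟩
    have h6 := (card_le_card h5).trans (card_union_le _ _)
    have h7 : (univ \ Acc).card + Acc.card = 2 ^ N := by
      rw [card_sdiff_add_card_eq_card (subset_univ _), card_univ]
      simp
    have h8 := hp.err
    omega
  have h5 : (Rej.card : ℝ) ≤ ((EN (Nd reach R Acc start 0 T) (blk w₁ F) ρ 0 k).card : ℝ) +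
      ((univ.filter (fun P : Pth r N => ∃ q, ∃ U ∈ F, Sub U (UP P q))).card : ℝ) := by
    exact_mod_cast (card_le_card h2).trans (card_union_le _ _)
  have h2N : (0 : ℝ) < 2 ^ N := by positivity
  obtain ⟨c, hc⟩ : ∃ c : ℝ, c = (Fintype.card (Pth r N) : ℝ) := ⟨_, rfl⟩
  have hc0 : 0 ≤ c := by rw [hc]; exact Nat.cast_nonneg _
  have h6 : ((univ.filter (fun P : Pth r N => ∃ q, ∃ U ∈ F, Sub U (UP P q))).card : ℝ) ≤
      (1 - (Acc.card : ℝ) / 2 ^ N + ((2 * N + 1) ^ w * θ J : ℕ) / 2 ^ N) * c := by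
    have e1 : ((univ.filter (fun P : Pth r N => ∃ q, ∃ U ∈ F, Sub U (UP P q))).card : ℝ) *
        2 ^ N ≤ ((univ.filter (fun χ : Col N => Hits F χ)).card : ℝ) * c := by
      rw [hc]
      exact_mod_cast h3
    have e2 : ((univ.filter (fun χ : Col N => Hits F χ)).card : ℝ) + (Acc.card : ℝ) ≤
        2 ^ N + (((2 * N + 1) ^ w * θ J : ℕ) : ℝ) := by exact_mod_cast h4
    have e3 : ((univ.filter (fun χ : Col N => Hits F χ)).card : ℝ) * c ≤
        (2 ^ N + (((2 * N + 1) ^ w * θ J : ℕ) : ℝ) - (Acc.card : ℝ)) * c :=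
      mul_le_mul_of_nonneg_right (by linarith) hc0
    have e4 : (2 ^ N + (((2 * N + 1) ^ w * θ J : ℕ) : ℝ) - (Acc.card : ℝ)) * c =
        ((1 - (Acc.card : ℝ) / 2 ^ N + ((2 * N + 1) ^ w * θ J : ℕ) / 2 ^ N) * c) * 2 ^ N := by
      field_simp
      ring
    rw [e4] at e3
    exact le_of_mul_le_mul_right (e1.trans e3) h2N
  rw [← hc] at h1 ⊢
  rw [add_mul]
  linarith

/-- **The core** if no path is accepted: it is enough that the set `X` of accepted colourings is not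
extremely small. -/
theorem root2 {W : Type} [Fintype W] {w w₁ k Q L T J : ℕ} (θ : ℕ → ℕ) (hr : 1 ≤ r)
    (hw : 2 * w₁ ≤ w) (hw3 : 3 ≤ w₁) (hL : 1 ≤ L) (hQ : 8 ≤ Q)
    (hθ0 : ∀ j, 2 ^ N ≤ θ j * 2 ^ L)
    (hθ : ∀ j, Fintype.card W * ((2 * N + 1) ^ w * θ j) ≤ θ (j + 1))
    (hrN : r < N) (hμ : 4 * (8 * w * L) * Q * r ≤ N - r)
    (hκ : 4 * (8 * w * L) * Q * 2 ^ k ≤ N - r)
    (hF1 : 1 ≤ 2 ^ w₁ * Fk (4 * ((8 * w * L : ℕ) : ℝ) * Q / ((N - r : ℕ) : ℝ)) k)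
    (X : Finset (Col N)) (R : Col N → ℕ → W) (reach : ℕ → W → Pth r N → Prop)
    (hbase : ∀ t < T, ∀ a P, reach t a P → ∃ q₀, ∀ q ≤ r, q ≠ q₀ → q ≠ q₀ + 1 →
      ∃ U, Sub U (UP P q) ∧ size U ≤ 3 ∧
        ∀ χ ∈ X, R χ t = a → ¬ reach (t + 1) (R χ (t + 1)) P → ¬ Agree U χ)
    (hT : 1 ≤ T) (hTJ : T ≤ 2 ^ J) (hk : 2 ^ k ≤ r + 1) (start : W)
    (hR0 : ∀ χ ∈ X, R χ 0 = start) (hreach0 : ∀ P, reach 0 start P)
    (hno : ∀ P, ∀ χ ∈ X, ¬ reach T (R χ T) P) (hX : (2 * N + 1) ^ w * θ J < X.card) :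
    (30 : ℝ) / 31 ≤ (2 / (1 - 2 / (Q : ℝ))) ^ J *
        Fk (4 * ((8 * w * L : ℕ) : ℝ) * Q / ((N - r : ℕ) : ℝ)) k := by
  obtain ⟨F, Err, hp⟩ := exists_pair w (θ J) X
  have hcl := hp.closed
  have hemp : emp N ∉ F := by
    intro h
    have h1 : X ⊆ Err := by
      intro χ hχ
      by_contra h2
      exact hp.av χ hχ h2 ⟨emp N, h, fun v c hc => absurd hc (by simp [emp])⟩
    have h2 := (card_le_card h1).trans hp.err
    omega
  obtain ⟨κ, hκdef⟩ : ∃ κ : ℝ, κ = 4 * ((8 * w * L : ℕ) : ℝ) * Q / ((N - r : ℕ) : ℝ) := ⟨_, rfl⟩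
  rw [← hκdef]
  set ρ : PA r N := fun _ => none with hρ
  have hasz : asz ρ = 0 := by
    unfold asz
    rw [card_eq_zero, filter_eq_empty_iff]
    intro j _ h
    exact h rfl
  have hOm : Om ρ = (univ : Finset (Pth r N)) := by
    unfold Om
    refine filter_true_of_mem fun P _ j v h => ?_
    rw [hρ] at h
    exact absurd h (by simp)
  have h1 := claim (T := T) θ hw hw3 hL rfl (by omega : 6 ≤ Q) hθ0 hθ hrN hμ hκ hF1 X R reach
    hbase J 0 T (by omega) le_rfl (by omega) start X (Subset.refl _) hR0 F Err hp ρ 0 k le_rfl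
    (by omega) (fun j _ _ => rfl)
  rw [← hκdef, hasz, pow_zero, mul_one, hOm, card_univ] at h1
  have h2 : (univ : Finset (Pth r N)) ⊆ EN (Nd reach R X start 0 T) (blk w₁ F) ρ 0 k ∪
      univ.filter (fun P : Pth r N => ∃ q, ∃ U ∈ F, Sub U (UP P q)) := by
    intro P _
    rw [mem_union]
    by_cases hb : ∃ q, ∃ U ∈ F, Sub U (UP P q)
    · right
      exact mem_filter.2 ⟨mem_univ _, hb⟩
    · left
      refine mem_filter.2 ⟨mem_filter.2 ⟨mem_univ _, hreach0 P, hno P⟩, ?_, ?_⟩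
      · rw [hOm]
        exact mem_univ _
      · rintro q - - ⟨U, hU, -, hUP⟩
        exact hb ⟨q, U, hU, hUP⟩
  have h3 := few_blocked hr F hcl (by omega) hL (hθ0 J) (by
    refine le_trans ?_ hμ
    calc 32 * (8 * w * L) * r = 4 * (8 * w * L) * 8 * r := by ring
      _ ≤ 4 * (8 * w * L) * Q * r := Nat.mul_le_mul_right _ (Nat.mul_le_mul_left _ hQ)) hemp
  have h5 : (Fintype.card (Pth r N) : ℝ) ≤
      ((EN (Nd reach R X start 0 T) (blk w₁ F) ρ 0 k).card : ℝ) +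
      ((univ.filter (fun P : Pth r N => ∃ q, ∃ U ∈ F, Sub U (UP P q))).card : ℝ) := by
    rw [← card_univ]
    exact_mod_cast (card_le_card h2).trans (card_union_le _ _)
  have hpos : (0 : ℝ) < (Fintype.card (Pth r N) : ℝ) := by
    have h1 : Fintype.card (Fin r) ≤ Fintype.card (Fin N) := by
      rw [Fintype.card_fin, Fintype.card_fin]
      omega
    obtain ⟨f⟩ := Function.Embedding.nonempty_of_card_le h1
    exact_mod_cast Fintype.card_pos_iff.2 ⟨f⟩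
  have h6 : (30 : ℝ) / 31 * (Fintype.card (Pth r N) : ℝ) ≤
      ((2 / (1 - 2 / (Q : ℝ))) ^ J * Fk κ k) * (Fintype.card (Pth r N) : ℝ) := by
    linarith
  exact le_of_mul_le_mul_right h6 hpos

end MTU
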